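import Mathlib

set_option autoImplicit false

open Filter

namespace Pool.Agent.Results.MP_7616b3_co.Gracefulness

variable {V : Type*}

/-- The label `|f u - f v|` that `f` induces on the edge `uv`. -/
def edgeLabel (f : V → ℕ) : Sym2 V → ℕ :=
  Sym2.lift ⟨fun u v => ((f u : ℤ) - (f v : ℤ)).natAbs, fun u v => by
    show ((f u : ℤ) - (f v : ℤ)).natAbs = ((f v : ℤ) - (f u : ℤ)).natAbs
    omega⟩

/-- `G` is `k`-graceful: some injective `f : V → ℕ` has edge labels that give a bijection from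
the edges onto `{k, k+1, ...}`. -/
def KGraceful (G : SimpleGraph V) (k : ℕ) : Prop :=
  ∃ f : V → ℕ, Function.Injective f ∧ Set.BijOn (edgeLabel f) G.edgeSet {n | k ≤ n}

/-- `G` is bijectively-`k`-graceful: the same with `f` bijective. -/
def BijKGraceful (G : SimpleGraph V) (k : ℕ) : Prop :=
  ∃ f : V → ℕ, Function.Bijective f ∧ Set.BijOn (edgeLabel f) G.edgeSet {n | k ≤ n}

/-- `G` has an infinite set of pairwise disjoint edges, that is, `β₁(G) = ∞`. -/
def InfiniteMatching (G : SimpleGraph V) : Prop :=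
  ∃ M : Set (Sym2 V), M.Infinite ∧ M ⊆ G.edgeSet ∧
    ∀ e ∈ M, ∀ e' ∈ M, e ≠ e' → ∀ v, v ∈ e → v ∉ e'

/-- Some finite set `P` dominates: every vertex outside `P` has a neighbour in `P`. -/
def FinDom (G : SimpleGraph V) : Prop :=
  ∃ P : Finset V, ∀ z, z ∉ P → ∃ p ∈ P, G.Adj z p

/-- `x` is almost dominating: for some finite `F`, both ends of every edge avoiding `F` are
adjacent to `x`. -/
def AlmostDom (G : SimpleGraph V) (x : V) : Prop :=
  ∃ F : Finset V, ∀ u v, u ∉ F → v ∉ F → G.Adj u v → G.Adj x u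

/-- `x` and `y` are distinct, almost dominating and not adjacent. -/
def Bad (G : SimpleGraph V) (x y : V) : Prop :=
  AlmostDom G x ∧ AlmostDom G y ∧ x ≠ y ∧ ¬ G.Adj x y

/-- `v` has no neighbour. -/
def Isolated (G : SimpleGraph V) (v : V) : Prop := ∀ w, ¬ G.Adj v w

/-- `v` has at least two neighbours. -/
def TwoNbrs (G : SimpleGraph V) (v : V) : Prop := ∃ w w', w ≠ w' ∧ G.Adj v w ∧ G.Adj v w'

/-- Infinitely many vertices are isolated and only finitely many have two neighbours. -/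
def Sparse (G : SimpleGraph V) : Prop :=
  {v | Isolated G v}.Infinite ∧ {v | TwoNbrs G v}.Finite

/-- `v` has exactly one or exactly two neighbours. -/
def OneOrTwo (G : SimpleGraph V) (v : V) : Prop :=
  (∃ w, G.Adj v w) ∧ ∃ a b, ∀ w, G.Adj v w → w = a ∨ w = b

/-- The class of graphs for which `k`-gracefulness is determined. If `β₁(G) = ∞`: no almost
dominating vertex is nonadjacent to two other almost dominating vertices. If `β₁(G) < ∞`:
infinitely many vertices have degree one or two. -/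
def Tame (G : SimpleGraph V) : Prop :=
  (InfiniteMatching G → ∀ x y z, Bad G x y → Bad G x z → y = z) ∧
  (¬ InfiniteMatching G → {v | OneOrTwo G v}.Infinite)

/-- `a`, `b`, `c` are pairwise adjacent and every other vertex is either isolated or adjacent to
exactly `a`, `b` and `c`. -/
def TriJoin (G : SimpleGraph V) (a b c : V) : Prop :=
  G.Adj a b ∧ G.Adj b c ∧ G.Adj a c ∧ ∀ v, v ≠ a → v ≠ b → v ≠ c →
    ((∀ w, ¬ G.Adj v w) ∨ (∀ w, G.Adj v w ↔ (w = a ∨ w = b ∨ w = c)))

abbrev St (V : Type*) := Finset V × (V → ℕ)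

def Ext (s t : St V) : Prop := s.1 ⊆ t.1 ∧ ∀ v ∈ s.1, t.2 v = s.2 v

theorem Ext.refl (s : St V) : Ext s s := ⟨fun _ h => h, fun _ _ => rfl⟩

theorem Ext.trans {s t r : St V} (h : Ext s t) (h' : Ext t r) : Ext s r :=
  ⟨fun _ hv => h'.1 (h.1 hv), fun v hv => by rw [h'.2 v (h.1 hv), h.2 v hv]⟩

theorem chain {ι : Type*} [Countable ι] [Nonempty ι] (Good : St V → Prop)
    (R : ι → St V → Prop) (s0 : St V) (h0 : Good s0)
    (step : ∀ s, Good s → ∀ i, ∃ t, Good t ∧ Ext s t ∧ R i t) :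
    ∃ s : ℕ → St V, (∀ n, Good (s n)) ∧ (∀ m n, m ≤ n → Ext (s m) (s n)) ∧
      ∀ i, ∃ n, R i (s n) := by
  classical
  obtain ⟨e, he⟩ := exists_surjective_nat ι
  choose! nx hg hx hr using step
  let s : ℕ → St V := fun n => Nat.rec s0 (fun m t => nx t (e m)) n
  have hs : ∀ n, s (n + 1) = nx (s n) (e n) := fun n => rfl
  have hG : ∀ n, Good (s n) := by
    intro n
    induction n with
    | zero => exact h0
    | succ m ih => rw [hs]; exact hg _ ih _
  have hE : ∀ n, Ext (s n) (s (n + 1)) := by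
    intro n; rw [hs]; exact hx _ (hG n) _
  refine ⟨s, hG, ?_, ?_⟩
  · intro m n hmn
    induction n, hmn using Nat.le_induction with
    | base => exact Ext.refl _
    | succ n _ ih => exact ih.trans (hE n)
  · intro i
    obtain ⟨n, rfl⟩ := he i
    exact ⟨n + 1, by rw [hs]; exact hr _ (hG n) _⟩

theorem limit (s : ℕ → St V) (hE : ∀ m n, m ≤ n → Ext (s m) (s n))
    (hV : ∀ v, ∃ n, v ∈ (s n).1) :
    ∃ F : V → ℕ, ∀ n v, v ∈ (s n).1 → F v = (s n).2 v := by
  choose N hN using hV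
  refine ⟨fun v => (s (N v)).2 v, fun n v hv => ?_⟩
  rcases le_total n (N v) with h | h
  · exact (hE _ _ h).2 v hv
  · exact ((hE _ _ h).2 v (hN v)).symm

/-- validity of a finite partial numbering -/
structure Valid (G : SimpleGraph V) (k : ℕ) (s : St V) : Prop where
  inj : ∀ p ∈ s.1, ∀ q ∈ s.1, s.2 p = s.2 q → p = q
  big : ∀ p ∈ s.1, ∀ q ∈ s.1, G.Adj p q → ∀ D, 0 < D → s.2 p = s.2 q + D → k ≤ D
  uni : ∀ p ∈ s.1, ∀ q ∈ s.1, ∀ p' ∈ s.1, ∀ q' ∈ s.1, G.Adj p q → G.Adj p' q' →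
    ∀ D, 0 < D → s.2 p = s.2 q + D → s.2 p' = s.2 q' + D → p = p' ∧ q = q'

def Realized (G : SimpleGraph V) (s : St V) (D : ℕ) : Prop :=
  ∃ p ∈ s.1, ∃ q ∈ s.1, G.Adj p q ∧ s.2 p = s.2 q + D

theorem Realized.mono {G : SimpleGraph V} {s t : St V} {D : ℕ} (h : Realized G s D)
    (hst : Ext s t) : Realized G t D := by
  obtain ⟨p, hp, q, hq, ha, he⟩ := h
  exact ⟨p, hst.1 hp, q, hst.1 hq, ha, by rw [hst.2 p hp, hst.2 q hq, he]⟩

/-- from a chain of valid states to a numbering -/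
theorem numbering_of_chain (G : SimpleGraph V) (k : ℕ) (s : ℕ → St V)
    (hE : ∀ m n, m ≤ n → Ext (s m) (s n)) (hval : ∀ n, Valid G k (s n))
    (hV : ∀ v, ∃ n, v ∈ (s n).1) (hR : ∀ D, k ≤ D → ∃ n, Realized G (s n) D) :
    ∃ F : V → ℕ, (∀ n v, v ∈ (s n).1 → F v = (s n).2 v) ∧ Function.Injective F ∧
      Set.BijOn (edgeLabel F) G.edgeSet {n | k ≤ n} := by
  obtain ⟨F, hF⟩ := limit s hE hV
  have two : ∀ u v : V, ∃ n, u ∈ (s n).1 ∧ v ∈ (s n).1 := by
    intro u v
    obtain ⟨a, ha⟩ := hV u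
    obtain ⟨b, hb⟩ := hV v
    exact ⟨max a b, (hE _ _ (le_max_left a b)).1 ha, (hE _ _ (le_max_right a b)).1 hb⟩
  have hinj : Function.Injective F := by
    intro u v huv
    obtain ⟨n, hu, hv⟩ := two u v
    exact (hval n).inj u hu v hv (by rw [← hF n u hu, ← hF n v hv, huv])
  -- oriented uniqueness
  have huni : ∀ u v u' v', G.Adj u v → G.Adj u' v' → ∀ D, 0 < D → F u = F v + D →
      F u' = F v' + D → u = u' ∧ v = v' := by
    intro u v u' v' h h' D hD e e'
    obtain ⟨n, hu, hv⟩ := two u v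
    obtain ⟨m, hu', hv'⟩ := two u' v'
    have i1 := (hE _ _ (le_max_left n m)).1
    have i2 := (hE _ _ (le_max_right n m)).1
    refine (hval (max n m)).uni u (i1 hu) v (i1 hv) u' (i2 hu') v' (i2 hv') h h' D hD ?_ ?_
    · rw [← hF _ u (i1 hu), ← hF _ v (i1 hv), e]
    · rw [← hF _ u' (i2 hu'), ← hF _ v' (i2 hv'), e']
  refine ⟨F, hF, hinj, ?_, ?_, ?_⟩
  · intro e he
    induction e using Sym2.ind with
    | _ u v =>
      rw [SimpleGraph.mem_edgeSet] at he
      have hne : F u ≠ F v := fun h => he.ne (hinj h)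
      obtain ⟨n, hu, hv⟩ := two u v
      have e1 := hF n u hu
      have e2 := hF n v hv
      show k ≤ ((F u : ℤ) - (F v : ℤ)).natAbs
      rcases lt_or_gt_of_ne hne with h | h
      · have := (hval n).big v hv u hu he.symm (F v - F u) (by omega) (by omega)
        omega
      · have := (hval n).big u hu v hv he (F u - F v) (by omega) (by omega)
        omega
  · intro e he e' he' hee
    induction e using Sym2.ind with
    | _ u v =>
    induction e' using Sym2.ind with
    | _ u' v' =>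
      rw [SimpleGraph.mem_edgeSet] at he he'
      have hne : F u ≠ F v := fun h => he.ne (hinj h)
      have hne' : F u' ≠ F v' := fun h => he'.ne (hinj h)
      have hee' : ((F u : ℤ) - (F v : ℤ)).natAbs = ((F u' : ℤ) - (F v' : ℤ)).natAbs := hee
      rcases lt_or_gt_of_ne hne with h | h <;> rcases lt_or_gt_of_ne hne' with h' | h'
      · obtain ⟨a, b⟩ := huni v u v' u' he.symm he'.symm (F v - F u) (by omega) (by omega)
          (by omega)
        rw [a, b]
      · obtain ⟨a, b⟩ := huni v u u' v' he.symm he' (F v - F u) (by omega) (by omega)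
          (by omega)
        rw [a, b]; exact Sym2.eq_swap
      · obtain ⟨a, b⟩ := huni u v v' u' he he'.symm (F u - F v) (by omega) (by omega)
          (by omega)
        rw [a, b]; exact Sym2.eq_swap
      · obtain ⟨a, b⟩ := huni u v u' v' he he' (F u - F v) (by omega) (by omega)
          (by omega)
        rw [a, b]
  · intro D hD
    obtain ⟨n, p, hp, q, hq, ha, he⟩ := hR D hD
    refine ⟨s(p, q), ha, ?_⟩
    show ((F p : ℤ) - (F q : ℤ)).natAbs = D
    rw [hF n p hp, hF n q hq, he]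
    omega

/-- bound for the values of a state -/
theorem exists_bound (s : St V) : ∃ B, ∀ p ∈ s.1, s.2 p ≤ B :=
  ⟨s.1.sup s.2, fun _ hp => Finset.le_sup (f := s.2) hp⟩


section ext

variable [DecidableEq V]

/-- place the vertex `v` at `N` -/
def put (s : St V) (v : V) (N : ℕ) : St V := (insert v s.1, Function.update s.2 v N)

theorem put_ext (s : St V) (v : V) (hv : v ∉ s.1) (N : ℕ) : Ext s (put s v N) := by
  refine ⟨Finset.subset_insert _ _, fun w hw => ?_⟩
  have : w ≠ v := fun h => hv (h ▸ hw)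
  simp [put, Function.update_of_ne this]

theorem put_self (s : St V) (v : V) (N : ℕ) : (put s v N).2 v = N := by simp [put]

theorem put_of_mem {s : St V} {v : V} (hv : v ∉ s.1) {N : ℕ} {w : V} (hw : w ∈ s.1) :
    (put s v N).2 w = s.2 w := (put_ext s v hv N).2 w hw

theorem mem_put {s : St V} {v w : V} {N : ℕ} : w ∈ (put s v N).1 ↔ w = v ∨ w ∈ s.1 := by
  simp [put]

theorem put_pair {s : St V} {v : V} (hv : v ∉ s.1) {N B : ℕ} (hB : ∀ p ∈ s.1, s.2 p ≤ B)
    (hN : 2 * B < N) {p q : V} (hp : p ∈ (put s v N).1) (hq : q ∈ (put s v N).1) {D : ℕ}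
    (hD : 0 < D) (h : (put s v N).2 p = (put s v N).2 q + D) :
    (p ∈ s.1 ∧ q ∈ s.1 ∧ s.2 p = s.2 q + D ∧ D ≤ B) ∨
      (p = v ∧ q ∈ s.1 ∧ N = s.2 q + D ∧ B < D) := by
  rw [mem_put] at hp hq
  rcases hp with rfl | hp <;> rcases hq with rfl | hq
  · omega
  · right
    rw [put_self, put_of_mem hv hq] at h
    have := hB q hq
    exact ⟨rfl, hq, h, by omega⟩
  · rw [put_self, put_of_mem hv hp] at h
    have := hB p hp
    omega
  · left
    rw [put_of_mem hv hp, put_of_mem hv hq] at h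
    have := hB p hp
    exact ⟨hp, hq, h, by omega⟩

theorem put_valid {G : SimpleGraph V} {k : ℕ} {s : St V} (hs : Valid G k s) {v : V}
    (hv : v ∉ s.1) {N B : ℕ} (hB : ∀ p ∈ s.1, s.2 p ≤ B) (hN : 2 * B + k < N) :
    Valid G k (put s v N) := by
  refine ⟨?_, ?_, ?_⟩
  · intro p hp q hq h
    rw [mem_put] at hp hq
    rcases hp with rfl | hp <;> rcases hq with rfl | hq
    · rfl
    · rw [put_self, put_of_mem hv hq] at h
      have := hB q hq
      omega
    · rw [put_self, put_of_mem hv hp] at h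
      have := hB p hp
      omega
    · rw [put_of_mem hv hp, put_of_mem hv hq] at h
      exact hs.inj p hp q hq h
  · intro p hp q hq ha D hD h
    rcases put_pair hv hB (by omega) hp hq hD h with ⟨hp, hq, h, -⟩ | ⟨rfl, hq, h, -⟩
    · exact hs.big p hp q hq ha D hD h
    · have := hB q hq
      omega
  · intro p hp q hq p' hp' q' hq' ha ha' D hD h h'
    rcases put_pair hv hB (by omega) hp hq hD h with ⟨ip, iq, i, hDB⟩ | ⟨e1, iq, i, hDB⟩ <;>
    rcases put_pair hv hB (by omega) hp' hq' hD h' with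
      ⟨ip', iq', i', hDB'⟩ | ⟨e1', iq', i', hDB'⟩
    · exact hs.uni p ip q iq p' ip' q' iq' ha ha' D hD i i'
    · omega
    · omega
    · exact ⟨e1.trans e1'.symm, hs.inj q iq q' iq' (by omega)⟩

/-- place a vertex without neighbours in the domain at a free place -/
theorem put_valid' {G : SimpleGraph V} {k : ℕ} {s : St V} (hs : Valid G k s) {v : V}
    (hv : v ∉ s.1) {N : ℕ} (hN : ∀ p ∈ s.1, s.2 p ≠ N) (hvn : ∀ p ∈ s.1, ¬ G.Adj v p) :
    Valid G k (put s v N) := by
  have key : ∀ p ∈ (put s v N).1, ∀ q ∈ (put s v N).1, G.Adj p q → p ∈ s.1 ∧ q ∈ s.1 := by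
    intro p hp q hq ha
    rw [mem_put] at hp hq
    rcases hp with rfl | hp <;> rcases hq with rfl | hq
    · exact absurd ha (G.loopless.irrefl _)
    · exact absurd ha (hvn q hq)
    · exact absurd ha.symm (hvn p hp)
    · exact ⟨hp, hq⟩
  refine ⟨?_, ?_, ?_⟩
  · intro p hp q hq h
    rw [mem_put] at hp hq
    rcases hp with rfl | hp <;> rcases hq with rfl | hq
    · rfl
    · rw [put_self, put_of_mem hv hq] at h
      exact absurd h.symm (hN q hq)
    · rw [put_self, put_of_mem hv hp] at h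
      exact absurd h (hN p hp)
    · rw [put_of_mem hv hp, put_of_mem hv hq] at h
      exact hs.inj p hp q hq h
  · intro p hp q hq ha D hD h
    obtain ⟨hp, hq⟩ := key p hp q hq ha
    rw [put_of_mem hv hp, put_of_mem hv hq] at h
    exact hs.big p hp q hq ha D hD h
  · intro p hp q hq p' hp' q' hq' ha ha' D hD h h'
    obtain ⟨hp, hq⟩ := key p hp q hq ha
    obtain ⟨hp', hq'⟩ := key p' hp' q' hq' ha'
    rw [put_of_mem hv hp, put_of_mem hv hq] at h
    rw [put_of_mem hv hp', put_of_mem hv hq'] at h'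
    exact hs.uni p hp q hq p' hp' q' hq' ha ha' D hD h h'

/-- place `yl` at `M` and `yh` at `M + D0` -/
def put2 (s : St V) (yh yl : V) (M D0 : ℕ) : St V := put (put s yl M) yh (M + D0)

variable {G : SimpleGraph V} {k : ℕ} {s : St V} {yh yl : V} {M D0 B : ℕ}

theorem put2_ext (hh : yh ∉ s.1) (hl : yl ∉ s.1) (hne : yh ≠ yl) :
    Ext s (put2 s yh yl M D0) := by
  refine (put_ext s yl hl M).trans (put_ext _ yh ?_ _)
  rw [mem_put]; push Not; exact ⟨hne, hh⟩

theorem mem_put2 {w : V} : w ∈ (put2 s yh yl M D0).1 ↔ w = yh ∨ w = yl ∨ w ∈ s.1 := by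
  rw [put2, mem_put, mem_put]

theorem put2_h : (put2 s yh yl M D0).2 yh = M + D0 := put_self _ _ _

theorem put2_l (hh : yh ∉ s.1) (hne : yh ≠ yl) : (put2 s yh yl M D0).2 yl = M := by
  have h1 : yh ∉ (put s yl M).1 := by rw [mem_put]; push Not; exact ⟨hne, hh⟩
  rw [put2, put_of_mem h1 (mem_put.2 (Or.inl rfl)), put_self]

theorem put2_of_mem (hh : yh ∉ s.1) (hl : yl ∉ s.1) (hne : yh ≠ yl) {w : V} (hw : w ∈ s.1) :
    (put2 s yh yl M D0).2 w = s.2 w := (put2_ext hh hl hne).2 w hw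

theorem put2_pair (hh : yh ∉ s.1) (hl : yl ∉ s.1) (hne : yh ≠ yl)
    (hB : ∀ p ∈ s.1, s.2 p ≤ B) (hM : 2 * B + D0 < M) {p q : V}
    (hp : p ∈ (put2 s yh yl M D0).1) (hq : q ∈ (put2 s yh yl M D0).1) {D : ℕ}
    (hD : 0 < D) (h : (put2 s yh yl M D0).2 p = (put2 s yh yl M D0).2 q + D) :
    (p ∈ s.1 ∧ q ∈ s.1 ∧ s.2 p = s.2 q + D ∧ D ≤ B) ∨ (p = yh ∧ q = yl ∧ D = D0) ∨
      (p = yh ∧ q ∈ s.1 ∧ M + D0 = s.2 q + D ∧ B + D0 < D) ∨
      (p = yl ∧ q ∈ s.1 ∧ M = s.2 q + D ∧ B + D0 < D) := by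
  rw [mem_put2] at hp hq
  rcases hp with rfl | rfl | hp <;> rcases hq with rfl | rfl | hq
  · omega
  · rw [put2_h, put2_l hh hne] at h
    exact Or.inr (Or.inl ⟨rfl, rfl, by omega⟩)
  · rw [put2_h, put2_of_mem hh hl hne hq] at h
    have := hB q hq
    exact Or.inr (Or.inr (Or.inl ⟨rfl, hq, h, by omega⟩))
  · rw [put2_h, put2_l hh hne] at h
    omega
  · omega
  · rw [put2_l hh hne, put2_of_mem hh hl hne hq] at h
    have := hB q hq
    exact Or.inr (Or.inr (Or.inr ⟨rfl, hq, h, by omega⟩))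
  · rw [put2_h, put2_of_mem hh hl hne hp] at h
    have := hB p hp
    omega
  · rw [put2_l hh hne, put2_of_mem hh hl hne hp] at h
    have := hB p hp
    omega
  · rw [put2_of_mem hh hl hne hp, put2_of_mem hh hl hne hq] at h
    have := hB p hp
    exact Or.inl ⟨hp, hq, h, by omega⟩

theorem put2_valid (hs : Valid G k s) (hh : yh ∉ s.1) (hl : yl ∉ s.1) (ha : G.Adj yh yl)
    (hB : ∀ p ∈ s.1, s.2 p ≤ B) (hM : 2 * B + D0 + k < M) (hk : k ≤ D0) (hD0 : 0 < D0)
    (hnr : ¬ Realized G s D0)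
    (nc : ∀ p ∈ s.1, ∀ q ∈ s.1, s.2 p = s.2 q + D0 → ¬ (G.Adj yh p ∧ G.Adj yl q)) :
    Valid G k (put2 s yh yl M D0) := by
  have hne : yh ≠ yl := ha.ne
  have hM' : 2 * B + D0 < M := by omega
  refine ⟨?_, ?_, ?_⟩
  · intro p hp q hq h
    rw [mem_put2] at hp hq
    rcases hp with rfl | rfl | hp <;> rcases hq with rfl | rfl | hq
    · rfl
    · rw [put2_h, put2_l hh hne] at h
      omega
    · rw [put2_h, put2_of_mem hh hl hne hq] at h
      have := hB q hq
      omega
    · rw [put2_h, put2_l hh hne] at h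
      omega
    · rfl
    · rw [put2_l hh hne, put2_of_mem hh hl hne hq] at h
      have := hB q hq
      omega
    · rw [put2_h, put2_of_mem hh hl hne hp] at h
      have := hB p hp
      omega
    · rw [put2_l hh hne, put2_of_mem hh hl hne hp] at h
      have := hB p hp
      omega
    · rw [put2_of_mem hh hl hne hp, put2_of_mem hh hl hne hq] at h
      exact hs.inj p hp q hq h
  · intro p hp q hq ha D hD h
    rcases put2_pair hh hl hne hB hM' hp hq hD h with
      ⟨hp, hq, h, -⟩ | ⟨rfl, rfl, rfl⟩ | ⟨rfl, hq, h, h2⟩ | ⟨rfl, hq, h, h2⟩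
    · exact hs.big p hp q hq ha D hD h
    · exact hk
    · omega
    · omega
  · intro p hp q hq p' hp' q' hq' ha1 ha2 D hD h h'
    rcases put2_pair hh hl hne hB hM' hp hq hD h with
      ⟨ip, iq, i, h2⟩ | ⟨e1, e2, i⟩ | ⟨e1, iq, i, h2⟩ | ⟨e1, iq, i, h2⟩ <;>
    rcases put2_pair hh hl hne hB hM' hp' hq' hD h' with
      ⟨ip', iq', i', h2'⟩ | ⟨e1', e2', i'⟩ | ⟨e1', iq', i', h2'⟩ | ⟨e1', iq', i', h2'⟩
    · exact hs.uni p ip q iq p' ip' q' iq' ha1 ha2 D hD i i'
    · exact absurd ⟨p, ip, q, iq, ha1, by rw [i, i']⟩ hnr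
    · omega
    · omega
    · exact absurd ⟨p', ip', q', iq', ha2, by rw [i', i]⟩ hnr
    · exact ⟨e1.trans e1'.symm, e2.trans e2'.symm⟩
    · omega
    · omega
    · omega
    · omega
    · exact ⟨e1.trans e1'.symm, hs.inj q iq q' iq' (by omega)⟩
    · exact absurd ⟨e1 ▸ ha1, e1' ▸ ha2⟩ (nc q iq q' iq' (by omega))
    · omega
    · omega
    · exact absurd ⟨e1' ▸ ha2, e1 ▸ ha1⟩ (nc q' iq' q iq (by omega))
    · exact ⟨e1.trans e1'.symm, hs.inj q iq q' iq' (by omega)⟩


/-- not isolated -/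
def NI (G : SimpleGraph V) (p : V) : Prop := ∃ w, G.Adj p w

def SS (a b : V → Prop) (s : St V) (D : ℕ) : Prop :=
  ∀ p ∈ s.1, ∀ q ∈ s.1, s.2 p = s.2 q + D → ¬ (a p ∧ b q)

def UU (G : SimpleGraph V) (s : St V) (D : ℕ) : Prop :=
  ∀ p ∈ s.1, ∀ q ∈ s.1, ∀ p' ∈ s.1, ∀ q' ∈ s.1, s.2 p = s.2 q + D → s.2 p' = s.2 q' + D →
    NI G p → NI G q → NI G p' → NI G q' → p = p' ∧ q = q'

def Inv (G : SimpleGraph V) (a b : V → Prop) (s : St V) : Prop :=
  ∀ D, 0 < D → Realized G s D ∨ SS a b s D ∨ SS b a s D ∨ UU G s D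

variable {a b : V → Prop}

theorem put_inv (hval : Valid G k s) (hs : Inv G a b s) {v : V} (hv : v ∉ s.1) {N : ℕ}
    (hB : ∀ p ∈ s.1, s.2 p ≤ B) (hN : 2 * B < N) : Inv G a b (put s v N) := by
  intro D hD
  by_cases hDB : D ≤ B
  · rcases hs D hD with h | h | h | h
    · exact Or.inl (h.mono (put_ext s v hv N))
    · right; left
      intro p hp q hq e
      rcases put_pair hv hB hN hp hq hD e with ⟨ip, iq, i, _⟩ | ⟨_, _, _, i⟩
      · exact h p ip q iq i
      · omega
    · right; right; left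
      intro p hp q hq e
      rcases put_pair hv hB hN hp hq hD e with ⟨ip, iq, i, _⟩ | ⟨_, _, _, i⟩
      · exact h p ip q iq i
      · omega
    · right; right; right
      intro p hp q hq p' hp' q' hq' e e' n1 n2 n3 n4
      rcases put_pair hv hB hN hp hq hD e with ⟨ip, iq, i, _⟩ | ⟨_, _, _, i⟩
      · rcases put_pair hv hB hN hp' hq' hD e' with ⟨ip', iq', i', _⟩ | ⟨_, _, _, i'⟩
        · exact h p ip q iq p' ip' q' iq' i i' n1 n2 n3 n4
        · omega
      · omega
  · right; right; right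
    intro p hp q hq p' hp' q' hq' e e' n1 n2 n3 n4
    rcases put_pair hv hB hN hp hq hD e with ⟨_, _, _, i⟩ | ⟨e1, iq, i, _⟩
    · omega
    · rcases put_pair hv hB hN hp' hq' hD e' with ⟨_, _, _, i'⟩ | ⟨e1', iq', i', _⟩
      · omega
      · exact ⟨e1.trans e1'.symm, hval.inj q iq q' iq' (by omega)⟩

/-- placing an isolated vertex anywhere preserves the invariant -/
theorem put_iso_inv (hs : Inv G a b s) {v : V} (hv : v ∉ s.1) {N : ℕ}
    (hni : ¬ NI G v) (ha : ¬ a v) (hb : ¬ b v) : Inv G a b (put s v N) := by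
  intro D hD
  have key : ∀ p ∈ (put s v N).1, p ≠ v → p ∈ s.1 ∧ (put s v N).2 p = s.2 p := by
    intro p hp hpv
    rw [mem_put] at hp
    rcases hp with h | h
    · exact absurd h hpv
    · exact ⟨h, put_of_mem hv h⟩
  rcases hs D hD with h | h | h | h
  · exact Or.inl (h.mono (put_ext s v hv N))
  · right; left
    intro p hp q hq e hab
    have h1 : p ≠ v := fun h => ha (h ▸ hab.1)
    have h2 : q ≠ v := fun h => hb (h ▸ hab.2)
    obtain ⟨ip, ep⟩ := key p hp h1
    obtain ⟨iq, eq⟩ := key q hq h2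
    exact h p ip q iq (by rw [← ep, ← eq, e]) hab
  · right; right; left
    intro p hp q hq e hab
    have h1 : p ≠ v := fun h => hb (h ▸ hab.1)
    have h2 : q ≠ v := fun h => ha (h ▸ hab.2)
    obtain ⟨ip, ep⟩ := key p hp h1
    obtain ⟨iq, eq⟩ := key q hq h2
    exact h p ip q iq (by rw [← ep, ← eq, e]) hab
  · right; right; right
    intro p hp q hq p' hp' q' hq' e e' n1 n2 n3 n4
    obtain ⟨ip, ep⟩ := key p hp (fun h => hni (h ▸ n1))
    obtain ⟨iq, eq⟩ := key q hq (fun h => hni (h ▸ n2))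
    obtain ⟨ip', ep'⟩ := key p' hp' (fun h => hni (h ▸ n3))
    obtain ⟨iq', eq'⟩ := key q' hq' (fun h => hni (h ▸ n4))
    exact h p ip q iq p' ip' q' iq' (by rw [← ep, ← eq, e]) (by rw [← ep', ← eq', e'])
      n1 n2 n3 n4

theorem put2_inv (hval : Valid G k s) (hs : Inv G a b s) (hh : yh ∉ s.1) (hl : yl ∉ s.1)
    (hadj : G.Adj yh yl) (hB : ∀ p ∈ s.1, s.2 p ≤ B) (hM : 2 * B + D0 + k < M)
    (hinv : ∀ p ∈ s.1, ∀ q ∈ s.1, s.2 p = s.2 q + D0 → ¬ G.Adj yh p → ¬ G.Adj yl q →
      (¬ (a yh ∧ b p) ∧ ¬ (a yl ∧ b q)) ∨ (¬ (b yh ∧ a p) ∧ ¬ (b yl ∧ a q)) ∨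
        ¬ NI G p ∨ ¬ NI G q) :
    Inv G a b (put2 s yh yl M D0) := by
  have hne : yh ≠ yl := hadj.ne
  have hM' : 2 * B + D0 < M := by omega
  intro D hD
  have hE : Ext s (put2 s yh yl M D0) := put2_ext hh hl hne
  have mh : yh ∈ (put2 s yh yl M D0).1 := mem_put2.2 (Or.inl rfl)
  have ml : yl ∈ (put2 s yh yl M D0).1 := mem_put2.2 (Or.inr (Or.inl rfl))
  by_cases hDD : D = D0
  · left
    exact ⟨yh, mh, yl, ml, hadj, by rw [put2_h, put2_l hh hne, hDD]⟩
  by_cases hDB : D ≤ B
  · have old : ∀ p ∈ (put2 s yh yl M D0).1, ∀ q ∈ (put2 s yh yl M D0).1,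
        (put2 s yh yl M D0).2 p = (put2 s yh yl M D0).2 q + D →
        p ∈ s.1 ∧ q ∈ s.1 ∧ s.2 p = s.2 q + D := by
      intro p hp q hq e
      rcases put2_pair hh hl hne hB hM' hp hq hD e with
        ⟨ip, iq, i, h2⟩ | ⟨e1, e2, i⟩ | ⟨e1, iq, i, h2⟩ | ⟨e1, iq, i, h2⟩
      · exact ⟨ip, iq, i⟩
      · exact absurd i hDD
      · omega
      · omega
    rcases hs D hD with h | h | h | h
    · exact Or.inl (h.mono hE)
    · right; left
      intro p hp q hq e
      obtain ⟨ip, iq, i⟩ := old p hp q hq e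
      exact h p ip q iq i
    · right; right; left
      intro p hp q hq e
      obtain ⟨ip, iq, i⟩ := old p hp q hq e
      exact h p ip q iq i
    · right; right; right
      intro p hp q hq p' hp' q' hq' e e' n1 n2 n3 n4
      obtain ⟨ip, iq, i⟩ := old p hp q hq e
      obtain ⟨ip', iq', i'⟩ := old p' hp' q' hq' e'
      exact h p ip q iq p' ip' q' iq' i i' n1 n2 n3 n4
  · have new : ∀ p ∈ (put2 s yh yl M D0).1, ∀ q ∈ (put2 s yh yl M D0).1,
        (put2 s yh yl M D0).2 p = (put2 s yh yl M D0).2 q + D →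
        (p = yh ∧ q ∈ s.1 ∧ M + D0 = s.2 q + D) ∨ (p = yl ∧ q ∈ s.1 ∧ M = s.2 q + D) := by
      intro p hp q hq e
      rcases put2_pair hh hl hne hB hM' hp hq hD e with
        ⟨ip, iq, i, h2⟩ | ⟨e1, e2, i⟩ | ⟨e1, iq, i, h2⟩ | ⟨e1, iq, i, h2⟩
      · omega
      · exact absurd i hDD
      · exact Or.inl ⟨e1, iq, i⟩
      · exact Or.inr ⟨e1, iq, i⟩
    by_cases h3 : ∃ p ∈ s.1, M + D0 = s.2 p + D ∧ NI G p
    · obtain ⟨p, hp, ep, np⟩ := h3
      by_cases h4 : ∃ q ∈ s.1, M = s.2 q + D ∧ NI G q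
      · obtain ⟨q, hq, eq, nq⟩ := h4
        have epq : s.2 p = s.2 q + D0 := by omega
        have up : ∀ p' ∈ s.1, M + D0 = s.2 p' + D → p' = p := fun p' hp' e =>
          hval.inj p' hp' p hp (by omega)
        have uq : ∀ q' ∈ s.1, M = s.2 q' + D → q' = q := fun q' hq' e =>
          hval.inj q' hq' q hq (by omega)
        by_cases hap : G.Adj yh p
        · left
          exact ⟨yh, mh, p, hE.1 hp, hap, by rw [put2_h, put2_of_mem hh hl hne hp]; omega⟩
        by_cases haq : G.Adj yl q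
        · left
          exact ⟨yl, ml, q, hE.1 hq, haq, by
            rw [put2_l hh hne, put2_of_mem hh hl hne hq]; omega⟩
        rcases hinv p hp q hq epq hap haq with ⟨i1, i2⟩ | ⟨i1, i2⟩ | i | i
        · right; left
          intro x hx y hy e hxy
          rcases new x hx y hy e with ⟨rfl, iy, e'⟩ | ⟨rfl, iy, e'⟩
          · rw [up y iy e'] at hxy; exact i1 hxy
          · rw [uq y iy e'] at hxy; exact i2 hxy
        · right; right; left
          intro x hx y hy e hxy
          rcases new x hx y hy e with ⟨rfl, iy, e'⟩ | ⟨rfl, iy, e'⟩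
          · rw [up y iy e'] at hxy; exact i1 hxy
          · rw [uq y iy e'] at hxy; exact i2 hxy
        · exact absurd np i
        · exact absurd nq i
      · right; right; right
        intro x hx y hy x' hx' y' hy' e e' n1 n2 n3 n4
        rcases new x hx y hy e with ⟨e1, iy, e2⟩ | ⟨e1, iy, e2⟩
        · rcases new x' hx' y' hy' e' with ⟨e1', iy', e2'⟩ | ⟨e1', iy', e2'⟩
          · exact ⟨e1.trans e1'.symm, hval.inj y iy y' iy' (by omega)⟩
          · exact absurd ⟨y', iy', e2', n4⟩ h4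
        · exact absurd ⟨y, iy, e2, n2⟩ h4
    · right; right; right
      intro x hx y hy x' hx' y' hy' e e' n1 n2 n3 n4
      rcases new x hx y hy e with ⟨e1, iy, e2⟩ | ⟨e1, iy, e2⟩
      · exact absurd ⟨y, iy, e2, n2⟩ h3
      · rcases new x' hx' y' hy' e' with ⟨e1', iy', e2'⟩ | ⟨e1', iy', e2'⟩
        · exact absurd ⟨y', iy', e2', n4⟩ h3
        · exact ⟨e1.trans e1'.symm, hval.inj y iy y' iy' (by omega)⟩

end ext

/-- types -/
structure Typ (G : SimpleGraph V) (α β : Ultrafilter V) : Prop where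
  edge : ∀ A ∈ α, ∀ B ∈ β, ∀ F : Finset V, ∃ u ∈ A, ∃ v ∈ B, u ∉ F ∧ v ∉ F ∧ G.Adj u v
  hh : α = β ∨ {u | G.neighborSet u ∉ α} ∈ α

theorem edges_outside {G : SimpleGraph V} (hG : InfiniteMatching G) (F : Finset V) :
    ∃ u v, u ∉ F ∧ v ∉ F ∧ G.Adj u v := by
  obtain ⟨M, hinf, hMG, hdis⟩ := hG
  have hfin : (⋃ v ∈ F, {e | e ∈ M ∧ v ∈ e}).Finite := by
    refine Set.Finite.biUnion F.finite_toSet fun v _ => Set.Subsingleton.finite ?_
    intro e he e' he'
    by_contra hne
    exact hdis e he.1 e' he'.1 hne v he.2 he'.2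
  obtain ⟨e, heM, he⟩ := (hinf.sdiff hfin).nonempty
  induction e using Sym2.ind with
  | _ u v =>
    refine ⟨u, v, fun hu => he ?_, fun hv => he ?_, hMG heM⟩
    · simp only [Set.mem_iUnion]
      exact ⟨u, hu, heM, Sym2.mem_mk_left u v⟩
    · simp only [Set.mem_iUnion]
      exact ⟨v, hv, heM, Sym2.mem_mk_right u v⟩

theorem exists_typ {G : SimpleGraph V} (hG : InfiniteMatching G) :
    ∃ α β : Ultrafilter V, Typ G α β := by
  classical
  let E : Finset V → Set (V × V) := fun F => {w | w.1 ∉ F ∧ w.2 ∉ F ∧ G.Adj w.1 w.2}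
  have hmono : ∀ F F' : Finset V, F ⊆ F' → E F' ⊆ E F := fun F F' h w hw =>
    ⟨fun h' => hw.1 (h h'), fun h' => hw.2.1 (h h'), hw.2.2⟩
  have : Nonempty V := by
    obtain ⟨u, v, h⟩ := edges_outside hG ∅
    exact ⟨u⟩
  have hne : (⨅ F : Finset V, 𝓟 (E F)).NeBot := by
    refine Filter.iInf_neBot_of_directed ?_ ?_
    · intro F F'
      refine ⟨F ∪ F', ?_, ?_⟩
      · exact Filter.principal_mono.2 (hmono _ _ Finset.subset_union_left)
      · exact Filter.principal_mono.2 (hmono _ _ Finset.subset_union_right)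
    · intro F
      rw [Filter.principal_neBot_iff]
      obtain ⟨u, v, h⟩ := edges_outside hG F
      exact ⟨(u, v), h⟩
  let W : Ultrafilter (V × V) := Ultrafilter.of (⨅ F : Finset V, 𝓟 (E F))
  have hW : ∀ F, E F ∈ W := fun F =>
    (Ultrafilter.of_le _) (Filter.mem_iInf_of_mem F (Filter.mem_principal_self _))
  let α : Ultrafilter V := W.map Prod.fst
  let β : Ultrafilter V := W.map Prod.snd
  have hαF : ∀ F : Finset V, {u | u ∉ F} ∈ α := by
    intro F
    show Prod.fst ⁻¹' {u | u ∉ F} ∈ W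
    exact Filter.mem_of_superset (hW F) fun w hw => hw.1
  by_cases hc : {u | G.neighborSet u ∉ α} ∈ α
  · refine ⟨α, β, ?_, Or.inr hc⟩
    intro A hA B hB F
    have h1 : Prod.fst ⁻¹' A ∈ W := hA
    have h2 : Prod.snd ⁻¹' B ∈ W := hB
    obtain ⟨w, ⟨hw1, hw2⟩, hw3⟩ := W.nonempty_of_mem
      (Filter.inter_mem (Filter.inter_mem h1 h2) (hW F))
    exact ⟨w.1, hw1, w.2, hw2, hw3.1, hw3.2.1, hw3.2.2⟩
  · refine ⟨α, α, ?_, Or.inl rfl⟩
    have hc' : {u | G.neighborSet u ∈ α} ∈ α := by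
      have := Ultrafilter.compl_mem_iff_notMem.2 hc
      convert this using 1
      ext u; simp
    intro A hA B hB F
    obtain ⟨u, ⟨hu1, hu2⟩, hu3⟩ := α.nonempty_of_mem
      (Filter.inter_mem (Filter.inter_mem hA hc') (hαF F))
    obtain ⟨v, ⟨hv1, hv2⟩, hv3⟩ := α.nonempty_of_mem
      (Filter.inter_mem (Filter.inter_mem hB hu2) (hαF F))
    exact ⟨u, hu1, v, hv1, hu3, hv3, hv2⟩

theorem typical {G : SimpleGraph V} (α : Ultrafilter V) (P : Finset V) :
    {u | ∀ p ∈ P, (G.Adj u p ↔ G.neighborSet p ∈ α)} ∈ α := by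
  classical
  have : {u | ∀ p ∈ P, (G.Adj u p ↔ G.neighborSet p ∈ α)} =
      ⋂ p ∈ P, {u | G.Adj u p ↔ G.neighborSet p ∈ α} := by
    ext u; simp
  rw [this]
  refine (Filter.biInter_finset_mem P).2 fun p _ => ?_
  by_cases h : G.neighborSet p ∈ α
  · refine Filter.mem_of_superset h fun u hu => ?_
    exact ⟨fun _ => h, fun _ => (show G.Adj p u from hu).symm⟩
  · refine Filter.mem_of_superset (Ultrafilter.compl_mem_iff_notMem.2 h) fun u hu => ?_
    exact ⟨fun h' => absurd h'.symm hu, fun h' => absurd h' h⟩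

theorem ni_of {G : SimpleGraph V} {α : Ultrafilter V} {p : V} (h : G.neighborSet p ∈ α) :
    NI G p := by
  obtain ⟨w, hw⟩ := α.nonempty_of_mem h
  exact ⟨w, hw⟩

/-- the star condition at a state -/
theorem realise [DecidableEq V] {G : SimpleGraph V} {α β : Ultrafilter V} (hT : Typ G α β)
    {k D0 : ℕ} (hk : k ≤ D0) (hD0 : 0 < D0) (s : St V)
    (hstar : ∀ x ∈ s.1, ∀ y ∈ s.1, s.2 x = s.2 y + D0 → AlmostDom G x → AlmostDom G y →
      x ≠ y → ¬ G.Adj x y → Realized G s D0) (hs : Valid G k s)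
    (hi : Inv G (fun p => G.neighborSet p ∈ α) (fun p => G.neighborSet p ∈ β) s) :
    ∃ t, (Valid G k t ∧ Inv G (fun p => G.neighborSet p ∈ α)
      (fun p => G.neighborSet p ∈ β) t) ∧ Ext s t ∧ Realized G t D0 ∧
      ((∀ v, v ∈ t.1 ↔ v ∈ s.1) ∨ ∃ yh yl, yh ∉ s.1 ∧ yl ∉ s.1 ∧ G.Adj yh yl ∧
        ∀ v, v ∈ t.1 ↔ v = yh ∨ v = yl ∨ v ∈ s.1) := by
  by_cases hnr : Realized G s D0
  · exact ⟨s, ⟨hs, hi⟩, Ext.refl s, hnr, Or.inl fun v => Iff.rfl⟩
  obtain ⟨B, hB⟩ := exists_bound s
  -- it is enough to find suitable yh, yl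
  suffices H : ∃ yh yl, yh ∉ s.1 ∧ yl ∉ s.1 ∧ G.Adj yh yl ∧
      (∀ p ∈ s.1, ∀ q ∈ s.1, s.2 p = s.2 q + D0 → ¬ (G.Adj yh p ∧ G.Adj yl q)) ∧
      (∀ p ∈ s.1, ∀ q ∈ s.1, s.2 p = s.2 q + D0 → ¬ G.Adj yh p → ¬ G.Adj yl q →
        (¬ (G.neighborSet yh ∈ α ∧ G.neighborSet p ∈ β) ∧
          ¬ (G.neighborSet yl ∈ α ∧ G.neighborSet q ∈ β)) ∨
        (¬ (G.neighborSet yh ∈ β ∧ G.neighborSet p ∈ α) ∧
          ¬ (G.neighborSet yl ∈ β ∧ G.neighborSet q ∈ α)) ∨ ¬ NI G p ∨ ¬ NI G q) by
    obtain ⟨yh, yl, hh, hl, ha, nc, hinv⟩ := H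
    have hM : 2 * B + D0 + k < 2 * B + D0 + k + 1 := Nat.lt_succ_self _
    refine ⟨put2 s yh yl (2 * B + D0 + k + 1) D0, ⟨?_, ?_⟩, put2_ext hh hl ha.ne, ?_, ?_⟩
    · exact put2_valid hs hh hl ha hB hM hk hD0 hnr nc
    · exact put2_inv hs hi hh hl ha hB hM hinv
    · exact ⟨yh, mem_put2.2 (Or.inl rfl), yl, mem_put2.2 (Or.inr (Or.inl rfl)), ha, by
        rw [put2_h, put2_l hh ha.ne]⟩
    · exact Or.inr ⟨yh, yl, hh, hl, ha, fun v => mem_put2⟩
  have tα := typical (G := G) α s.1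
  have tβ := typical (G := G) β s.1
  by_cases h1 : SS (fun p => G.neighborSet p ∈ α) (fun p => G.neighborSet p ∈ β) s D0
  · rcases hT.hh with hαβ | hhh
    · subst hαβ
      obtain ⟨u, hu, v, hv, huF, hvF, huv⟩ := hT.edge _ tα _ tα s.1
      refine ⟨u, v, huF, hvF, huv, ?_, ?_⟩
      · intro p hp q hq e hpq
        exact h1 p hp q hq e ⟨(hu p hp).1 hpq.1, (hv q hq).1 hpq.2⟩
      · intro p hp q hq e n1 n2
        left
        exact ⟨fun h => n1 ((hu p hp).2 h.2), fun h => n2 ((hv q hq).2 h.2)⟩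
    · obtain ⟨u, hu, v, hv, huF, hvF, huv⟩ := hT.edge _ (Filter.inter_mem tα hhh) _ tβ s.1
      refine ⟨u, v, huF, hvF, huv, ?_, ?_⟩
      · intro p hp q hq e hpq
        exact h1 p hp q hq e ⟨(hu.1 p hp).1 hpq.1, (hv q hq).1 hpq.2⟩
      · intro p hp q hq e n1 n2
        left
        exact ⟨fun h => hu.2 h.1, fun h => n2 ((hv q hq).2 h.2)⟩
  by_cases h2 : SS (fun p => G.neighborSet p ∈ β) (fun p => G.neighborSet p ∈ α) s D0
  · rcases hT.hh with hαβ | hhh
    · subst hαβ
      exact absurd h2 h1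
    · obtain ⟨u, hu, v, hv, huF, hvF, huv⟩ := hT.edge _ (Filter.inter_mem tα hhh) _ tβ s.1
      refine ⟨v, u, hvF, huF, huv.symm, ?_, ?_⟩
      · intro p hp q hq e hpq
        exact h2 p hp q hq e ⟨(hv p hp).1 hpq.1, (hu.1 q hq).1 hpq.2⟩
      · intro p hp q hq e n1 n2
        left
        exact ⟨fun h => n1 ((hv p hp).2 h.2), fun h => hu.2 h.1⟩
  have h3 : UU G s D0 := by
    rcases hi D0 hD0 with h | h | h | h
    · exact absurd h hnr
    · exact absurd h h1
    · exact absurd h h2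
    · exact h
  -- the unique pair
  unfold SS at h1 h2
  push Not at h1 h2
  obtain ⟨x, hx, q, hq, exq, hax, hbq⟩ := h1
  obtain ⟨x', hx', q', hq', exq', hbx, haq⟩ := h2
  have hNx : NI G x := ni_of hax
  have hNq : NI G q := ni_of hbq
  obtain ⟨rfl, rfl⟩ := h3 x hx q hq x' hx' q' hq' exq exq' hNx hNq (ni_of hbx) (ni_of haq)
  have uniq : ∀ p ∈ s.1, ∀ r ∈ s.1, s.2 p = s.2 r + D0 → (p = x ∧ r = q) ∨ ¬ NI G p ∨
      ¬ NI G r := by
    intro p hp r hr e
    by_cases hp1 : NI G p
    · by_cases hr1 : NI G r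
      · left
        exact h3 p hp r hr x hx q hq e exq hp1 hr1 hNx hNq
      · exact Or.inr (Or.inr hr1)
    · exact Or.inr (Or.inl hp1)
  have hxq : ¬ G.Adj x q := fun h => hnr ⟨x, hx, q, hq, h, exq⟩
  have hxq' : x ≠ q := by
    rintro rfl; omega
  -- a typical neighbour of a vertex
  have typnb : ∀ y, (G.neighborSet y ∈ α ∨ G.neighborSet y ∈ β) →
      ∃ w, w ∉ s.1 ∧ G.Adj y w ∧ G.Adj w x ∧ G.Adj w q := by
    rintro y (hy | hy)
    · obtain ⟨u, ⟨⟨hu1, hu2⟩, hu3⟩, v, -, huF, -, -⟩ := hT.edge _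
        (Filter.inter_mem (Filter.inter_mem hy hax) haq) Set.univ Filter.univ_mem s.1
      exact ⟨u, huF, hu1, (show G.Adj x u from hu2).symm, (show G.Adj q u from hu3).symm⟩
    · obtain ⟨u, -, v, ⟨⟨hu1, hu2⟩, hu3⟩, -, huF, -⟩ := hT.edge Set.univ Filter.univ_mem _
        (Filter.inter_mem (Filter.inter_mem hy hbx) hbq) s.1
      exact ⟨v, huF, hu1, (show G.Adj x v from hu2).symm, (show G.Adj q v from hu3).symm⟩
  by_cases c1 : ∃ y, y ∉ s.1 ∧ ¬ G.Adj y x ∧ (G.neighborSet y ∈ α ∨ G.neighborSet y ∈ β)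
  · obtain ⟨y, hyF, hyx, hy⟩ := c1
    obtain ⟨w, hwF, hyw, hwx, hwq⟩ := typnb y hy
    refine ⟨y, w, hyF, hwF, hyw, ?_, ?_⟩
    · intro p hp r hr e hpr
      rcases uniq p hp r hr e with ⟨rfl, rfl⟩ | h | h
      · exact hyx hpr.1
      · exact h ⟨y, hpr.1.symm⟩
      · exact h ⟨w, hpr.2.symm⟩
    · intro p hp r hr e n1 n2
      rcases uniq p hp r hr e with ⟨rfl, rfl⟩ | h | h
      · exact absurd hwq n2
      · exact Or.inr (Or.inr (Or.inl h))
      · exact Or.inr (Or.inr (Or.inr h))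
  by_cases c2 : ∃ y, y ∉ s.1 ∧ ¬ G.Adj y q ∧ (G.neighborSet y ∈ α ∨ G.neighborSet y ∈ β)
  · obtain ⟨y, hyF, hyq, hy⟩ := c2
    obtain ⟨w, hwF, hyw, hwx, hwq⟩ := typnb y hy
    refine ⟨w, y, hwF, hyF, hyw.symm, ?_, ?_⟩
    · intro p hp r hr e hpr
      rcases uniq p hp r hr e with ⟨rfl, rfl⟩ | h | h
      · exact hyq hpr.2
      · exact h ⟨w, hpr.1.symm⟩
      · exact h ⟨y, hpr.2.symm⟩
    · intro p hp r hr e n1 n2
      rcases uniq p hp r hr e with ⟨rfl, rfl⟩ | h | h
      · exact absurd hwx n1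
      · exact Or.inr (Or.inr (Or.inl h))
      · exact Or.inr (Or.inr (Or.inr h))
  push Not at c1 c2
  -- an edge outside the state, one end of which is not adjacent to x or to q
  have key : ∃ y y', y ∉ s.1 ∧ y' ∉ s.1 ∧ G.Adj y y' ∧ (¬ G.Adj y x ∨ ¬ G.Adj y q) := by
    by_contra hcon
    push Not at hcon
    exact hnr (hstar x hx q hq exq ⟨s.1, fun u v hu hv huv => (hcon u v hu hv huv).1.symm⟩
      ⟨s.1, fun u v hu hv huv => (hcon u v hu hv huv).2.symm⟩ hxq' hxq)
  have tail : ∀ yh yl, yh ∉ s.1 → yl ∉ s.1 → ∀ p ∈ s.1, ∀ r ∈ s.1, s.2 p = s.2 r + D0 →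
      ¬ G.Adj yh p → ¬ G.Adj yl r →
        (¬ (G.neighborSet yh ∈ α ∧ G.neighborSet p ∈ β) ∧
          ¬ (G.neighborSet yl ∈ α ∧ G.neighborSet r ∈ β)) ∨
        (¬ (G.neighborSet yh ∈ β ∧ G.neighborSet p ∈ α) ∧
          ¬ (G.neighborSet yl ∈ β ∧ G.neighborSet r ∈ α)) ∨ ¬ NI G p ∨ ¬ NI G r := by
    intro yh yl hh hl p hp r hr e n1 n2
    rcases uniq p hp r hr e with ⟨rfl, rfl⟩ | h | h
    · left
      exact ⟨fun h => (c1 yh hh n1).1 h.1, fun h => (c2 yl hl n2).1 h.1⟩
    · exact Or.inr (Or.inr (Or.inl h))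
    · exact Or.inr (Or.inr (Or.inr h))
  obtain ⟨y, y', hyF, hyF', hyy, hor⟩ := key
  rcases hor with hor | hor
  · refine ⟨y, y', hyF, hyF', hyy, ?_, tail y y' hyF hyF'⟩
    intro p hp r hr e hpr
    rcases uniq p hp r hr e with ⟨rfl, rfl⟩ | h | h
    · exact hor hpr.1
    · exact h ⟨y, hpr.1.symm⟩
    · exact h ⟨y', hpr.2.symm⟩
  · refine ⟨y', y, hyF', hyF, hyy.symm, ?_, tail y' y hyF' hyF⟩
    intro p hp r hr e hpr
    rcases uniq p hp r hr e with ⟨rfl, rfl⟩ | h | h
    · exact hor hpr.2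
    · exact h ⟨y', hpr.1.symm⟩
    · exact h ⟨y, hpr.2.symm⟩


/-- the empty state -/
def st0 : St V := (∅, fun _ => 0)

theorem valid0 (G : SimpleGraph V) (k : ℕ) : Valid G k (st0 : St V) :=
  ⟨fun p hp => absurd hp (Finset.notMem_empty p), fun p hp => absurd hp (Finset.notMem_empty p),
    fun p hp => absurd hp (Finset.notMem_empty p)⟩

theorem inv0 (G : SimpleGraph V) (a b : V → Prop) : Inv G a b (st0 : St V) :=
  fun _ _ => Or.inr (Or.inl fun p hp => absurd hp (Finset.notMem_empty p))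


theorem Bad.symm {G : SimpleGraph V} {x y : V} (h : Bad G x y) : Bad G y x :=
  ⟨h.2.1, h.1, h.2.2.1.symm, fun h' => h.2.2.2 h'.symm⟩

/-- all bad pairs in the domain have a label that is used -/
def BadReal (G : SimpleGraph V) (s : St V) : Prop :=
  ∀ x ∈ s.1, ∀ y ∈ s.1, Bad G x y → ∀ D, s.2 x = s.2 y + D → Realized G s D

section general

variable [DecidableEq V] {G : SimpleGraph V} {k : ℕ} {s : St V} {a b : V → Prop}

theorem putg_pair {v : V} (hv : v ∉ s.1) {T : ℕ} (hT : ∀ p ∈ s.1, s.2 p < T) {p q : V}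
    (hp : p ∈ (put s v T).1) (hq : q ∈ (put s v T).1) {D : ℕ}
    (hD : 0 < D) (h : (put s v T).2 p = (put s v T).2 q + D) :
    (p ∈ s.1 ∧ q ∈ s.1 ∧ s.2 p = s.2 q + D) ∨ (p = v ∧ q ∈ s.1 ∧ T = s.2 q + D) := by
  rw [mem_put] at hp hq
  rcases hp with rfl | hp <;> rcases hq with rfl | hq
  · omega
  · right
    rw [put_self, put_of_mem hv hq] at h
    exact ⟨rfl, hq, h⟩
  · rw [put_self, put_of_mem hv hp] at h
    have := hT p hp
    omega
  · left
    rw [put_of_mem hv hp, put_of_mem hv hq] at h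
    exact ⟨hp, hq, h⟩

theorem putg_valid (hs : Valid G k s) {v : V} (hv : v ∉ s.1) {T : ℕ}
    (hT : ∀ p ∈ s.1, s.2 p < T)
    (c1 : ∀ p ∈ s.1, G.Adj v p → k ≤ T - s.2 p ∧ ¬ Realized G s (T - s.2 p)) :
    Valid G k (put s v T) := by
  refine ⟨?_, ?_, ?_⟩
  · intro p hp q hq h
    rw [mem_put] at hp hq
    rcases hp with rfl | hp <;> rcases hq with rfl | hq
    · rfl
    · rw [put_self, put_of_mem hv hq] at h
      have := hT q hq
      omega
    · rw [put_self, put_of_mem hv hp] at h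
      have := hT p hp
      omega
    · rw [put_of_mem hv hp, put_of_mem hv hq] at h
      exact hs.inj p hp q hq h
  · intro p hp q hq ha D hD h
    rcases putg_pair hv hT hp hq hD h with ⟨ip, iq, i⟩ | ⟨e1, iq, i⟩
    · exact hs.big p ip q iq ha D hD i
    · have := (c1 q iq (e1 ▸ ha)).1
      omega
  · intro p hp q hq p' hp' q' hq' ha ha' D hD h h'
    rcases putg_pair hv hT hp hq hD h with ⟨ip, iq, i⟩ | ⟨e1, iq, i⟩ <;>
    rcases putg_pair hv hT hp' hq' hD h' with ⟨ip', iq', i'⟩ | ⟨e1', iq', i'⟩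
    · exact hs.uni p ip q iq p' ip' q' iq' ha ha' D hD i i'
    · exfalso
      refine (c1 q' iq' (e1' ▸ ha')).2 ⟨p, ip, q, iq, ha, ?_⟩
      omega
    · exfalso
      refine (c1 q iq (e1 ▸ ha)).2 ⟨p', ip', q', iq', ha', ?_⟩
      omega
    · exact ⟨e1.trans e1'.symm, hs.inj q iq q' iq' (by omega)⟩

theorem putg_inv (hval : Valid G k s) (hs : Inv G a b s) {v : V} (hv : v ∉ s.1) {T : ℕ}
    (hT : ∀ p ∈ s.1, s.2 p < T)
    (c2 : ∀ p ∈ s.1, (∃ q ∈ s.1, ∃ r ∈ s.1, s.2 q = s.2 r + (T - s.2 p)) →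
      G.Adj v p ∨ Realized G s (T - s.2 p)) :
    Inv G a b (put s v T) := by
  intro D hD
  have hE := put_ext s v hv T
  by_cases h1 : ∃ q ∈ s.1, T = s.2 q + D
  · obtain ⟨q, hq, eq⟩ := h1
    have hTD : T - s.2 q = D := by omega
    by_cases h2 : ∃ q' ∈ s.1, ∃ r ∈ s.1, s.2 q' = s.2 r + D
    · rcases c2 q hq (by rw [hTD]; exact h2) with h | h
      · left
        exact ⟨v, mem_put.2 (Or.inl rfl), q, hE.1 hq, h, by
          rw [put_self, put_of_mem hv hq, eq]⟩
      · rw [hTD] at h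
        exact Or.inl (h.mono hE)
    · right; right; right
      intro p hp r hr p' hp' r' hr' e e' n1 n2 n3 n4
      rcases putg_pair hv hT hp hr hD e with ⟨ip, ir, i⟩ | ⟨e1, ir, i⟩
      · exact absurd ⟨p, ip, r, ir, i⟩ h2
      · rcases putg_pair hv hT hp' hr' hD e' with ⟨ip', ir', i'⟩ | ⟨e1', ir', i'⟩
        · exact absurd ⟨p', ip', r', ir', i'⟩ h2
        · exact ⟨e1.trans e1'.symm, hval.inj r ir r' ir' (by omega)⟩
  · have old : ∀ p ∈ (put s v T).1, ∀ q ∈ (put s v T).1,
        (put s v T).2 p = (put s v T).2 q + D → p ∈ s.1 ∧ q ∈ s.1 ∧ s.2 p = s.2 q + D := by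
      intro p hp q hq e
      rcases putg_pair hv hT hp hq hD e with h | ⟨_, ir, i⟩
      · exact h
      · exact absurd ⟨q, ir, i⟩ h1
    rcases hs D hD with h | h | h | h
    · exact Or.inl (h.mono hE)
    · right; left
      intro p hp q hq e
      obtain ⟨ip, iq, i⟩ := old p hp q hq e
      exact h p ip q iq i
    · right; right; left
      intro p hp q hq e
      obtain ⟨ip, iq, i⟩ := old p hp q hq e
      exact h p ip q iq i
    · right; right; right
      intro p hp q hq p' hp' q' hq' e e' n1 n2 n3 n4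
      obtain ⟨ip, iq, i⟩ := old p hp q hq e
      obtain ⟨ip', iq', i'⟩ := old p' hp' q' hq' e'
      exact h p ip q iq p' ip' q' iq' i i' n1 n2 n3 n4

omit [DecidableEq V] in
theorem Realized.bound {D B : ℕ} (h : Realized G s D) (hB : ∀ p ∈ s.1, s.2 p ≤ B) : D ≤ B := by
  obtain ⟨p, hp, q, hq, -, e⟩ := h
  have := hB p hp
  omega

/-- a vertex adjacent to all almost dominating vertices of a finite set -/
theorem exists_helper (hG : InfiniteMatching G) (P : Finset V) :
    ∃ h, h ∉ P ∧ ∀ x ∈ P, AlmostDom G x → G.Adj h x := by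
  classical
  have : ∃ F : V → Finset V, ∀ x, AlmostDom G x →
      ∀ u v, u ∉ F x → v ∉ F x → G.Adj u v → G.Adj x u := by
    have h : ∀ x, ∃ F : Finset V, AlmostDom G x →
        ∀ u v, u ∉ F → v ∉ F → G.Adj u v → G.Adj x u := by
      intro x
      by_cases hx : AlmostDom G x
      · obtain ⟨F, hF⟩ := hx
        exact ⟨F, fun _ => hF⟩
      · exact ⟨∅, fun h => absurd h hx⟩
    choose F hF using h
    exact ⟨F, hF⟩
  obtain ⟨F, hF⟩ := this
  obtain ⟨u, v, hu, hv, huv⟩ := edges_outside hG (P ∪ P.biUnion F)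
  rw [Finset.mem_union, not_or, Finset.mem_biUnion] at hu hv
  push Not at hu hv
  exact ⟨u, hu.1, fun x hx hxA => (hF x hxA u v (hu.2 x hx) (hv.2 x hx) huv).symm⟩

/-- close the vertex `y` -/
theorem close (hG : InfiniteMatching G)
    (hm : ∀ x y y', Bad G x y → Bad G x y' → y = y')
    (hs : Valid G k s) (hi : Inv G a b s) (hb : BadReal G s) (y : V) (hy : y ∈ s.1) :
    ∃ t, Valid G k t ∧ Inv G a b t ∧ BadReal G t ∧ Ext s t ∧
      ∀ x ∈ t.1, (x = y ∨ x ∉ s.1) → ∀ w, Bad G x w → w ∈ t.1 := by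
  by_cases hop : ∃ w, Bad G y w ∧ w ∉ s.1
  swap
  · push Not at hop
    refine ⟨s, hs, hi, hb, Ext.refl s, ?_⟩
    rintro x hx (rfl | h) w hw
    · exact hop w hw
    · exact absurd hx h
  obtain ⟨y', hyy', hy's⟩ := hop
  obtain ⟨B, hB⟩ := exists_bound s
  have hyB := hB y hy
  obtain ⟨N, hN⟩ : ∃ N : ℕ, N = 4 * B + k + 1 := ⟨_, rfl⟩
  -- first the partner
  have T1 : ∀ p ∈ s.1, s.2 p < N := fun p hp => by have := hB p hp; omega
  have nR1 : ∀ D, B < D → ¬ Realized G s D := fun D hD h => by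
    have := h.bound hB; omega
  set s1 := put s y' N with hs1
  have E1 : Ext s s1 := put_ext s y' hy's N
  have v1 : Valid G k s1 := putg_valid hs hy's T1 (fun p hp _ => by
    have := hB p hp
    exact ⟨by omega, nR1 _ (by omega)⟩)
  have i1 : Inv G a b s1 := putg_inv hs hi hy's T1 (fun p hp h => by
    obtain ⟨q, hq, r, hr, e⟩ := h
    have := hB p hp; have := hB q hq
    omega)
  have m1 : ∀ w, w ∈ s1.1 ↔ w = y' ∨ w ∈ s.1 := fun w => mem_put
  have f1y' : s1.2 y' = N := put_self _ _ _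
  have f1 : ∀ p ∈ s.1, s1.2 p = s.2 p := fun p hp => E1.2 p hp
  have B1 : ∀ p ∈ s1.1, s1.2 p ≤ N := by
    intro p hp
    rcases (m1 p).1 hp with rfl | hp
    · rw [f1y']
    · rw [f1 p hp]; exact (T1 p hp).le
  -- the helper
  obtain ⟨h, hh, hadj⟩ := exists_helper hG s1.1
  have hhy' : G.Adj h y' := hadj y' ((m1 y').2 (Or.inl rfl)) hyy'.2.1
  have hhy : G.Adj h y := hadj y ((m1 y).2 (Or.inr hy)) hyy'.1
  obtain ⟨T, hT⟩ : ∃ T : ℕ, T = 2 * N - s.2 y := ⟨_, rfl⟩
  have T2 : ∀ p ∈ s1.1, s1.2 p < T := fun p hp => by have := B1 p hp; omega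
  have nR2 : ¬ Realized G s1 (N - s.2 y) := by
    rintro ⟨p, hp, q, hq, hpq, e⟩
    rcases putg_pair hy's T1 hp hq (by omega) e with ⟨ip, iq, i⟩ | ⟨e1, iq, i⟩
    · have := hB p ip; omega
    · have : q = y := hs.inj q iq y hy (by omega)
      rw [e1, this] at hpq
      exact hyy'.2.2.2 hpq.symm
  set s2 := put s1 h T with hs2
  have E2 : Ext s1 s2 := put_ext s1 h hh T
  have v2 : Valid G k s2 := putg_valid v1 hh T2 (fun p hp _ => by
    rcases (m1 p).1 hp with rfl | hp'
    · rw [f1y']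
      have : T - N = N - s.2 y := by omega
      rw [this]
      exact ⟨by omega, nR2⟩
    · rw [f1 p hp']
      have := hB p hp'
      refine ⟨by omega, fun hR => ?_⟩
      have := hR.bound B1
      omega)
  have i2 : Inv G a b s2 := putg_inv v1 i1 hh T2 (fun p hp hex => by
    rcases (m1 p).1 hp with rfl | hp'
    · exact Or.inl hhy'
    · exfalso
      obtain ⟨q, hq, r, hr, e⟩ := hex
      rw [f1 p hp'] at e
      have := hB p hp'
      have := B1 q hq
      omega)
  have m2 : ∀ w, w ∈ s2.1 ↔ w = h ∨ w = y' ∨ w ∈ s.1 := fun w => by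
    rw [← m1]; exact mem_put
  have f2h : s2.2 h = T := put_self _ _ _
  have f2y' : s2.2 y' = N := by rw [E2.2 y' ((m1 y').2 (Or.inl rfl)), f1y']
  have f2 : ∀ p ∈ s.1, s2.2 p = s.2 p := fun p hp => by
    rw [E2.2 p ((m1 p).2 (Or.inr hp)), f1 p hp]
  have B2 : ∀ p ∈ s2.1, s2.2 p ≤ T := by
    intro p hp
    rcases (m2 p).1 hp with rfl | rfl | hp
    · rw [f2h]
    · rw [f2y']; omega
    · rw [f2 p hp]; have := hB p hp; omega
  have mh : h ∈ s2.1 := (m2 h).2 (Or.inl rfl)
  have my' : y' ∈ s2.1 := (m2 y').2 (Or.inr (Or.inl rfl))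
  have my : y ∈ s2.1 := (m2 y).2 (Or.inr (Or.inr hy))
  have r1 : Realized G s2 (N - s.2 y) := ⟨h, mh, y', my', hhy', by rw [f2h, f2y']; omega⟩
  have r2 : Realized G s2 (2 * N - 2 * s.2 y) := ⟨h, mh, y, my, hhy, by
    rw [f2h, f2 y hy]; omega⟩
  -- the helper has no bad partner so far
  have nobad : ∀ w ∈ s1.1, ¬ Bad G h w := fun w hw hbad =>
    hbad.2.2.2 (hadj w hw hbad.2.1)
  have br2 : BadReal G s2 := by
    intro p hp q hq hpq D e
    rcases (m2 p).1 hp with rfl | rfl | hp'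
    · rcases (m2 q).1 hq with rfl | hq'
      · exact absurd rfl hpq.2.2.1
      · exact absurd hpq (nobad q ((m1 q).2 hq'))
    · rcases (m2 q).1 hq with rfl | rfl | hq'
      · exact absurd hpq.symm (nobad p ((m1 p).2 (Or.inl rfl)))
      · exact absurd rfl hpq.2.2.1
      · have : q = y := hm p q y hpq hyy'.symm
        subst this
        rw [f2y', f2 q hy] at e
        have : D = N - s.2 q := by omega
        rw [this]; exact r1
    · rcases (m2 q).1 hq with rfl | rfl | hq'
      · exact absurd hpq.symm (nobad p ((m1 p).2 (Or.inr hp')))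
      · rw [f2y', f2 p hp'] at e
        have := hB p hp'
        omega
      · rw [f2 p hp', f2 q hq'] at e
        exact (hb p hp' q hq' hpq D e).mono (E1.trans E2)
  by_cases hh' : ∃ w, Bad G h w
  swap
  · push Not at hh'
    refine ⟨s2, v2, i2, br2, E1.trans E2, ?_⟩
    intro x hx hor w hw
    rcases (m2 x).1 hx with rfl | rfl | hx'
    · exact absurd hw (hh' w)
    · have : w = y := hm x w y hw hyy'.symm
      rw [this]; exact my
    · rcases hor with rfl | hor
      · have : w = y' := hm x w y' hw hyy'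
        rw [this]; exact my'
      · exact absurd hx' hor
  obtain ⟨h', hhh'⟩ := hh'
  have h's2 : h' ∉ s2.1 := by
    intro hmem
    rcases (m2 h').1 hmem with e | hmem
    · exact hhh'.2.2.1 e.symm
    · exact nobad h' ((m1 h').2 hmem) hhh'
  obtain ⟨T', hT'⟩ : ∃ T' : ℕ, T' = 4 * N - 3 * s.2 y := ⟨_, rfl⟩
  have T3 : ∀ p ∈ s2.1, s2.2 p < T' := fun p hp => by have := B2 p hp; omega
  have hTT : T' - T = 2 * N - 2 * s.2 y := by omega
  set s3 := put s2 h' T' with hs3
  have E3 : Ext s2 s3 := put_ext s2 h' h's2 T'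
  have v3 : Valid G k s3 := putg_valid v2 h's2 T3 (fun p hp hap => by
    rcases (m2 p).1 hp with rfl | rfl | hp'
    · exact absurd hap.symm hhh'.2.2.2
    · rw [f2y']
      refine ⟨by omega, fun hR => ?_⟩
      have := hR.bound B2
      omega
    · rw [f2 p hp']
      have := hB p hp'
      refine ⟨by omega, fun hR => ?_⟩
      have := hR.bound B2
      omega)
  have i3 : Inv G a b s3 := putg_inv v2 i2 h's2 T3 (fun p hp hex => by
    rcases (m2 p).1 hp with rfl | rfl | hp'
    · right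
      rw [f2h, hTT]; exact r2
    · exfalso
      obtain ⟨q, hq, r, hr, e⟩ := hex
      rw [f2y'] at e
      have := B2 q hq
      omega
    · exfalso
      obtain ⟨q, hq, r, hr, e⟩ := hex
      rw [f2 p hp'] at e
      have := hB p hp'
      have := B2 q hq
      omega)
  have m3 : ∀ w, w ∈ s3.1 ↔ w = h' ∨ w ∈ s2.1 := fun w => mem_put
  have f3h' : s3.2 h' = T' := put_self _ _ _
  have f3 : ∀ p ∈ s2.1, s3.2 p = s2.2 p := fun p hp => E3.2 p hp
  have br3 : BadReal G s3 := by
    intro p hp q hq hpq D e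
    rcases (m3 p).1 hp with rfl | hp'
    · rcases (m3 q).1 hq with rfl | hq'
      · exact absurd rfl hpq.2.2.1
      · have : q = h := hm p q h hpq hhh'.symm
        subst this
        rw [f3h', f3 q mh, f2h] at e
        have : D = 2 * N - 2 * s.2 y := by omega
        rw [this]; exact r2.mono E3
    · rcases (m3 q).1 hq with rfl | hq'
      · rw [f3h', f3 p hp'] at e
        have := T3 p hp'
        omega
      · rw [f3 p hp', f3 q hq'] at e
        exact (br2 p hp' q hq' hpq D e).mono E3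
  refine ⟨s3, v3, i3, br3, (E1.trans E2).trans E3, ?_⟩
  intro x hx hor w hw
  rcases (m3 x).1 hx with rfl | hx'
  · have : w = h := hm x w h hw hhh'.symm
    rw [this]; exact E3.1 mh
  · rcases (m2 x).1 hx' with rfl | rfl | hx''
    · have : w = h' := hm x w h' hw hhh'
      rw [this]; exact (m3 h').2 (Or.inl rfl)
    · have : w = y := hm x w y hw hyy'.symm
      rw [this]; exact E3.1 my
    · rcases hor with rfl | hor
      · have : w = y' := hm x w y' hw hyy'
        rw [this]; exact E3.1 my'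
      · exact absurd hx'' hor

end general

theorem kgraceful_of_matching_bad [Countable V] {G : SimpleGraph V} (hG : InfiniteMatching G)
    (hm : ∀ x y y', Bad G x y → Bad G x y' → y = y') {k : ℕ} (hk : 1 ≤ k) :
    KGraceful G k := by
  classical
  obtain ⟨α, β, hT⟩ := exists_typ hG
  let Good : St V → Prop := fun t => (Valid G k t ∧ Inv G (fun p => G.neighborSet p ∈ α)
      (fun p => G.neighborSet p ∈ β) t) ∧ BadReal G t ∧ ∀ x ∈ t.1, ∀ w, Bad G x w → w ∈ t.1
  obtain ⟨s, hgood, hE, hR⟩ := chain (ι := V ⊕ ℕ) Good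
    (fun i t => match i with
      | Sum.inl v => v ∈ t.1
      | Sum.inr D => k ≤ D → Realized G t D) st0 ⟨⟨valid0 G k, inv0 G _ _⟩,
        fun x hx => absurd hx (Finset.notMem_empty x),
        fun x hx => absurd hx (Finset.notMem_empty x)⟩ (by
    rintro s ⟨⟨hs, hi⟩, hb, hc⟩ (v | D)
    · by_cases hv : v ∈ s.1
      · exact ⟨s, ⟨⟨hs, hi⟩, hb, hc⟩, Ext.refl s, hv⟩
      · obtain ⟨B, hB⟩ := exists_bound s
        have hE1 := put_ext s v hv (2 * B + k + 1)
        have hv1 : v ∈ (put s v (2 * B + k + 1)).1 := mem_put.2 (Or.inl rfl)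
        have hb1 : BadReal G (put s v (2 * B + k + 1)) := by
          intro x hx y hy hxy D e
          rcases mem_put.1 hx with rfl | hx'
          · rcases mem_put.1 hy with rfl | hy'
            · exact absurd rfl hxy.2.2.1
            · exact absurd (hc y hy' x hxy.symm) hv
          · rcases mem_put.1 hy with rfl | hy'
            · exact absurd (hc x hx' y hxy) hv
            · rw [put_of_mem hv hx', put_of_mem hv hy'] at e
              exact (hb x hx' y hy' hxy D e).mono hE1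
        obtain ⟨t, t1, t2, t3, t4, t5⟩ := close hG hm (put_valid hs hv hB (by omega))
          (put_inv hs hi hv hB (by omega)) hb1 v hv1
        refine ⟨t, ⟨⟨t1, t2⟩, t3, ?_⟩, hE1.trans t4, t4.1 hv1⟩
        intro x hx w hw
        by_cases hxs : x ∈ s.1
        · exact t4.1 (hE1.1 (hc x hxs w hw))
        · refine t5 x hx ?_ w hw
          by_cases hxv : x = v
          · exact Or.inl hxv
          · right
            intro h
            rcases mem_put.1 h with h | h
            · exact hxv h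
            · exact hxs h
    · by_cases hD : k ≤ D
      · obtain ⟨t, ⟨t1, t2⟩, t3, t4, t5⟩ := realise hT hD (by omega) s
          (fun x hx y hy e h1 h2 h3 h4 => hb x hx y hy ⟨h1, h2, h3, h4⟩ D e) hs hi
        rcases t5 with t5 | ⟨yh, yl, hh, hl, ha, t5⟩
        · refine ⟨t, ⟨⟨t1, t2⟩, ?_, ?_⟩, t3, fun _ => t4⟩
          · intro x hx y hy hxy D' e
            have hx' := (t5 x).1 hx
            have hy' := (t5 y).1 hy
            rw [t3.2 x hx', t3.2 y hy'] at e
            exact (hb x hx' y hy' hxy D' e).mono t3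
          · intro x hx w hw
            exact (t5 w).2 (hc x ((t5 x).1 hx) w hw)
        · have hb1 : BadReal G t := by
            intro x hx y hy hxy D' e
            rcases (t5 x).1 hx with ex | ex | hx'
            · rcases (t5 y).1 hy with ey | ey | hy'
              · exact absurd (ex.trans ey.symm) hxy.2.2.1
              · exact absurd (ex ▸ ey ▸ ha) hxy.2.2.2
              · exact absurd (hc y hy' x hxy.symm) (ex ▸ hh)
            · rcases (t5 y).1 hy with ey | ey | hy'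
              · exact absurd (ex ▸ ey ▸ ha.symm) hxy.2.2.2
              · exact absurd (ex.trans ey.symm) hxy.2.2.1
              · exact absurd (hc y hy' x hxy.symm) (ex ▸ hl)
            · rcases (t5 y).1 hy with ey | ey | hy'
              · exact absurd (hc x hx' y hxy) (ey ▸ hh)
              · exact absurd (hc x hx' y hxy) (ey ▸ hl)
              · rw [t3.2 x hx', t3.2 y hy'] at e
                exact (hb x hx' y hy' hxy D' e).mono t3
          obtain ⟨u, u1, u2, u3, u4, u5⟩ := close hG hm t1 t2 hb1 yh ((t5 yh).2 (Or.inl rfl))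
          obtain ⟨w, w1, w2, w3, w4, w5⟩ := close hG hm u1 u2 u3 yl
            (u4.1 ((t5 yl).2 (Or.inr (Or.inl rfl))))
          refine ⟨w, ⟨⟨w1, w2⟩, w3, ?_⟩, t3.trans (u4.trans w4), fun _ =>
            t4.mono (u4.trans w4)⟩
          intro x hx z hz
          by_cases hxu : x ∈ u.1
          · by_cases hxl : x = yl
            · exact w5 x hx (Or.inl hxl) z hz
            by_cases hxt : x ∈ t.1
            · rcases (t5 x).1 hxt with h | h | h
              · exact w4.1 (u5 x hxu (Or.inl h) z hz)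
              · exact absurd h hxl
              · exact w4.1 (u4.1 (t3.1 (hc x h z hz)))
            · exact w4.1 (u5 x hxu (Or.inr hxt) z hz)
          · exact w5 x hx (Or.inr hxu) z hz
      · exact ⟨s, ⟨⟨hs, hi⟩, hb, hc⟩, Ext.refl s, fun h => absurd h hD⟩)
  obtain ⟨F, -, hinj, hbij⟩ := numbering_of_chain G k s hE (fun n => (hgood n).1.1)
    (fun v => hR (Sum.inl v)) (fun D hD => by
      obtain ⟨n, hn⟩ := hR (Sum.inr D)
      exact ⟨n, hn hD⟩)
  exact ⟨F, hinj, hbij⟩

/-- generic bijective version -/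
theorem bij_of_steps [Countable V] {G : SimpleGraph V} {k : ℕ} (Good : St V → Prop)
    (h0 : Good st0) (hval : ∀ s, Good s → Valid G k s)
    (h1 : ∀ s, Good s → ∀ v, ∃ t, Good t ∧ Ext s t ∧ v ∈ t.1)
    (h2 : ∀ s, Good s → ∀ D, k ≤ D → ∃ t, Good t ∧ Ext s t ∧ Realized G t D)
    (h3 : ∀ s, Good s → ∀ n, ∃ t, Good t ∧ Ext s t ∧ ∃ p ∈ t.1, t.2 p = n) :
    BijKGraceful G k := by
  obtain ⟨s, hgood, hE, hR⟩ := chain (ι := V ⊕ (ℕ ⊕ ℕ)) Good
    (fun i t => match i with
      | Sum.inl v => v ∈ t.1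
      | Sum.inr (Sum.inl D) => k ≤ D → Realized G t D
      | Sum.inr (Sum.inr n) => ∃ p ∈ t.1, t.2 p = n) st0 h0 (by
    rintro s hs (v | D | n)
    · exact h1 s hs v
    · by_cases hD : k ≤ D
      · obtain ⟨t, ht, hx, hr⟩ := h2 s hs D hD
        exact ⟨t, ht, hx, fun _ => hr⟩
      · exact ⟨s, hs, Ext.refl s, fun h => absurd h hD⟩
    · exact h3 s hs n)
  obtain ⟨F, hF, hinj, hbij⟩ := numbering_of_chain G k s hE (fun n => hval _ (hgood n))
    (fun v => hR (Sum.inl v)) (fun D hD => by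
      obtain ⟨n, hn⟩ := hR (Sum.inr (Sum.inl D))
      exact ⟨n, hn hD⟩)
  refine ⟨F, ⟨hinj, fun n => ?_⟩, hbij⟩
  obtain ⟨m, p, hp, hpn⟩ := hR (Sum.inr (Sum.inr n))
  exact ⟨p, by rw [hF m p hp, hpn]⟩

theorem bij_of_far [Countable V] {G : SimpleGraph V}
    (hfar : ∀ P : Finset V, ∃ z, z ∉ P ∧ (∃ w, G.Adj z w) ∧ ∀ p ∈ P, ¬ G.Adj z p)
    {k : ℕ} (hk : 1 ≤ k) : BijKGraceful G k := by
  classical
  refine bij_of_steps (Valid G k) (valid0 G k) (fun s hs => hs) ?_ ?_ ?_
  · intro s hs v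
    by_cases hv : v ∈ s.1
    · exact ⟨s, hs, Ext.refl s, hv⟩
    · obtain ⟨B, hB⟩ := exists_bound s
      exact ⟨put s v (2 * B + k + 1), put_valid hs hv hB (by omega), put_ext s v hv _,
        mem_put.2 (Or.inl rfl)⟩
  · intro s hs D hD
    by_cases hnr : Realized G s D
    · exact ⟨s, hs, Ext.refl s, hnr⟩
    obtain ⟨B, hB⟩ := exists_bound s
    obtain ⟨z, hz, ⟨w, hzw⟩, hzP⟩ := hfar s.1
    have hw : w ∉ s.1 := fun h => hzP w h hzw
    have hM : 2 * B + D + k < 2 * B + D + k + 1 := Nat.lt_succ_self _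
    refine ⟨put2 s z w (2 * B + D + k + 1) D, ?_, put2_ext hz hw hzw.ne, ?_⟩
    · exact put2_valid hs hz hw hzw hB hM hD (by omega) hnr
        (fun p hp q hq _ h => hzP p hp h.1)
    · exact ⟨z, mem_put2.2 (Or.inl rfl), w, mem_put2.2 (Or.inr (Or.inl rfl)), hzw, by
        rw [put2_h, put2_l hz hzw.ne]⟩
  · intro s hs n
    by_cases hn : ∃ p ∈ s.1, s.2 p = n
    · exact ⟨s, hs, Ext.refl s, hn⟩
    push Not at hn
    obtain ⟨z, hz, -, hzP⟩ := hfar s.1
    exact ⟨put s z n, put_valid' hs hz hn hzP, put_ext s z hz _, z, mem_put.2 (Or.inl rfl),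
      put_self s z n⟩

/-- finitely many vertices dominating all the others exclude bijective numberings -/
theorem not_bij_of_dom {G : SimpleGraph V} (hG : InfiniteMatching G) (hdom : FinDom G)
    {k : ℕ} (hk : 1 ≤ k) : ¬ BijKGraceful G k := by
  classical
  rintro ⟨f, hf, hbij⟩
  obtain ⟨P, hP⟩ := hdom
  -- edges avoiding P
  obtain ⟨M, hinf, hMG, hdis⟩ := hG
  have hfin : (⋃ v ∈ P, {e | e ∈ M ∧ v ∈ e}).Finite := by
    refine Set.Finite.biUnion P.finite_toSet fun v _ => Set.Subsingleton.finite ?_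
    intro e he e' he'
    by_contra hne
    exact hdis e he.1 e' he'.1 hne v he.2 he'.2
  obtain ⟨E, hEM, hEc⟩ := (hinf.sdiff hfin).exists_subset_card_eq P.card
  have hEP : ∀ e ∈ E, ∀ v ∈ P, v ∉ e := by
    intro e he v hv hve
    refine (hEM he).2 ?_
    simp only [Set.mem_iUnion]
    exact ⟨v, hv, (hEM he).1, hve⟩
  -- a large n
  set n := P.sup f + E.sup (edgeLabel f) with hn
  have hPn : ∀ p ∈ P, f p ≤ n := fun p hp => (Finset.le_sup (f := f) hp).trans (by omega)
  have hEn : ∀ e ∈ E, edgeLabel f e ≤ n := fun e he =>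
    (Finset.le_sup (f := edgeLabel f) he).trans (by omega)
  let g : ℕ → V := Function.surjInv hf.2
  have hg : ∀ m, f (g m) = m := Function.surjInv_eq hf.2
  let T : Finset V := (Finset.range (n + 1)).image g
  have hT : ∀ z ∈ T, f z ≤ n := by
    intro z hz
    obtain ⟨m, hm, rfl⟩ := Finset.mem_image.1 hz
    rw [hg]; have := Finset.mem_range.1 hm; omega
  have hTc : T.card = n + 1 := by
    rw [Finset.card_image_of_injective _ (fun a c h => by
      have := congrArg f h; rwa [hg, hg] at this), Finset.card_range]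
  choose! c hcP hcA using hP
  let S : Finset V := T \ P
  have hSc : n + 1 - P.card ≤ S.card := by
    have := Finset.le_card_sdiff P T
    rw [hTc] at this
    exact this
  let E1 : Finset (Sym2 V) := S.image fun z => s(z, c z)
  have hE1c : E1.card = S.card := by
    refine Finset.card_image_of_injOn ?_
    intro z hz z' hz' h
    have hz := (Finset.mem_sdiff.1 (Finset.mem_coe.1 hz)).2
    have hz' := (Finset.mem_sdiff.1 (Finset.mem_coe.1 hz')).2
    rcases Sym2.eq_iff.1 h with ⟨h1, _⟩ | ⟨h1, _⟩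
    · exact h1
    · exact absurd (h1 ▸ hcP z' hz') hz
  have hdisj : Disjoint E1 E := by
    rw [Finset.disjoint_left]
    intro e he he'
    obtain ⟨z, hz, rfl⟩ := Finset.mem_image.1 he
    exact hEP _ he' (c z) (hcP z (Finset.mem_sdiff.1 hz).2) (Sym2.mem_mk_right _ _)
  have hsub : ((E1 ∪ E : Finset (Sym2 V)) : Set (Sym2 V)) ⊆ G.edgeSet := by
    intro e he
    rcases Finset.mem_union.1 (Finset.mem_coe.1 he) with he | he
    · obtain ⟨z, hz, rfl⟩ := Finset.mem_image.1 he
      exact hcA z (Finset.mem_sdiff.1 hz).2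
    · exact hMG (hEM he).1
  have himg : ∀ e ∈ E1 ∪ E, edgeLabel f e ∈ Finset.Icc k n := by
    intro e he
    rw [Finset.mem_Icc]
    refine ⟨hbij.mapsTo (hsub he), ?_⟩
    rcases Finset.mem_union.1 he with he | he
    · obtain ⟨z, hz, rfl⟩ := Finset.mem_image.1 he
      have h1 := hT z (Finset.mem_sdiff.1 hz).1
      have h2 := hPn (c z) (hcP z (Finset.mem_sdiff.1 hz).2)
      show ((f z : ℤ) - (f (c z) : ℤ)).natAbs ≤ n
      omega
    · exact hEn e he
  have hcard := Finset.card_le_card_of_injOn (edgeLabel f) himg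
    (fun e he e' he' h => hbij.injOn (hsub he) (hsub he') h)
  rw [Finset.card_union_of_disjoint hdisj, hE1c, hEc, Nat.card_Icc] at hcard
  omega

/-- if no finite set dominates, gracefulness gives a bijective numbering -/
theorem bij_of_kgraceful [Countable V] {G : SimpleGraph V} (hdom : ¬ FinDom G)
    {k : ℕ} (hk : 1 ≤ k) (h : KGraceful G k) : BijKGraceful G k := by
  classical
  by_cases hfar : ∀ P : Finset V, ∃ z, z ∉ P ∧ (∃ w, G.Adj z w) ∧ ∀ p ∈ P, ¬ G.Adj z p
  · exact bij_of_far hfar hk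
  push Not at hfar
  obtain ⟨P0, hP0⟩ := hfar
  -- infinitely many isolated vertices
  have hinf : {v : V | ¬ NI G v}.Infinite := by
    intro hfin
    refine hdom ⟨P0 ∪ hfin.toFinset, fun z hz => ?_⟩
    rw [Finset.mem_union, not_or, Set.Finite.mem_toFinset] at hz
    have hz2 : NI G z := not_not.1 hz.2
    obtain ⟨p, hp, hzp⟩ := hP0 z hz.1 hz2
    exact ⟨p, Finset.mem_union_left _ hp, hzp⟩
  obtain ⟨f, hf, hbij⟩ := h
  have hJ : ((f '' {v : V | NI G v})ᶜ).Infinite := by
    refine (hinf.image hf.injOn).mono ?_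
    rintro _ ⟨v, hv, rfl⟩ ⟨w, hw, hwv⟩
    exact hv (hf hwv ▸ hw)
  have i1 : Infinite {v : V // ¬ NI G v} := hinf.to_subtype
  have i2 : Infinite ((f '' {v : V | NI G v})ᶜ : Set ℕ) := hJ.to_subtype
  obtain ⟨e⟩ := nonempty_equiv_of_countable (α := {v : V // ¬ NI G v})
    (β := ((f '' {v : V | NI G v})ᶜ : Set ℕ))
  let F : V → ℕ := fun v => if h : NI G v then f v else (e ⟨v, h⟩ : ℕ)
  have F1 : ∀ v, NI G v → F v = f v := fun v h => dif_pos h
  have F2 : ∀ v (h : ¬ NI G v), F v = (e ⟨v, h⟩ : ℕ) := fun v h => dif_neg h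
  have hlab : ∀ x ∈ G.edgeSet, edgeLabel F x = edgeLabel f x := by
    intro x hx
    induction x using Sym2.ind with
    | _ u v =>
      show ((F u : ℤ) - (F v : ℤ)).natAbs = ((f u : ℤ) - (f v : ℤ)).natAbs
      rw [F1 u ⟨v, hx⟩, F1 v ⟨u, (show G.Adj u v from hx).symm⟩]
  refine ⟨F, ⟨?_, ?_⟩, hbij.congr fun x hx => (hlab x hx).symm⟩
  · intro u v huv
    by_cases hu : NI G u <;> by_cases hv : NI G v
    · rw [F1 u hu, F1 v hv] at huv
      exact hf huv
    · rw [F1 u hu, F2 v hv] at huv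
      exact absurd ⟨u, hu, huv⟩ (e ⟨v, hv⟩).2
    · rw [F2 u hu, F1 v hv] at huv
      exact absurd ⟨v, hv, huv.symm⟩ (e ⟨u, hu⟩).2
    · rw [F2 u hu, F2 v hv] at huv
      exact congrArg Subtype.val (e.injective (Subtype.ext huv))
  · intro n
    by_cases hn : n ∈ f '' {v : V | NI G v}
    · obtain ⟨v, hv, rfl⟩ := hn
      exact ⟨v, F1 v hv⟩
    · obtain ⟨⟨v, hv⟩, h⟩ := e.surjective ⟨n, hn⟩
      exact ⟨v, by rw [F2 v hv, h]⟩

/-- sanity check: in a triangle-free graph with an infinite matching no vertex is almost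
dominating, so the theorem applies -/
theorem no_almostDom_of_triangleFree {G : SimpleGraph V} (hG : InfiniteMatching G)
    (htf : ∀ x y z, G.Adj x y → G.Adj y z → ¬ G.Adj x z) (x : V) : ¬ AlmostDom G x := by
  rintro ⟨F, hF⟩
  obtain ⟨u, v, hu, hv, huv⟩ := edges_outside hG F
  exact htf x u v (hF u v hu hv huv) huv (hF v u hv hu huv.symm)

theorem not_kgraceful_of_leaves (G : SimpleGraph V)
    (hC : ∃ C : Finset V, ∀ u v, G.Adj u v → u ∈ C ∨ v ∈ C)
    (h2 : {v | TwoNbrs G v}.Finite) (hI : {v | Isolated G v}.Infinite) (k : ℕ) :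
    ¬ KGraceful G k := by
  classical
  rintro ⟨f, hf, hbij⟩
  obtain ⟨C0, hC0⟩ := hC
  obtain ⟨i0, hi0⟩ := hI.nonempty
  have hne : Nonempty V := ⟨i0⟩
  have hne2 : Nonempty (Sym2 V) := ⟨s(i0, i0)⟩
  set C : Finset V := C0 ∪ h2.toFinset with hCdef
  have hcov : ∀ u v, G.Adj u v → u ∈ C ∨ v ∈ C := by
    intro u v h
    rcases hC0 u v h with h | h
    · exact Or.inl (Finset.mem_union_left _ h)
    · exact Or.inr (Finset.mem_union_left _ h)
  have hone : ∀ v, v ∉ C → ∀ w w', G.Adj v w → G.Adj v w' → w = w' := by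
    intro v hv w w' h h'
    by_contra hne
    exact hv (Finset.mem_union_right _ (h2.mem_toFinset.2 ⟨w, w', hne, h, h'⟩))
  set B := C.sup f
  have hB : ∀ c ∈ C, f c ≤ B := fun c hc => Finset.le_sup (f := f) hc
  set q := C.sym2.card
  obtain ⟨M, hMI, hMc⟩ := hI.exists_subset_card_eq (B + k + q + 1)
  set n := M.sup f + k
  have hMn : ∀ v ∈ M, f v ≤ n := fun v hv => (Finset.le_sup (f := f) hv).trans (by omega)
  -- edges with labels in [k, n]
  have hsurj : ∀ l, k ≤ l → ∃ e, e ∈ G.edgeSet ∧ edgeLabel f e = l := fun l hl =>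
    hbij.surjOn (show l ∈ {n | k ≤ n} from hl)
  choose! e heG hel using hsurj
  set L := Finset.Icc k n
  set L1 := L.filter (fun l => e l ∈ C.sym2)
  set L2 := L.filter (fun l => e l ∉ C.sym2)
  have hL12 : L1.card + L2.card = L.card := Finset.card_filter_add_card_filter_not _
  have hL : L.card = n + 1 - k := Nat.card_Icc _ _
  have hL1 : L1.card ≤ q := by
    refine Finset.card_le_card_of_injOn e (fun l hl => (Finset.mem_filter.1 hl).2) ?_
    intro l hl l' hl' hll
    have a1 := (Finset.mem_Icc.1 (Finset.mem_filter.1 (Finset.mem_coe.1 hl)).1).1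
    have a2 := (Finset.mem_Icc.1 (Finset.mem_filter.1 (Finset.mem_coe.1 hl')).1).1
    rw [← hel l a1, ← hel l' a2, hll]
  have hv : ∀ l ∈ L2, ∃ v, v ∉ C ∧ v ∈ e l ∧ f v ≤ B + n := by
    intro l hl
    obtain ⟨hlL, hlC⟩ := Finset.mem_filter.1 hl
    obtain ⟨hkl, hln⟩ := Finset.mem_Icc.1 hlL
    have h1 := heG l hkl
    have h2 := hel l hkl
    generalize e l = x at hlC h1 h2
    induction x using Sym2.ind with
    | _ u v =>
      have huv : G.Adj u v := h1
      have hlab : ((f u : ℤ) - (f v : ℤ)).natAbs = l := h2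
      rw [Finset.mk_mem_sym2_iff] at hlC
      rcases hcov u v huv with hu | hv'
      · have hvC : v ∉ C := fun h => hlC ⟨hu, h⟩
        have := hB u hu
        exact ⟨v, hvC, Sym2.mem_mk_right u v, by omega⟩
      · have huC : u ∉ C := fun h => hlC ⟨h, hv'⟩
        have := hB v hv'
        exact ⟨u, huC, Sym2.mem_mk_left u v, by omega⟩
  choose! v hvC hve hvn using hv
  have hvinj : Set.InjOn v (L2 : Set ℕ) := by
    intro l hl l' hl' hll
    have hl := Finset.mem_coe.1 hl
    have hl' := Finset.mem_coe.1 hl'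
    have a1 := (Finset.mem_Icc.1 (Finset.mem_filter.1 hl).1).1
    have a2 := (Finset.mem_Icc.1 (Finset.mem_filter.1 hl').1).1
    have b1 := hve l hl
    have b2 := hve l' hl'
    rw [← hll] at b2
    obtain ⟨w, hw⟩ := Sym2.mem_iff_exists.1 b1
    obtain ⟨w', hw'⟩ := Sym2.mem_iff_exists.1 b2
    have c1 : G.Adj (v l) w := by have := heG l a1; rw [hw] at this; exact this
    have c2 : G.Adj (v l) w' := by have := heG l' a2; rw [hw'] at this; exact this
    have := hone (v l) (hvC l hl) w w' c1 c2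
    rw [← hel l a1, ← hel l' a2, hw, hw', this]
  set T := L2.image v ∪ M
  have hdisj : Disjoint (L2.image v) M := by
    rw [Finset.disjoint_left]
    intro x hx hxM
    obtain ⟨l, hl, rfl⟩ := Finset.mem_image.1 hx
    have a1 := (Finset.mem_Icc.1 (Finset.mem_filter.1 hl).1).1
    obtain ⟨w, hw⟩ := Sym2.mem_iff_exists.1 (hve l hl)
    have c1 : G.Adj (v l) w := by have := heG l a1; rw [hw] at this; exact this
    exact hMI hxM w c1
  have hTc : T.card = L2.card + (B + k + q + 1) := by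
    rw [Finset.card_union_of_disjoint hdisj, Finset.card_image_of_injOn hvinj, hMc]
  have hT : T.card ≤ (Finset.range (B + n + 1)).card := by
    refine Finset.card_le_card_of_injOn f ?_ hf.injOn
    intro x hx
    rw [Finset.coe_range, Set.mem_Iio]
    rcases Finset.mem_union.1 (Finset.mem_coe.1 hx) with hx | hx
    · obtain ⟨l, hl, rfl⟩ := Finset.mem_image.1 hx
      have := hvn l hl
      omega
    · have := hMn x hx
      omega
  rw [Finset.card_range, hTc] at hT
  omega

/-- Periods at infinity form a subgroup. -/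
def perSub (w : ℤ → Prop) : AddSubgroup ℤ where
  carrier := {p | ∃ X, ∀ x, X ≤ x → (w (x + p) ↔ w x)}
  zero_mem' := ⟨0, fun x _ => by rw [add_zero]⟩
  add_mem' := by
    rintro p q ⟨X, hX⟩ ⟨Y, hY⟩
    refine ⟨max X (Y - p), fun x hx => ?_⟩
    have h1 := hX x (le_trans (le_max_left _ _) hx)
    have h2 := hY (x + p) (by have := le_trans (le_max_right X (Y - p)) hx; omega)
    rw [← add_assoc, h2, h1]
  neg_mem' := by
    rintro p ⟨X, hX⟩
    refine ⟨X + p, fun x hx => ?_⟩
    have h := hX (x - p) (by omega)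
    rw [sub_add_cancel] at h
    rw [← sub_eq_add_neg, h]

/-- Structure of the one-sided tiling. -/
theorem tiling {w : ℤ → Prop} {al ga e0 : ℤ} (hal : 0 < al) (hga : 0 < ga)
    (hcop : IsCoprime al ga)
    (p1 : ∀ x, e0 < x → w x → ¬ w (x + al)) (p2 : ∀ x, e0 < x → w x → ¬ w (x + ga))
    (p3 : ∀ x, e0 < x → w x → ¬ w (x + (al + ga)))
    (hE : ∀ x, e0 < x → w x ∨ w (x + ga) ∨ w (x + (al + ga))) :
    (3 : ℤ) ∣ al - ga ∧ ¬ (3 : ℤ) ∣ al ∧ ∃ r, ∀ x, e0 < x → (w x ↔ (3 : ℤ) ∣ x - r) := by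
  -- shifts at large x
  have a1 : ∀ x, e0 < x → w x → w (x + (2 * al + ga)) := by
    intro x hx h
    rcases hE (x + al) (by omega) with h1 | h1 | h1
    · exact absurd h1 (p1 x hx h)
    · exact absurd (by rwa [add_assoc] at h1) (p3 x hx h)
    · have : x + al + (al + ga) = x + (2 * al + ga) := by ring
      rwa [this] at h1
  have a2 : ∀ x, e0 + al < x → w x → w (x + (ga - al)) := by
    intro x hx h
    rcases hE (x - al) (by omega) with h1 | h1 | h1
    · exact absurd (by rwa [sub_add_cancel]) (p1 (x - al) (by omega) h1)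
    · have : x - al + ga = x + (ga - al) := by ring
      rwa [this] at h1
    · have e : x - al + (al + ga) = x + ga := by ring
      rw [e] at h1
      exact absurd h1 (p2 x (by omega) h)
  have a3 : ∀ x, e0 + (al + 2 * ga) < x → w x → w (x - (al + 2 * ga)) := by
    intro x hx h
    rcases hE (x - (al + 2 * ga)) (by omega) with h1 | h1 | h1
    · exact h1
    · have e : x - (al + 2 * ga) + ga = x - (al + ga) := by ring
      rw [e] at h1
      exact absurd (by rwa [sub_add_cancel]) (p3 (x - (al + ga)) (by omega) h1)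
    · have e : x - (al + 2 * ga) + (al + ga) = x - ga := by ring
      rw [e] at h1
      exact absurd (by rwa [sub_add_cancel]) (p2 (x - ga) (by omega) h1)
  set H := perSub w
  have m1 : (2 * al + ga) ∈ H := by
    refine ⟨e0 + 2 * al + 2 * ga, fun x hx => ⟨fun h => ?_, fun h => a1 x (by omega) h⟩⟩
    have h2 := a2 _ (by omega) h
    have h3 := a3 _ (by omega) h2
    have e : x + (2 * al + ga) + (ga - al) - (al + 2 * ga) = x := by ring
    rwa [e] at h3
  have m2 : (ga - al) ∈ H := by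
    refine ⟨e0 + 2 * al + 2 * ga, fun x hx => ⟨fun h => ?_, fun h => a2 x (by omega) h⟩⟩
    have h2 := a1 _ (by omega) h
    have h3 := a3 _ (by omega) h2
    have e : x + (ga - al) + (2 * al + ga) - (al + 2 * ga) = x := by ring
    rwa [e] at h3
  have m3 : (3 : ℤ) ∈ H := by
    obtain ⟨u, v, huv⟩ := hcop
    have h1 : 3 * al ∈ H := by
      have := H.sub_mem m1 m2
      have e : 2 * al + ga - (ga - al) = 3 * al := by ring
      rwa [e] at this
    have h2 : 3 * ga ∈ H := by
      have := H.add_mem m1 (H.add_mem m2 m2)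
      have e : 2 * al + ga + (ga - al + (ga - al)) = 3 * ga := by ring
      rwa [e] at this
    have h3 := H.add_mem (H.zsmul_mem h1 u) (H.zsmul_mem h2 v)
    have e : u • (3 * al) + v • (3 * ga) = 3 := by
      simp only [smul_eq_mul]
      linear_combination 3 * huv
    rwa [e] at h3
  -- exclude period one
  have n1 : (1 : ℤ) ∉ H := by
    rintro ⟨X, hX⟩
    have key : ∀ n : ℕ, ∀ x, X ≤ x → (w (x + n) ↔ w x) := by
      intro n
      induction n with
      | zero => intro x _; simp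
      | succ n ih =>
        intro x hx
        have h1 := hX (x + n) (by omega)
        have : x + ((n + 1 : ℕ) : ℤ) = x + n + 1 := by push_cast; ring
        rw [this, h1, ih x hx]
    set x := max X (e0 + 1)
    have hx1 : X ≤ x := le_max_left _ _
    have hx2 : e0 < x := by have := le_max_right X (e0 + 1); omega
    have c1 := key al.toNat x hx1
    have c2 := key ga.toNat x hx1
    have c3 := key (al + ga).toNat x hx1
    rw [Int.toNat_of_nonneg hal.le] at c1
    rw [Int.toNat_of_nonneg hga.le] at c2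
    rw [Int.toNat_of_nonneg (by omega)] at c3
    have hwx : w x := by
      rcases hE x hx2 with h | h | h
      · exact h
      · exact c2.1 h
      · exact c3.1 h
    exact p1 x hx2 hwx (c1.2 hwx)
  have hmod : (3 : ℤ) ∣ al - ga := by
    by_contra hnd
    apply n1
    -- 2*al+ga = 3*al - (al - ga), hence al - ga ∈ H
    have h1 : al - ga ∈ H := by
      have := H.neg_mem m2
      have e : -(ga - al) = al - ga := by ring
      rwa [e] at this
    have hc : IsCoprime (3 : ℤ) (al - ga) := (Int.prime_three.coprime_iff_not_dvd).2 hnd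
    obtain ⟨u, v, huv⟩ := hc
    have h3 := H.add_mem (H.zsmul_mem m3 u) (H.zsmul_mem h1 v)
    have e : u • (3 : ℤ) + v • (al - ga) = 1 := by
      simp only [smul_eq_mul]; linear_combination huv
    rwa [e] at h3
  have hal3 : ¬ (3 : ℤ) ∣ al := by
    intro h
    have hg : (3 : ℤ) ∣ ga := by
      have := dvd_sub h hmod
      have e : al - (al - ga) = ga := by ring
      rwa [e] at this
    obtain ⟨u, v, huv⟩ := hcop
    have : (3 : ℤ) ∣ 1 := by
      rw [← huv]
      exact dvd_add (Dvd.dvd.mul_left h u) (Dvd.dvd.mul_left hg v)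
    omega
  refine ⟨hmod, hal3, ?_⟩
  -- period 3 everywhere above e0
  obtain ⟨X, hX⟩ := m3
  have per : ∀ n : ℕ, ∀ x, e0 < x → X - n ≤ x → (w (x + 3) ↔ w x) := by
    intro n
    induction n using Nat.strong_induction_on with
    | _ n ih =>
      intro x hx hxn
      by_cases hxX : X ≤ x
      · exact hX x hxX
      have hn : 0 < n := by omega
      have key : ∀ y, x < y → (w (y + 3) ↔ w y) := by
        intro y hy
        exact ih (n - 1) (by omega) y (by omega) (by omega)
      have k2 := key (x + ga) (by omega)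
      have k3 := key (x + (al + ga)) (by omega)
      have e2 : x + ga + 3 = x + 3 + ga := by ring
      have e3 : x + (al + ga) + 3 = x + 3 + (al + ga) := by ring
      rw [e2] at k2
      rw [e3] at k3
      constructor
      · intro h
        rcases hE x hx with h1 | h1 | h1
        · exact h1
        · exact absurd (k2.2 h1) (p2 _ (by omega) h)
        · exact absurd (k3.2 h1) (p3 _ (by omega) h)
      · intro h
        rcases hE (x + 3) (by omega) with h1 | h1 | h1
        · exact h1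
        · exact absurd (k2.1 h1) (p2 _ hx h)
        · exact absurd (k3.1 h1) (p3 _ hx h)
  have per' : ∀ x, e0 < x → (w (x + 3) ↔ w x) := fun x hx =>
    per (X - x).toNat x hx (by omega)
  have perN : ∀ n : ℕ, ∀ x, e0 < x → (w (x + 3 * n) ↔ w x) := by
    intro n
    induction n with
    | zero => intro x _; simp
    | succ n ih =>
      intro x hx
      have : x + 3 * ((n + 1 : ℕ) : ℤ) = (x + 3 * n) + 3 := by push_cast; ring
      rw [this, per' _ (by omega), ih x hx]
  have perD : ∀ x y, e0 < x → e0 < y → (3 : ℤ) ∣ x - y → (w x ↔ w y) := by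
    intro x y hx hy h
    obtain ⟨c, hc⟩ := h
    rcases le_total 0 c with h0 | h0
    · have := perN c.toNat y hy
      rw [Int.toNat_of_nonneg h0] at this
      have e : y + 3 * c = x := by omega
      rwa [e] at this
    · have := perN (-c).toNat x hx
      rw [Int.toNat_of_nonneg (by omega)] at this
      have e : x + 3 * -c = y := by omega
      rw [e] at this
      exact this.symm
  -- some element
  obtain ⟨r, hr, hwr⟩ : ∃ r, e0 < r ∧ w r := by
    rcases hE (e0 + 1) (by omega) with h | h | h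
    · exact ⟨_, by omega, h⟩
    · exact ⟨_, by omega, h⟩
    · exact ⟨_, by omega, h⟩
  refine ⟨r, fun x hx => ⟨fun h => ?_, fun h => (perD x r hx hr h).2 hwr⟩⟩
  by_contra hnd
  -- x and r are in different classes, both in w
  have q1 : (3 : ℤ) ∣ x - (r + al) ∨ (3 : ℤ) ∣ x - (r + (al + ga)) := by
    have b1 : al % 3 = 1 ∨ al % 3 = 2 := by omega
    have b2 : ga % 3 = al % 3 := by omega
    have b3 : (x - r) % 3 = 1 ∨ (x - r) % 3 = 2 := by omega
    rcases b1 with b1 | b1 <;> rcases b3 with b3 | b3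
    · left; omega
    · right; omega
    · right; omega
    · left; omega
  rcases q1 with q | q
  · exact p1 r hr hwr ((perD x _ hx (by omega) q).1 h)
  · exact p3 r hr hwr ((perD x _ hx (by omega) q).1 h)


/-- the three shifts -/
def Sh (al ga p : ℤ) : Prop := p = 0 ∨ p = al ∨ p = al + ga

theorem core (U : ℤ → Prop) (al ga k : ℤ) (hk : 1 ≤ k) (hal : k ≤ al) (hga : k ≤ ga)
    (hne : al ≠ ga) (hcop : IsCoprime al ga) (bdd : ∃ L, ∀ u, U u → L ≤ u)
    (n0 : ¬ U 0)
    (big : ∀ u, U u → ∀ p, Sh al ga p → k ≤ u + p ∨ u + p ≤ -k)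
    (cover : ∀ m, k ≤ m → m = al ∨ m = ga ∨ m = al + ga ∨
      ∃ u, U u ∧ ∃ p, Sh al ga p ∧ (u + p = m ∨ u + p = -m))
    (uni : ∀ u v, U u → U v → ∀ p q, Sh al ga p → Sh al ga q →
      (u + p = v + q ∨ u + p = -(v + q)) → u = v ∧ p = q)
    (avoid : ∀ u, U u → ∀ p, Sh al ga p → u + p ≠ al ∧ u + p ≠ ga ∧ u + p ≠ al + ga ∧
      u + p ≠ -al ∧ u + p ≠ -ga ∧ u + p ≠ -(al + ga)) : False := by
  have s0 : Sh al ga 0 := Or.inl rfl
  have s1 : Sh al ga al := Or.inr (Or.inl rfl)
  have s2 : Sh al ga (al + ga) := Or.inr (Or.inr rfl)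
  -- the lowest element
  obtain ⟨e0, he0, low, hlow⟩ : ∃ e0, 0 ≤ e0 ∧ (∀ u, U u → -(al + ga + e0) ≤ u) ∧
      (e0 = 0 ∨ U (-(al + ga + e0))) := by
    by_cases h : ∃ u, U u ∧ u < -(al + ga)
    · obtain ⟨u, hu, hl⟩ := h
      obtain ⟨L, hL⟩ := bdd
      obtain ⟨m, hm, hmin⟩ := Int.exists_least_of_bdd (P := U) ⟨L, hL⟩ ⟨u, hu⟩
      refine ⟨-(al + ga) - m, ?_, ?_, ?_⟩
      · have := hmin u hu; omega
      · intro v hv; have := hmin v hv; omega
      · right
        have : -(al + ga + (-(al + ga) - m)) = m := by ring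
        rwa [this]
    · push Not at h
      exact ⟨0, le_rfl, fun u hu => by have := h u hu; omega, Or.inl rfl⟩
  obtain ⟨h3, h3', r, hr⟩ := tiling (w := U) (al := al) (ga := ga) (e0 := e0) (by omega)
    (by omega) hcop
    (by
      intro x hx h h'
      have := (uni x (x + al) h h' al 0 s1 s0 (Or.inl (by ring))).1
      omega)
    (by
      intro x hx h h'
      have := (uni x (x + ga) h h' (al + ga) al s2 s1 (Or.inl (by ring))).1
      omega)
    (by
      intro x hx h h'
      have := (uni x (x + (al + ga)) h h' (al + ga) 0 s2 s0 (Or.inl (by ring))).1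
      omega)
    (by
      intro x hx
      rcases cover (x + (al + ga)) (by omega) with h | h | h | ⟨u, hu, p, hp, h⟩
      · omega
      · omega
      · omega
      · have hl := low u hu
        rcases hp with rfl | rfl | rfl
        · rcases h with h | h
          · right; right
            have : u = x + (al + ga) := by omega
            rwa [this] at hu
          · omega
        · rcases h with h | h
          · right; left
            have : u = x + ga := by omega
            rwa [this] at hu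
          · omega
        · rcases h with h | h
          · left
            have : u = x := by omega
            rwa [this] at hu
          · omega)
  rcases hlow with he | hu0
  · -- no element below
    subst he
    -- labels divisible by 3 are bottoms
    have hal3 : al % 3 = 1 ∨ al % 3 = 2 := by omega
    have hga3 : ga % 3 = al % 3 := by omega
    have d1 : ¬ (3 : ℤ) ∣ al - r := fun h =>
      (avoid al ((hr al (by omega)).2 h) 0 s0).1 (by ring)
    have d2 : ¬ (3 : ℤ) ∣ al + ga - r := fun h =>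
      (avoid (al + ga) ((hr (al + ga) (by omega)).2 h) 0 s0).2.2.1 (by ring)
    have r3 : (3 : ℤ) ∣ r := by
      rcases hal3 with h | h <;> omega
    have pos : ∀ x, 0 < x → (U x ↔ (3 : ℤ) ∣ x) := by
      intro x hx
      rw [hr x hx]
      constructor <;> intro h <;> omega
    have hk3 : k ≤ 3 := by
      have := big 3 ((pos 3 (by omega)).2 (by omega)) 0 s0
      omega
    -- no middle element
    have nomid : ∀ u, U u → 0 < u := by
      intro u hu
      by_contra hle
      have hl := low u hu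
      have hu0 : u ≠ 0 := fun h => n0 (h ▸ hu)
      have b1 := big u hu al s1
      have b2 := big u hu (al + ga) s2
      -- one of the three labels is divisible by 3
      have hc : (3 : ℤ) ∣ u ∨ (3 : ℤ) ∣ u + al ∨ (3 : ℤ) ∣ u + (al + ga) := by
        rcases hal3 with h | h <;> omega
      have fin : ∀ p, Sh al ga p → u + p ≠ 0 → (3 : ℤ) ∣ u + p → False := by
        intro p hp h0 hd
        rcases lt_or_gt_of_ne h0 with h | h
        · have hv := (pos (-(u + p)) (by omega)).2 (by omega)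
          have := (uni u _ hu hv p 0 hp s0 (Or.inr (by ring))).1
          omega
        · have hv := (pos (u + p) (by omega)).2 hd
          have := (uni u _ hu hv p 0 hp s0 (Or.inl (by ring))).1
          omega
      rcases hc with h | h | h
      · exact fin 0 s0 (by omega) (by omega)
      · exact fin al s1 (by omega) h
      · exact fin (al + ga) s2 (by omega) h
    -- small labels
    have cov : ∀ m, k ≤ m → ¬ (3 : ℤ) ∣ m → m < 3 + al → m = al ∨ m = ga ∨ m = al + ga := by
      intro m hm hm3 hma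
      rcases cover m hm with h | h | h | ⟨u, hu, p, hp, h⟩
      · exact Or.inl h
      · exact Or.inr (Or.inl h)
      · exact Or.inr (Or.inr h)
      · exfalso
        have hu' := nomid u hu
        have hud := (pos u hu').1 hu
        rcases hp with rfl | rfl | rfl
        · rcases h with h | h
          · omega
          · omega
        · rcases h with h | h <;> omega
        · rcases h with h | h <;> omega
    have kk : k = 1 ∨ k = 2 ∨ k = 3 := by omega
    rcases kk with rfl | rfl | rfl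
    · have c1 := cov 1 (by omega) (by omega) (by omega)
      have c2 := cov 2 (by omega) (by omega) (by omega)
      rcases c1 with c1 | c1 | c1 <;> rcases c2 with c2 | c2 | c2 <;> omega
    · have c1 := cov 2 (by omega) (by omega) (by omega)
      have c2 := cov 4 (by omega) (by omega) (by omega)
      rcases c1 with c1 | c1 | c1 <;> rcases c2 with c2 | c2 | c2 <;> omega
    · have c1 := cov 4 (by omega) (by omega) (by omega)
      have c2 := cov 5 (by omega) (by omega) (by omega)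
      rcases c1 with c1 | c1 | c1 <;> rcases c2 with c2 | c2 | c2 <;> omega
  · -- the lowest element u0
    by_cases he : e0 = 0
    · subst he
      have := (avoid _ hu0 0 s0).2.2.2.2.2
      exact this (by ring)
    have he1 : 0 < e0 := by omega
    have hal3 : al % 3 = 1 ∨ al % 3 = 2 := by omega
    have hga3 : ga % 3 = al % 3 := by omega
    -- r ≡ e0
    have q1 : ¬ U (al + ga + e0) := by
      intro h
      have := (uni _ _ hu0 h 0 0 s0 s0 (Or.inr (by ring))).1
      omega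
    have q2 : ¬ U (ga + e0) := by
      intro h
      have := (uni _ _ hu0 h 0 al s0 s1 (Or.inr (by ring))).1
      omega
    rw [hr _ (by omega)] at q1 q2
    have hre : (3 : ℤ) ∣ e0 - r := by
      rcases hal3 with h | h <;> omega
    have pos : ∀ x, e0 < x → (3 : ℤ) ∣ x - e0 → U x := by
      intro x hx h
      rw [hr x hx]; omega
    rcases lt_or_gt_of_ne hne with hlt | hgt
    · -- al < ga
      have hx := pos (e0 + ga - al) (by omega) (by omega)
      have := (uni _ _ hu0 hx al al s1 s1 (Or.inr (by ring))).1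
      omega
    · -- ga < al
      have hd : U (e0 + (al - ga)) := pos _ (by omega) (by omega)
      rcases cover (e0 + al) (by omega) with h | h | h | ⟨u, hu, p, hp, h⟩
      · omega
      · omega
      · -- e0 = ga
        have := (avoid _ hu0 (al + ga) s2).2.2.2.2.1
        exact this (by omega)
      · have hl := low u hu
        rcases hp with hp | hp | hp
        · rcases h with h | h
          · have e : u = e0 + al := by omega
            rw [e, hr _ (by omega)] at hu
            rcases hal3 with h | h <;> omega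
          · -- u = -(e0 + al)
            have := (uni _ _ hu0 hu (al + ga) al s2 s1 (Or.inl (by omega))).1
            omega
        · rcases h with h | h
          · -- u = e0
            have := (uni _ _ hu0 hu (al + ga) 0 s2 s0 (Or.inr (by omega))).1
            omega
          · omega
        · rcases h with h | h
          · -- u = e0 - ga
            have := (uni _ _ hd hu 0 al s0 s1 (Or.inl (by omega))).1
            omega
          · omega

theorem triJoin_aux (G : SimpleGraph V) (a b c : V) (h : TriJoin G a b c) {k : ℕ} (hk : 1 ≤ k)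
    (f : V → ℕ) (hf : Function.Injective f)
    (hbij : Set.BijOn (edgeLabel f) G.edgeSet {n | k ≤ n})
    (h1 : f a < f b) (h2 : f b < f c) : False := by
  obtain ⟨hab, hbc, hac, hrest⟩ := h
  -- labels
  have lab_ge : ∀ u w, G.Adj u w → k ≤ ((f u : ℤ) - (f w : ℤ)).natAbs := fun u w huw =>
    hbij.mapsTo (show s(u, w) ∈ G.edgeSet from huw)
  have lab_inj : ∀ u w u' w', G.Adj u w → G.Adj u' w' →
      ((f u : ℤ) - (f w : ℤ)).natAbs = ((f u' : ℤ) - (f w' : ℤ)).natAbs →
      (u = u' ∧ w = w') ∨ (u = w' ∧ w = u') := fun u w u' w' huw huw' e =>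
    Sym2.eq_iff.1 (hbij.injOn (show s(u, w) ∈ G.edgeSet from huw)
      (show s(u', w') ∈ G.edgeSet from huw') e)
  set A : ℤ := (f c : ℤ) - f b with hA
  set C : ℤ := (f b : ℤ) - f a with hC
  have hA0 : 0 < A := by omega
  have hC0 : 0 < C := by omega
  set g : ℤ := (Int.gcd A C : ℤ) with hg
  have hg0 : 0 < g := by
    have : 0 < Int.gcd A C := Int.gcd_pos_of_ne_zero_left _ (by omega)
    omega
  obtain ⟨al, hal⟩ : g ∣ A := Int.gcd_dvd_left ..
  obtain ⟨ga, hga⟩ : g ∣ C := Int.gcd_dvd_right ..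
  have hal0 : 0 < al := by
    by_contra hcon
    have : g * al ≤ 0 := mul_nonpos_of_nonneg_of_nonpos hg0.le (by omega)
    omega
  have hga0 : 0 < ga := by
    by_contra hcon
    have : g * ga ≤ 0 := mul_nonpos_of_nonneg_of_nonpos hg0.le (by omega)
    omega
  have hcop : IsCoprime al ga := by
    have e := Int.gcd_eq_gcd_ab A C
    refine ⟨Int.gcdA A C, Int.gcdB A C, ?_⟩
    have e2 : g * 1 = g * (Int.gcdA A C * al + Int.gcdB A C * ga) := by
      rw [mul_one]
      calc g = A * Int.gcdA A C + C * Int.gcdB A C := e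
        _ = g * al * Int.gcdA A C + g * ga * Int.gcdB A C := by rw [← hal, ← hga]
        _ = _ := by ring
    exact (mul_left_cancel₀ (ne_of_gt hg0) e2).symm
  set K : ℤ := ((k : ℤ) - 1) / g + 1 with hK
  have hKm : ∀ m : ℤ, K ≤ m ↔ (k : ℤ) ≤ g * m := by
    intro m
    have := Int.ediv_lt_iff_lt_mul (a := (k : ℤ) - 1) (b := m) hg0
    rw [hK]
    constructor
    · intro h
      have := this.1 (by omega)
      rw [mul_comm]; omega
    · intro h
      have := this.2 (by rw [mul_comm]; omega)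
      omega
  -- the vertex attached to a shift
  have vert : ∀ p, Sh al ga p → ∃ w, (w = a ∨ w = b ∨ w = c) ∧ (f w : ℤ) = f c - g * p := by
    rintro p (rfl | rfl | rfl)
    · exact ⟨c, Or.inr (Or.inr rfl), by ring⟩
    · exact ⟨b, Or.inr (Or.inl rfl), by rw [← hal]; omega⟩
    · exact ⟨a, Or.inl rfl, by rw [mul_add, ← hal, ← hga]; omega⟩
  refine core (fun x => ∃ v, v ≠ a ∧ v ≠ b ∧ v ≠ c ∧ (∀ w, G.Adj v w ↔ w = a ∨ w = b ∨ w = c) ∧
    (f v : ℤ) = f c + g * x) al ga K ?_ ?_ ?_ ?_ hcop ?_ ?_ ?_ ?_ ?_ ?_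
  · have : 0 ≤ ((k : ℤ) - 1) / g := Int.ediv_nonneg (by omega) hg0.le
    omega
  · rw [hKm, ← hal]
    have := lab_ge b c hbc
    omega
  · rw [hKm, ← hga]
    have := lab_ge a b hab
    omega
  · rintro rfl
    have := lab_inj a b b c hab hbc (by omega)
    rcases this with ⟨e, -⟩ | ⟨e, -⟩
    · exact hab.ne e
    · exact hac.ne e
  · refine ⟨-(f c : ℤ), ?_⟩
    rintro x ⟨v, -, -, -, -, hv⟩
    by_contra hcon
    have hx : x < 0 := by omega
    have : g * x ≤ 1 * x := mul_le_mul_of_nonpos_right (by omega) hx.le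
    omega
  · rintro ⟨v, -, -, hvc, -, hv⟩
    apply hvc
    apply hf
    have : g * (0 : ℤ) = 0 := mul_zero g
    omega
  · rintro x ⟨v, -, -, -, hadj, hv⟩ p hp
    obtain ⟨w, hw, hfw⟩ := vert p hp
    have := lab_ge v w ((hadj w).2 hw)
    have e : (f v : ℤ) - f w = g * (x + p) := by rw [hv, hfw]; ring
    rw [e] at this
    rcases le_total 0 (x + p) with h0 | h0
    · left
      rw [hKm]
      have : 0 ≤ g * (x + p) := mul_nonneg hg0.le h0
      omega
    · right
      have h3 : K ≤ -(x + p) := by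
        rw [hKm]
        have : g * (x + p) ≤ 0 := mul_nonpos_of_nonneg_of_nonpos hg0.le h0
        rw [mul_neg]; omega
      omega
  · intro m hm
    have hm' := (hKm m).1 hm
    obtain ⟨e, he, hlab⟩ := hbij.surjOn (show (g * m).toNat ∈ {n | k ≤ n} by
      show k ≤ (g * m).toNat; omega)
    induction e using Sym2.ind with
    | _ u w =>
      have huw : G.Adj u w := he
      have hlab' : ((f u : ℤ) - (f w : ℤ)).natAbs = (g * m).toNat := hlab
      have key : ∀ v w, v ≠ a → v ≠ b → v ≠ c → G.Adj v w →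
          ((f v : ℤ) - (f w : ℤ)).natAbs = (g * m).toNat →
          ∃ u, (∃ v, v ≠ a ∧ v ≠ b ∧ v ≠ c ∧ (∀ w, G.Adj v w ↔ w = a ∨ w = b ∨ w = c) ∧
            (f v : ℤ) = f c + g * u) ∧ ∃ p, Sh al ga p ∧ (u + p = m ∨ u + p = -m) := by
        intro v w hva hvb hvc hvw hl
        have hadj : ∀ w, G.Adj v w ↔ w = a ∨ w = b ∨ w = c := by
          rcases hrest v hva hvb hvc with h | h
          · exact absurd hvw (h w)
          · exact h
        obtain ⟨p, hp, hfw⟩ : ∃ p, Sh al ga p ∧ (f w : ℤ) = f c - g * p := by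
          rcases (hadj w).1 hvw with rfl | rfl | rfl
          · exact ⟨al + ga, Or.inr (Or.inr rfl), by rw [mul_add, ← hal, ← hga]; omega⟩
          · exact ⟨al, Or.inr (Or.inl rfl), by rw [← hal]; omega⟩
          · exact ⟨0, Or.inl rfl, by ring⟩
        rcases le_total (f w) (f v) with hle | hle
        · refine ⟨m - p, ⟨v, hva, hvb, hvc, hadj, ?_⟩, p, hp, Or.inl (by ring)⟩
          rw [mul_sub]; omega
        · refine ⟨-m - p, ⟨v, hva, hvb, hvc, hadj, ?_⟩, p, hp, Or.inr (by ring)⟩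
          rw [mul_sub, mul_neg]; omega
      by_cases hu : u = a ∨ u = b ∨ u = c
      · by_cases hw : w = a ∨ w = b ∨ w = c
        · have canc : ∀ x : ℤ, g * m = g * x → m = x := fun x hx =>
            mul_left_cancel₀ (ne_of_gt hg0) hx
          have e3 : g * (al + ga) = A + C := by rw [mul_add, ← hal, ← hga]
          rcases hu with rfl | rfl | rfl <;> rcases hw with rfl | rfl | rfl
          · exact absurd huw (G.loopless.irrefl _)
          · right; left; apply canc; rw [← hga]; omega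
          · right; right; left; apply canc; rw [e3]; omega
          · right; left; apply canc; rw [← hga]; omega
          · exact absurd huw (G.loopless.irrefl _)
          · left; apply canc; rw [← hal]; omega
          · right; right; left; apply canc; rw [e3]; omega
          · left; apply canc; rw [← hal]; omega
          · exact absurd huw (G.loopless.irrefl _)
        · push Not at hw
          right; right; right
          exact key w u hw.1 hw.2.1 hw.2.2 huw.symm (by omega)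
      · push Not at hu
        right; right; right
        exact key u w hu.1 hu.2.1 hu.2.2 huw hlab'
  · rintro x y ⟨v, hva, hvb, hvc, hadj, hv⟩ ⟨v', hva', hvb', hvc', hadj', hv'⟩ p q hp hq e
    obtain ⟨w, hw, hfw⟩ := vert p hp
    obtain ⟨w', hw', hfw'⟩ := vert q hq
    have e1 : (f v : ℤ) - f w = g * (x + p) := by rw [hv, hfw]; ring
    have e2 : (f v' : ℤ) - f w' = g * (y + q) := by rw [hv', hfw']; ring
    have e3 : ((f v : ℤ) - f w).natAbs = ((f v' : ℤ) - f w').natAbs := by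
      rw [e1, e2]
      rcases e with e | e
      · rw [e]
      · rw [e, mul_neg, Int.natAbs_neg]
    rcases lab_inj v w v' w' ((hadj w).2 hw) ((hadj' w').2 hw') e3 with ⟨i1, i2⟩ | ⟨i1, i2⟩
    · subst i1; subst i2
      constructor
      · exact mul_left_cancel₀ (ne_of_gt hg0) (by omega)
      · exact mul_left_cancel₀ (ne_of_gt hg0) (by omega)
    · exfalso
      subst i1
      rcases hw' with h | h | h
      · exact hva h
      · exact hvb h
      · exact hvc h
  · rintro x ⟨v, hva, hvb, hvc, hadj, hv⟩ p hp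
    obtain ⟨w, hw, hfw⟩ := vert p hp
    have e1 : (f v : ℤ) - f w = g * (x + p) := by rw [hv, hfw]; ring
    have hvw := (hadj w).2 hw
    have gen : ∀ u u', (u = a ∨ u = b ∨ u = c) → (u' = a ∨ u' = b ∨ u' = c) → G.Adj u u' →
        ((f v : ℤ) - f w).natAbs ≠ ((f u : ℤ) - f u').natAbs := by
      intro u u' hu hu' huu e
      rcases lab_inj v w u u' hvw huu e with ⟨i1, i2⟩ | ⟨i1, i2⟩
      · subst i1
        rcases hu with h | h | h
        · exact hva h
        · exact hvb h
        · exact hvc h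
      · subst i1
        rcases hu' with h | h | h
        · exact hva h
        · exact hvb h
        · exact hvc h
    have g1 := gen b c (Or.inr (Or.inl rfl)) (Or.inr (Or.inr rfl)) hbc
    have g2 := gen a b (Or.inl rfl) (Or.inr (Or.inl rfl)) hab
    have g3 := gen a c (Or.inl rfl) (Or.inr (Or.inr rfl)) hac
    rw [e1] at g1 g2 g3
    have e3 : g * (al + ga) = A + C := by rw [mul_add, ← hal, ← hga]
    refine ⟨?_, ?_, ?_, ?_, ?_, ?_⟩ <;> intro h
    · rw [h, ← hal] at g1; omega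
    · rw [h, ← hga] at g2; omega
    · rw [h, e3] at g3; omega
    · rw [h, mul_neg, ← hal] at g1; omega
    · rw [h, mul_neg, ← hga] at g2; omega
    · rw [h, mul_neg, e3] at g3; omega

theorem not_kgraceful_triJoin (G : SimpleGraph V) (a b c : V) (h : TriJoin G a b c) {k : ℕ}
    (hk : 1 ≤ k) : ¬ KGraceful G k := by
  rintro ⟨f, hf, hbij⟩
  obtain ⟨hab, hbc, hac, hrest⟩ := id h
  have e1 : f a ≠ f b := fun e => hab.ne (hf e)
  have e2 : f b ≠ f c := fun e => hbc.ne (hf e)
  have e3 : f a ≠ f c := fun e => hac.ne (hf e)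
  have rot : ∀ x y z : V, ({x, y, z} : Set V) = {a, b, c} → G.Adj x y → G.Adj y z →
      G.Adj x z → f x < f y → f y < f z → False := by
    intro x y z hS hxy hyz hxz l1 l2
    refine triJoin_aux G x y z ⟨hxy, hyz, hxz, ?_⟩ hk f hf hbij l1 l2
    have hmem : ∀ w, (w = x ∨ w = y ∨ w = z) ↔ (w = a ∨ w = b ∨ w = c) := by
      intro w
      have := Set.ext_iff.1 hS w
      simpa using this
    intro v hx hy hz
    have hv : ¬ (v = a ∨ v = b ∨ v = c) := by
      rw [← hmem]; push Not; exact ⟨hx, hy, hz⟩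
    push Not at hv
    rcases hrest v hv.1 hv.2.1 hv.2.2 with h | h
    · exact Or.inl h
    · right; intro w; rw [h, hmem]
  rcases lt_or_gt_of_ne e1 with l1 | l1 <;> rcases lt_or_gt_of_ne e2 with l2 | l2 <;>
    rcases lt_or_gt_of_ne e3 with l3 | l3
  · exact rot a b c rfl hab hbc hac l1 l2
  · omega
  · exact rot a c b (by ext; simp; tauto) hac hbc.symm hab l3 l2
  · exact rot c a b (by ext; simp; tauto) hac.symm hab hbc.symm l3 l1
  · exact rot b a c (by ext; simp; tauto) hab.symm hac hbc l1 l3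
  · exact rot b c a (by ext; simp; tauto) hbc hac.symm hab.symm l2 l3
  · omega
  · exact rot c b a (by ext; simp; tauto) hbc.symm hab.symm hac.symm l2 l1

/-- distance of two naturals -/
def ds (x y : ℕ) : ℕ := ((x : ℤ) - (y : ℤ)).natAbs

open Classical in
/-- neighbours of `v` in `C` -/
noncomputable def nb (G : SimpleGraph V) (C : Finset V) (v : V) : Finset V :=
  C.filter (fun c => G.Adj v c)

theorem mem_nb {G : SimpleGraph V} {C : Finset V} {v c : V} :
    c ∈ nb G C v ↔ c ∈ C ∧ G.Adj v c := by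
  classical
  simp [nb]

theorem assemble [Countable V] (G : SimpleGraph V) (k : ℕ) (C : Finset V)
    (hcov : ∀ u v, G.Adj u v → u ∈ C ∨ v ∈ C) (f0 : V → ℕ)
    (hinj : ∀ c ∈ C, ∀ c' ∈ C, f0 c = f0 c' → c = c') (U : Finset V → Set ℕ)
    (hcl : ∀ v, v ∉ C → {w | w ∉ C ∧ nb G C w = nb G C v}.Infinite)
    (hU : ∀ v, v ∉ C → (U (nb G C v)).Infinite)
    (hdis : ∀ v w, v ∉ C → w ∉ C → ∀ x, x ∈ U (nb G C v) → x ∈ U (nb G C w) →
      nb G C v = nb G C w)
    (hC : ∀ v, v ∉ C → ∀ x ∈ U (nb G C v), ∀ c ∈ C, x ≠ f0 c)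
    (L1 : ∀ c ∈ C, ∀ c' ∈ C, G.Adj c c' → k ≤ ds (f0 c) (f0 c'))
    (L2 : ∀ v, v ∉ C → ∀ x ∈ U (nb G C v), ∀ a ∈ nb G C v, k ≤ ds x (f0 a))
    (D1 : ∀ c ∈ C, ∀ c' ∈ C, ∀ b ∈ C, ∀ b' ∈ C, G.Adj c c' → G.Adj b b' →
      ds (f0 c) (f0 c') = ds (f0 b) (f0 b') → s(c, c') = s(b, b'))
    (D2 : ∀ v, v ∉ C → ∀ x ∈ U (nb G C v), ∀ a ∈ nb G C v, ∀ c ∈ C, ∀ c' ∈ C, G.Adj c c' →
      ds x (f0 a) ≠ ds (f0 c) (f0 c'))
    (D3 : ∀ v, v ∉ C → ∀ x ∈ U (nb G C v), ∀ a ∈ nb G C v, ∀ w, w ∉ C → ∀ y ∈ U (nb G C w),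
      ∀ b ∈ nb G C w, ds x (f0 a) = ds y (f0 b) → x = y ∧ a = b)
    (S : ∀ l, k ≤ l → (∃ c ∈ C, ∃ c' ∈ C, G.Adj c c' ∧ ds (f0 c) (f0 c') = l) ∨
      ∃ v, v ∉ C ∧ ∃ x ∈ U (nb G C v), ∃ a ∈ nb G C v, ds x (f0 a) = l) :
    KGraceful G k := by
  classical
  -- equivalences for all classes
  have heq : ∀ A : Finset V, (∃ v, v ∉ C ∧ nb G C v = A) →
      Nonempty ({w : V // w ∉ C ∧ nb G C w = A} ≃ U A) := by
    rintro A ⟨v, hv, rfl⟩
    have i1 : Infinite {w : V // w ∉ C ∧ nb G C w = nb G C v} := (hcl v hv).to_subtype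
    have i2 : Infinite (U (nb G C v)) := (hU v hv).to_subtype
    exact nonempty_equiv_of_countable
  let E : ∀ A : Finset V, (∃ v, v ∉ C ∧ nb G C v = A) →
      ({w : V // w ∉ C ∧ nb G C w = A} ≃ U A) := fun A h => Classical.choice (heq A h)
  let f : V → ℕ := fun v => if h : v ∈ C then f0 v else
    ((E (nb G C v) ⟨v, h, rfl⟩) ⟨v, h, rfl⟩ : ℕ)
  have fC : ∀ v, v ∈ C → f v = f0 v := fun v h => dif_pos h
  have fN : ∀ v (h : v ∉ C), f v = ((E (nb G C v) ⟨v, h, rfl⟩) ⟨v, h, rfl⟩ : ℕ) :=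
    fun v h => dif_neg h
  have fU : ∀ v, v ∉ C → f v ∈ U (nb G C v) := by
    intro v h
    rw [fN v h]
    exact Subtype.coe_prop _
  have fsame : ∀ v w, v ∉ C → w ∉ C → nb G C v = nb G C w → f v = f w → v = w := by
    intro v w hv hw hvw hf
    rw [fN v hv, fN w hw] at hf
    have : ∀ (A : Finset V) (hA : ∃ v, v ∉ C ∧ nb G C v = A) (h : nb G C w = A),
        ((E (nb G C w) ⟨w, hw, rfl⟩) ⟨w, hw, rfl⟩ : ℕ) = ((E A hA) ⟨w, hw, h⟩ : ℕ) := by
      rintro A hA rfl; rfl
    rw [this _ ⟨v, hv, rfl⟩ hvw.symm] at hf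
    have h2 := (E (nb G C v) ⟨v, hv, rfl⟩).injective (Subtype.ext hf)
    exact congrArg Subtype.val h2
  have fsurj : ∀ v, v ∉ C → ∀ x ∈ U (nb G C v), ∃ w, w ∉ C ∧ nb G C w = nb G C v ∧ f w = x := by
    intro v hv x hx
    obtain ⟨⟨w, hw, hwv⟩, he⟩ := (E (nb G C v) ⟨v, hv, rfl⟩).surjective ⟨x, hx⟩
    refine ⟨w, hw, hwv, ?_⟩
    rw [fN w hw]
    have : ∀ (A : Finset V) (hA : ∃ v, v ∉ C ∧ nb G C v = A) (h : nb G C w = A),
        ((E (nb G C w) ⟨w, hw, rfl⟩) ⟨w, hw, rfl⟩ : ℕ) = ((E A hA) ⟨w, hw, h⟩ : ℕ) := by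
      rintro A hA rfl; rfl
    rw [this _ ⟨v, hv, rfl⟩ hwv]
    exact congrArg Subtype.val he
  have finj : Function.Injective f := by
    intro v w hvw
    by_cases hv : v ∈ C <;> by_cases hw : w ∈ C
    · rw [fC v hv, fC w hw] at hvw; exact hinj v hv w hw hvw
    · exfalso
      rw [fC v hv] at hvw
      exact hC w hw _ (fU w hw) v hv hvw.symm
    · exfalso
      rw [fC w hw] at hvw
      exact hC v hv _ (fU v hv) w hw hvw
    · exact fsame v w hv hw (hdis v w hv hw _ (fU v hv) (hvw ▸ fU w hw)) hvw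
  -- normal form of an edge
  have norm : ∀ e ∈ G.edgeSet, (∃ c ∈ C, ∃ c' ∈ C, G.Adj c c' ∧ e = s(c, c')) ∨
      ∃ v, v ∉ C ∧ ∃ a ∈ nb G C v, e = s(v, a) := by
    intro e he
    induction e using Sym2.ind with
    | _ u w =>
      have huw : G.Adj u w := he
      by_cases hu : u ∈ C <;> by_cases hw : w ∈ C
      · exact Or.inl ⟨u, hu, w, hw, huw, rfl⟩
      · exact Or.inr ⟨w, hw, u, mem_nb.2 ⟨hu, huw.symm⟩, Sym2.eq_swap⟩
      · exact Or.inr ⟨u, hu, w, mem_nb.2 ⟨hw, huw⟩, rfl⟩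
      · rcases hcov u w huw with h | h
        · exact absurd h hu
        · exact absurd h hw
  have labC : ∀ c ∈ C, ∀ c' ∈ C, edgeLabel f s(c, c') = ds (f0 c) (f0 c') := by
    intro c hc c' hc'
    show ((f c : ℤ) - (f c' : ℤ)).natAbs = _
    rw [fC c hc, fC c' hc']; rfl
  have labN : ∀ v, v ∉ C → ∀ a ∈ nb G C v, edgeLabel f s(v, a) = ds (f v) (f0 a) := by
    intro v hv a ha
    show ((f v : ℤ) - (f a : ℤ)).natAbs = _
    rw [fC a (mem_nb.1 ha).1]; rfl
  refine ⟨f, finj, ?_, ?_, ?_⟩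
  · intro e he
    show k ≤ edgeLabel f e
    rcases norm e he with ⟨c, hc, c', hc', ha, rfl⟩ | ⟨v, hv, a, ha, rfl⟩
    · rw [labC c hc c' hc']; exact L1 c hc c' hc' ha
    · rw [labN v hv a ha]; exact L2 v hv _ (fU v hv) a ha
  · intro e he e' he' hee
    rcases norm e he with ⟨c, hc, c', hc', ha, rfl⟩ | ⟨v, hv, a, ha, rfl⟩ <;>
    rcases norm e' he' with ⟨b, hb, b', hb', hab, rfl⟩ | ⟨w, hw, b, hb, rfl⟩
    · rw [labC c hc c' hc', labC b hb b' hb'] at hee
      exact D1 c hc c' hc' b hb b' hb' ha hab hee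
    · rw [labC c hc c' hc', labN w hw b hb] at hee
      exact absurd hee.symm (D2 w hw _ (fU w hw) b hb c hc c' hc' ha)
    · rw [labN v hv a ha, labC b hb b' hb'] at hee
      exact absurd hee (D2 v hv _ (fU v hv) a ha b hb b' hb' hab)
    · rw [labN v hv a ha, labN w hw b hb] at hee
      obtain ⟨h1, h2⟩ := D3 v hv _ (fU v hv) a ha w hw _ (fU w hw) b hb hee
      rw [finj h1, h2]
  · intro l hl
    rcases S l hl with ⟨c, hc, c', hc', ha, hl'⟩ | ⟨v, hv, x, hx, a, ha, hl'⟩
    · exact ⟨s(c, c'), ha, by rw [labC c hc c' hc', hl']⟩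
    · obtain ⟨w, hw, hwv, hfw⟩ := fsurj v hv x hx
      have ha' : a ∈ nb G C w := by rw [hwv]; exact ha
      exact ⟨s(w, a), (mem_nb.1 ha').2, by rw [labN w hw a ha', hfw, hl']⟩

/-- enlarge a finite vertex cover so that all classes of outer vertices are infinite -/
theorem good_cover (G : SimpleGraph V) (C0 : Finset V)
    (hcov : ∀ u v, G.Adj u v → u ∈ C0 ∨ v ∈ C0) :
    ∃ C : Finset V, C0 ⊆ C ∧ (∀ v, v ∉ C → nb G C v = nb G C0 v) ∧
      (∀ v, v ∉ C → {w | w ∉ C ∧ nb G C w = nb G C v}.Infinite) ∧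
      (∀ v, v ∉ C0 → {w | w ∉ C0 ∧ nb G C0 w = nb G C0 v}.Infinite → v ∉ C) := by
  classical
  set bad : Set V := {v | v ∉ C0 ∧ {w | w ∉ C0 ∧ nb G C0 w = nb G C0 v}.Finite}
  have hbad : bad.Finite := by
    have : bad ⊆ ⋃ A ∈ (C0.powerset.filter fun A => {w | w ∉ C0 ∧ nb G C0 w = A}.Finite),
        {w | w ∉ C0 ∧ nb G C0 w = A} := by
      intro v hv
      simp only [Set.mem_iUnion]
      refine ⟨nb G C0 v, ?_, hv.1, rfl⟩
      rw [Finset.mem_filter, Finset.mem_powerset]
      exact ⟨fun x hx => (mem_nb.1 hx).1, hv.2⟩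
    refine Set.Finite.subset (Set.Finite.biUnion (Finset.finite_toSet _) ?_) this
    intro A hA
    exact (Finset.mem_filter.1 (Finset.mem_coe.1 hA)).2
  set C := C0 ∪ hbad.toFinset
  have hsub : C0 ⊆ C := Finset.subset_union_left
  have hnb : ∀ v, v ∉ C → nb G C v = nb G C0 v := by
    intro v hv
    ext c
    rw [mem_nb, mem_nb]
    constructor
    · rintro ⟨_, h2⟩
      rcases hcov v c h2 with h | h
      · exact absurd (hsub h) hv
      · exact ⟨h, h2⟩
    · rintro ⟨h1, h2⟩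
      exact ⟨hsub h1, h2⟩
  have hmem : ∀ v, v ∈ C ↔ v ∈ C0 ∨ v ∈ bad := by
    intro v
    rw [Finset.mem_union, Set.Finite.mem_toFinset]
  refine ⟨C, hsub, hnb, ?_, ?_⟩
  · intro v hv
    have hv' := hv
    rw [hmem, not_or] at hv'
    have hinf : {w | w ∉ C0 ∧ nb G C0 w = nb G C0 v}.Infinite := fun hfin =>
      hv'.2 ⟨hv'.1, hfin⟩
    have : {w | w ∉ C0 ∧ nb G C0 w = nb G C0 v} = {w | w ∉ C ∧ nb G C w = nb G C v} := by
      ext w
      simp only [Set.mem_ofPred_eq]
      constructor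
      · rintro ⟨h1, h2⟩
        have hw : w ∉ C := by
          rw [hmem, not_or]
          refine ⟨h1, fun hb => hb.2.not_infinite ?_⟩
          rw [h2]; exact hinf
        exact ⟨hw, by rw [hnb w hw, hnb v hv, h2]⟩
      · rintro ⟨h1, h2⟩
        refine ⟨fun h => h1 (hsub h), ?_⟩
        rw [← hnb w h1, ← hnb v hv, h2]
    rw [← this]
    exact hinf
  · intro v hv hinf
    rw [hmem, not_or]
    exact ⟨hv, fun hb => hinf hb.2⟩

/-- Golomb values -/
theorem golomb (C : Finset V) (s0 : V) :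
    ∃ g : V → ℕ, g s0 = 0 ∧ ∀ a ∈ insert s0 (C : Set V), ∀ b ∈ insert s0 (C : Set V),
      ∀ c ∈ insert s0 (C : Set V), ∀ e ∈ insert s0 (C : Set V), a ≠ b →
      (g a : ℤ) - g b = g c - g e → a = c ∧ b = e := by
  classical
  induction C using Finset.induction_on with
  | empty =>
    refine ⟨fun _ => 0, rfl, ?_⟩
    intro a ha b hb c _ e _ hab
    simp only [Finset.coe_empty, insert_empty_eq, Set.mem_singleton_iff] at ha hb
    exact absurd (ha.trans hb.symm) hab
  | insert x C hx ih =>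
    obtain ⟨g, hg0, hg⟩ := ih
    by_cases hxs : x = s0
    · subst hxs
      refine ⟨g, hg0, ?_⟩
      simpa using hg
    set B := C.sup g
    have hB : ∀ c ∈ insert s0 (C : Set V), g c ≤ B := by
      intro c hc
      rcases hc with rfl | hc
      · rw [hg0]; exact Nat.zero_le _
      · exact Finset.le_sup (f := g) (Finset.mem_coe.1 hc)
    have hnx : ∀ c ∈ insert s0 (C : Set V), c ≠ x := by
      rintro c (rfl | hc) rfl
      · exact hxs rfl
      · exact hx (Finset.mem_coe.1 hc)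
    refine ⟨Function.update g x (2 * B + 1), by rw [Function.update_of_ne (Ne.symm hxs)]; exact hg0,
      ?_⟩
    have hval : ∀ c ∈ insert s0 ((insert x C : Finset V) : Set V),
        (c = x ∧ Function.update g x (2 * B + 1) c = 2 * B + 1) ∨
        (c ∈ insert s0 (C : Set V) ∧ Function.update g x (2 * B + 1) c = g c) := by
      intro c hc
      by_cases hcx : c = x
      · subst hcx; left; simp
      · right
        refine ⟨?_, Function.update_of_ne hcx _ _⟩
        rcases hc with hc | hc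
        · exact Or.inl hc
        · rw [Finset.coe_insert] at hc
          rcases hc with hc | hc
          · exact absurd hc hcx
          · exact Or.inr hc
    intro a ha b hb c hc e he hab heq
    rcases hval a ha with ⟨a1, a2⟩ | ⟨a1, a2⟩ <;> rcases hval b hb with ⟨b1, b2⟩ | ⟨b1, b2⟩ <;>
    rcases hval c hc with ⟨c1, c2⟩ | ⟨c1, c2⟩ <;> rcases hval e he with ⟨e1, e2⟩ | ⟨e1, e2⟩ <;>
    rw [a2, b2, c2, e2] at heq
    · exact absurd (a1.trans b1.symm) hab
    · exact absurd (a1.trans b1.symm) hab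
    · exact absurd (a1.trans b1.symm) hab
    · exact absurd (a1.trans b1.symm) hab
    · have := hB b b1; omega
    · -- a = x, c = x
      refine ⟨a1.trans c1.symm, ?_⟩
      by_contra hbe
      have h := hg b b1 e e1 b b1 b b1 hbe (by omega)
      exact hbe h.2.symm
    · have := hB b b1; have := hB c c1; omega
    · have := hB b b1; have := hB c c1; omega
    · have := hB a a1; omega
    · have := hB a a1; have := hB e e1; omega
    · -- b = x, e = x
      refine ⟨?_, b1.trans e1.symm⟩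
      by_contra hac
      have h := hg a a1 c c1 a a1 a a1 hac (by omega)
      exact hac h.2.symm
    · have := hB a a1; have := hB c c1; have := hB e e1; omega
    · exact absurd (hg a a1 b b1 a a1 a a1 hab (by omega)).2.symm hab
    · have := hB a a1; have := hB b b1; have := hB e e1; omega
    · have := hB a a1; have := hB b b1; have := hB c c1; omega
    · exact hg a a1 b b1 c c1 e e1 hab heq

theorem rep {d r r' m m' : ℕ} (h : r < d) (h' : r' < d) (e : r + d * m = r' + d * m') :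
    r = r' ∧ m = m' := by
  have h0 : 0 < d := by omega
  have e1 : (r + d * m) % d = r := by rw [Nat.add_mul_mod_self_left, Nat.mod_eq_of_lt h]
  have e2 : (r' + d * m') % d = r' := by rw [Nat.add_mul_mod_self_left, Nat.mod_eq_of_lt h']
  have hr : r = r' := by rw [← e1, ← e2, e]
  subst hr
  exact ⟨rfl, Nat.eq_of_mul_eq_mul_left h0 (by omega)⟩

theorem ds_aux {r d p h : ℕ} (hle : h ≤ p) : ds (r + d * p) (d * h) = r + d * (p - h) := by
  have h2 : d * h ≤ d * p := Nat.mul_le_mul_left d hle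
  show (((r + d * p : ℕ) : ℤ) - ((d * h : ℕ) : ℤ)).natAbs = r + d * (p - h)
  rw [Nat.mul_sub]
  push_cast
  omega

theorem exists_idx (C : Finset V) : ∃ idx : Finset V → ℕ,
    (∀ A ∈ C.powerset, idx A < C.powerset.card) ∧
    ∀ A ∈ C.powerset, ∀ B ∈ C.powerset, idx A = idx B → A = B := by
  classical
  refine ⟨fun A => if h : A ∈ C.powerset then (C.powerset.equivFin ⟨A, h⟩ : ℕ) else 0, ?_, ?_⟩
  · intro A hA
    simp only [hA, dif_pos]
    exact (C.powerset.equivFin ⟨A, hA⟩).2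
  · intro A hA B hB h
    simp only [hA, hB, dif_pos] at h
    have := C.powerset.equivFin.injective (Fin.ext h)
    exact congrArg Subtype.val this

/-- numbering when some vertex `s0` has infinitely many neighbours of degree one -/
theorem kgraceful_pendant [Countable V] (G : SimpleGraph V) (k : ℕ) (hk : 1 ≤ k)
    (C : Finset V) (hcov : ∀ u v, G.Adj u v → u ∈ C ∨ v ∈ C)
    (hcl : ∀ v, v ∉ C → {w | w ∉ C ∧ nb G C w = nb G C v}.Infinite)
    (s0 : V) (hs0 : s0 ∈ C) (hpen : ∃ v, v ∉ C ∧ nb G C v = {s0})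
    (hiso : (∃ v, v ∉ C ∧ nb G C v = ∅) → ∃ v, v ∉ C ∧ ∃ a ∈ nb G C v, ∃ b ∈ nb G C v, a ≠ b) :
    KGraceful G k := by
  classical
  obtain ⟨g, hg0, hg⟩ := golomb C s0
  obtain ⟨idx, hidx, hidxinj⟩ := exists_idx C
  set N0 := C.powerset.card
  set d := k + N0 + 1 with hd
  have hd0 : 0 < d := by omega
  set G0 := C.sup g with hG0
  have hgC : ∀ c ∈ C, g c ≤ G0 := fun c hc => Finset.le_sup (f := g) hc
  have ginj : ∀ a ∈ C, ∀ b ∈ C, g a = g b → a = b := by
    intro a ha b hb h
    by_contra hne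
    have := hg a (Or.inr ha) b (Or.inr hb) a (Or.inr ha) a (Or.inr ha) hne (by omega)
    exact hne this.2.symm
  have gpos : ∀ a ∈ C, a ≠ s0 → 1 ≤ g a := by
    intro a ha hne
    by_contra hcon
    exact hne (ginj a ha s0 hs0 (by omega))
  have nbsub : ∀ v, nb G C v ⊆ C := fun v c hc => (mem_nb.1 hc).1
  -- heights
  let hh : V → ℕ := fun c => G0 + 1 - g c
  have hh_le : ∀ c ∈ C, hh c ≤ G0 + 1 ∧ 1 ≤ hh c ∧ hh c + g c = G0 + 1 := by
    intro c hc
    have := hgC c hc
    show G0 + 1 - g c ≤ G0 + 1 ∧ 1 ≤ G0 + 1 - g c ∧ G0 + 1 - g c + g c = G0 + 1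
    omega
  have hhs0 : hh s0 = G0 + 1 := by show G0 + 1 - g s0 = _; omega
  have hhinj : ∀ a ∈ C, ∀ b ∈ C, hh a = hh b → a = b := by
    intro a ha b hb h
    have h1 := hh_le a ha
    have h2 := hh_le b hb
    exact ginj a ha b hb (by omega)
  let f0 : V → ℕ := fun c => d * hh c
  let r : Finset V → ℕ := fun A => k + idx A
  have hr : ∀ A, A ⊆ C → k ≤ r A ∧ r A + 1 < d := by
    intro A hA
    have := hidx A (Finset.mem_powerset.2 hA)
    show k ≤ k + idx A ∧ k + idx A + 1 < d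
    omega
  have hrinj : ∀ A, A ⊆ C → ∀ B, B ⊆ C → r A = r B → A = B := by
    intro A hA B hB h
    have h' : k + idx A = k + idx B := h
    exact hidxinj A (Finset.mem_powerset.2 hA) B (Finset.mem_powerset.2 hB) (by omega)
  let P : Finset V → ℕ → ℕ := fun A j =>
    if s0 ∈ A then G0 + 1 + j * (A.sup g + 1) else G0 + j * A.sup g
  have P1 : ∀ A j, s0 ∈ A → P A j = G0 + 1 + j * (A.sup g + 1) := fun A j h => if_pos h
  have P2 : ∀ A j, s0 ∉ A → P A j = G0 + j * A.sup g := fun A j h => if_neg h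
  have Pge : ∀ A, A ⊆ C → ∀ j, ∀ a ∈ A, hh a ≤ P A j := by
    intro A hA j a ha
    have h1 := hh_le a (hA ha)
    by_cases hs : s0 ∈ A
    · rw [P1 A j hs]; omega
    · rw [P2 A j hs]
      have := gpos a (hA ha) (fun h => hs (h ▸ ha))
      omega
  -- the label of a chain edge
  have clab : ∀ A, A ⊆ C → ∀ j, ∀ a ∈ A, ds (r A + d * P A j) (f0 a) =
      r A + d * (P A j - hh a) := by
    intro A hA j a ha
    exact ds_aux (Pge A hA j a ha)
  have Minj : ∀ A, A ⊆ C → ∀ j j', ∀ a ∈ A, ∀ b ∈ A, P A j - hh a = P A j' - hh b →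
      j = j' ∧ a = b := by
    intro A hA j j' a ha b hb h
    have h1 := hh_le a (hA ha)
    have h2 := hh_le b (hA hb)
    have g1 : g a ≤ A.sup g := Finset.le_sup (f := g) ha
    have g2 : g b ≤ A.sup g := Finset.le_sup (f := g) hb
    by_cases hs : s0 ∈ A
    · rw [P1 A j hs, P1 A j' hs] at h
      have e : g a + (A.sup g + 1) * j = g b + (A.sup g + 1) * j' := by
        rw [mul_comm _ j, mul_comm _ j']; omega
      obtain ⟨e1, e2⟩ := rep (by omega) (by omega) e
      exact ⟨e2, ginj a (hA ha) b (hA hb) e1⟩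
    · rw [P2 A j hs, P2 A j' hs] at h
      have p1 := gpos a (hA ha) (fun h => hs (h ▸ ha))
      have p2 := gpos b (hA hb) (fun h => hs (h ▸ hb))
      have e : (g a - 1) + A.sup g * j = (g b - 1) + A.sup g * j' := by
        rw [mul_comm _ j, mul_comm _ j']; omega
      obtain ⟨e1, e2⟩ := rep (by omega) (by omega) e
      exact ⟨e2, ginj a (hA ha) b (hA hb) (by omega)⟩
  have Pinj : ∀ A, A ⊆ C → A.Nonempty → ∀ j j', P A j = P A j' → j = j' := by
    rintro A hA ⟨a, ha⟩ j j' h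
    exact (Minj A hA j j' a ha a ha (by rw [h])).1
  let act : Finset V → Prop := fun A => ∃ v, v ∉ C ∧ nb G C v = A
  have actsub : ∀ A, act A → A ⊆ C := by
    rintro A ⟨v, -, rfl⟩; exact nbsub v
  -- used labels
  let L : Set ℕ := {l | (∃ c ∈ C, ∃ c' ∈ C, G.Adj c c' ∧ ds (f0 c) (f0 c') = l) ∨
    ∃ A, act A ∧ A ≠ {s0} ∧ ∃ j, ∃ a ∈ A, r A + d * (P A j - hh a) = l}
  have cedge : ∀ c ∈ C, ∀ c' ∈ C, ds (f0 c) (f0 c') = d * ds (hh c) (hh c') := by
    intro c _ c' _
    show (((d * hh c : ℕ) : ℤ) - ((d * hh c' : ℕ) : ℤ)).natAbs =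
      d * ((hh c : ℤ) - (hh c' : ℤ)).natAbs
    push_cast
    rw [← mul_sub, Int.natAbs_mul, Int.natAbs_natCast]
  have cedge0 : ∀ c ∈ C, ∀ c' ∈ C, c ≠ c' → 0 < ds (hh c) (hh c') := by
    intro c hc c' hc' hne
    have : hh c ≠ hh c' := fun h => hne (hhinj c hc c' hc' h)
    show 0 < ((hh c : ℤ) - (hh c' : ℤ)).natAbs
    omega
  -- labels of L in residue classes
  have Lres : ∀ l ∈ L, (∃ m, l = 0 + d * m) ∨ ∃ A, A ⊆ C ∧ ∃ m, l = r A + d * m := by
    rintro l (⟨c, hc, c', hc', -, rfl⟩ | ⟨A, hA, -, j, a, -, rfl⟩)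
    · left; exact ⟨_, by rw [cedge c hc c' hc', zero_add]⟩
    · right; exact ⟨A, actsub A hA, _, rfl⟩
  let U : Finset V → Set ℕ := fun A =>
    if A = {s0} then {x | ∃ l, k ≤ l ∧ l ∉ L ∧ x = d * (G0 + 1) + l}
    else if A = ∅ then {x | (∀ c ∈ C, x ≠ f0 c) ∧ (∀ B, act B → B ≠ {s0} → B ≠ ∅ → ∀ j,
      x ≠ r B + d * P B j) ∧ ∀ l, k ≤ l → l ∉ L → x ≠ d * (G0 + 1) + l}
    else {x | ∃ j, x = r A + d * P A j}
  have U1 : ∀ x, x ∈ U {s0} ↔ ∃ l, k ≤ l ∧ l ∉ L ∧ x = d * (G0 + 1) + l := by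
    intro x
    show x ∈ (if ({s0} : Finset V) = {s0} then _ else _ : Set ℕ) ↔ _
    rw [if_pos rfl]; rfl
  have hne0 : (∅ : Finset V) ≠ {s0} := (Finset.singleton_ne_empty s0).symm
  have U0 : ∀ x, x ∈ U ∅ ↔ (∀ c ∈ C, x ≠ f0 c) ∧ (∀ B, act B → B ≠ {s0} → B ≠ ∅ → ∀ j,
      x ≠ r B + d * P B j) ∧ ∀ l, k ≤ l → l ∉ L → x ≠ d * (G0 + 1) + l := by
    intro x
    show x ∈ (if (∅ : Finset V) = {s0} then _ else if (∅ : Finset V) = ∅ then _ else _ : Set ℕ) ↔ _
    rw [if_neg hne0, if_pos rfl]; rfl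
  have U2 : ∀ A, A ≠ {s0} → A ≠ ∅ → ∀ x, x ∈ U A ↔ ∃ j, x = r A + d * P A j := by
    intro A h1 h2 x
    show x ∈ (if A = {s0} then _ else if A = ∅ then _ else _ : Set ℕ) ↔ _
    rw [if_neg h1, if_neg h2]; rfl
  -- chain positions are not pendant positions
  have cp : ∀ A, act A → A ≠ {s0} → A ≠ ∅ → ∀ j, ∀ l, l ∉ L →
      r A + d * P A j ≠ d * (G0 + 1) + l := by
    intro A hA h1 h2 j l hl e
    apply hl
    have hAC := actsub A hA
    have hrA := hr A hAC
    right
    refine ⟨A, hA, h1, ?_⟩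
    by_cases hs : s0 ∈ A
    · refine ⟨j, s0, hs, ?_⟩
      have hp := P1 A j hs
      rw [hhs0, Nat.mul_sub]
      have : d * (G0 + 1) ≤ d * P A j := Nat.mul_le_mul_left d (by omega)
      omega
    · -- the largest element
      obtain ⟨a, ha, hamax⟩ := Finset.exists_mem_eq_sup A (Finset.nonempty_iff_ne_empty.2 h2) g
      have hp := P2 A j hs
      have p1 := gpos a (hAC ha) (fun h => hs (h ▸ ha))
      have h3 := hh_le a (hAC ha)
      rcases j with _ | j
      · exfalso
        rw [hp] at e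
        have e1 : d * (G0 + 0 * A.sup g) = d * G0 := by ring
        have e2 : d * (G0 + 1) = d * G0 + d := by ring
        omega
      · refine ⟨j, a, ha, ?_⟩
        have hp' := P2 A j hs
        have e0 : P A (j + 1) = P A j + A.sup g := by rw [hp, hp']; ring
        have e1 : P A j - hh a + (G0 + 1) = P A (j + 1) := by
          have := Pge A hAC j a ha
          omega
        have e2 : d * (P A j - hh a) + d * (G0 + 1) = d * P A (j + 1) := by
          rw [← mul_add, e1]
        omega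
  -- the class of residue d - 1 is free
  have free : ∀ m, (d - 1) + d * m ∉ L := by
    intro m hm
    rcases Lres _ hm with ⟨m', e⟩ | ⟨A, hA, m', e⟩
    · have := (rep (by omega) hd0 e).1; omega
    · have h1 := hr A hA
      have := (rep (by omega) (by omega) e).1; omega
  refine assemble G k C hcov f0 ?_ U hcl ?_ ?_ ?_ ?_ ?_ ?_ ?_ ?_ ?_
  · -- f0 injective
    intro c hc c' hc' h
    exact hhinj c hc c' hc' (Nat.eq_of_mul_eq_mul_left hd0 h)
  · -- infinite
    intro v hv
    by_cases h1 : nb G C v = {s0}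
    · rw [h1]
      refine Set.infinite_of_injective_forall_mem (f := fun m : ℕ => d * (G0 + 1) + ((d - 1) + d * m))
        ?_ ?_
      · intro m m' h
        have h' : d * (G0 + 1) + ((d - 1) + d * m) = d * (G0 + 1) + ((d - 1) + d * m') := h
        exact (rep (d := d) (r := d - 1) (r' := d - 1) (by omega) (by omega) (by omega)).2
      · intro m
        rw [U1]
        exact ⟨_, by omega, free m, rfl⟩
    by_cases h2 : nb G C v = ∅
    · rw [h2]
      obtain ⟨w, hw, a, ha, b, hb, hab⟩ := hiso ⟨v, hv, h2⟩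
      set A := nb G C w with hAdef
      have hactA : act A := ⟨w, hw, rfl⟩
      have hAC : A ⊆ C := nbsub w
      have hA1 : A ≠ {s0} := by
        intro h
        rw [h, Finset.mem_singleton] at ha hb
        exact hab (ha.trans hb.symm)
      have hA2 : A ≠ ∅ := Finset.nonempty_iff_ne_empty.1 ⟨a, ha⟩
      -- an element whose label is not used as a position
      obtain ⟨c, hcA, hc1⟩ : ∃ c ∈ A, ∀ j j', P A j - hh c + (G0 + 1) ≠ P A j' := by
        by_cases hs : s0 ∈ A
        · obtain ⟨c, hc, hcs⟩ : ∃ c ∈ A, c ≠ s0 := by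
            by_cases h : a = s0
            · exact ⟨b, hb, fun h' => hab (h.trans h'.symm)⟩
            · exact ⟨a, ha, h⟩
          refine ⟨c, hc, fun j j' e => ?_⟩
          have h3 := hh_le c (hAC hc)
          have h4 := Pge A hAC j c hc
          have h5 : g c ≤ A.sup g := Finset.le_sup (f := g) hc
          have h6 := gpos c (hAC hc) hcs
          rw [P1 A j hs] at e h4
          rw [P1 A j' hs] at e
          have e' : g c + (A.sup g + 1) * j = 0 + (A.sup g + 1) * j' := by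
            rw [mul_comm _ j, mul_comm _ j']; omega
          have := (rep (by omega) (by omega) e').1
          omega
        · obtain ⟨c, hc, hcs⟩ : ∃ c ∈ A, g c ≠ A.sup g := by
            by_cases h : g a = A.sup g
            · refine ⟨b, hb, fun h' => hab (ginj a (hAC ha) b (hAC hb) (h.trans h'.symm))⟩
            · exact ⟨a, ha, h⟩
          refine ⟨c, hc, fun j j' e => ?_⟩
          have h3 := hh_le c (hAC hc)
          have h4 := Pge A hAC j c hc
          have h5 : g c ≤ A.sup g := Finset.le_sup (f := g) hc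
          have h6 := gpos c (hAC hc) (fun h => hs (h ▸ hc))
          rw [P2 A j hs] at e h4
          rw [P2 A j' hs] at e
          have e' : g c + A.sup g * j = 0 + A.sup g * j' := by
            rw [mul_comm _ j, mul_comm _ j']; omega
          have := (rep (by omega) (by omega) e').1
          omega
      refine Set.infinite_of_injective_forall_mem
        (f := fun j : ℕ => r A + d * (P A j - hh c + (G0 + 1))) ?_ ?_
      · intro j j' h
        have h' : r A + d * (P A j - hh c + (G0 + 1)) = r A + d * (P A j' - hh c + (G0 + 1)) := h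
        have hrA := hr A hAC
        have := (rep (by omega) (by omega) h').2
        exact (Minj A hAC j j' c hcA c hcA (by omega)).1
      · intro j
        rw [U0]
        have hrA := hr A hAC
        refine ⟨?_, ?_, ?_⟩
        · intro c' hc' e
          have e' : r A + d * (P A j - hh c + (G0 + 1)) = 0 + d * hh c' := by
            rw [zero_add]; exact e
          have := (rep (by omega) hd0 e').1
          omega
        · intro B hB hB1 hB2 j' e
          have hrB := hr B (actsub B hB)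
          obtain ⟨e1, e2⟩ := rep (by omega) (by omega) e
          have := hrinj A hAC B (actsub B hB) e1
          rw [← this] at e2
          exact hc1 j j' e2
        · intro l hl hlL e
          apply hlL
          right
          refine ⟨A, hactA, hA1, j, c, hcA, ?_⟩
          rw [mul_add] at e
          omega
    · obtain ⟨a, ha⟩ := Finset.nonempty_iff_ne_empty.2 h2
      refine Set.infinite_of_injective_forall_mem
        (f := fun j : ℕ => r (nb G C v) + d * P (nb G C v) j) ?_ ?_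
      · intro j j' h
        have h' : r (nb G C v) + d * P (nb G C v) j = r (nb G C v) + d * P (nb G C v) j' := h
        have hrA := hr _ (nbsub v)
        have := (rep (by omega) (by omega) h').2
        exact Pinj _ (nbsub v) ⟨a, ha⟩ j j' this
      · intro j
        rw [U2 _ h1 h2]
        exact ⟨j, rfl⟩
  · -- disjoint
    intro v w hv hw x hx hy
    have hav : act (nb G C v) := ⟨v, hv, rfl⟩
    have haw : act (nb G C w) := ⟨w, hw, rfl⟩
    by_cases v1 : nb G C v = {s0}
    · by_cases w1 : nb G C w = {s0}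
      · rw [v1, w1]
      · exfalso
        rw [v1, U1] at hx
        obtain ⟨l, hl, hlL, rfl⟩ := hx
        by_cases w2 : nb G C w = ∅
        · rw [w2, U0] at hy
          exact hy.2.2 l hl hlL rfl
        · rw [U2 _ w1 w2] at hy
          obtain ⟨j, e⟩ := hy
          exact cp _ haw w1 w2 j l hlL e.symm
    by_cases v2 : nb G C v = ∅
    · by_cases w2 : nb G C w = ∅
      · rw [v2, w2]
      · exfalso
        rw [v2, U0] at hx
        by_cases w1 : nb G C w = {s0}
        · rw [w1, U1] at hy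
          obtain ⟨l, hl, hlL, e⟩ := hy
          exact hx.2.2 l hl hlL e
        · rw [U2 _ w1 w2] at hy
          obtain ⟨j, e⟩ := hy
          exact hx.2.1 _ haw w1 w2 j e
    · rw [U2 _ v1 v2] at hx
      obtain ⟨j, rfl⟩ := hx
      by_cases w1 : nb G C w = {s0}
      · exfalso
        rw [w1, U1] at hy
        obtain ⟨l, hl, hlL, e⟩ := hy
        exact cp _ hav v1 v2 j l hlL e
      by_cases w2 : nb G C w = ∅
      · exfalso
        rw [w2, U0] at hy
        exact hy.2.1 _ hav v1 v2 j rfl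
      · rw [U2 _ w1 w2] at hy
        obtain ⟨j', e⟩ := hy
        have h1 := hr _ (nbsub v)
        have h2 := hr _ (nbsub w)
        exact hrinj _ (nbsub v) _ (nbsub w) (rep (by omega) (by omega) e).1
  · -- not values on C
    intro v hv x hx c hc e
    by_cases v1 : nb G C v = {s0}
    · rw [v1, U1] at hx
      obtain ⟨l, hl, hlL, rfl⟩ := hx
      have h1 := (hh_le c hc).1
      have h2 : d * hh c ≤ d * (G0 + 1) := Nat.mul_le_mul_left d h1
      have e' : d * (G0 + 1) + l = d * hh c := e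
      omega
    by_cases v2 : nb G C v = ∅
    · rw [v2, U0] at hx
      exact hx.1 c hc e
    · rw [U2 _ v1 v2] at hx
      obtain ⟨j, rfl⟩ := hx
      have h1 := hr _ (nbsub v)
      have e' : r (nb G C v) + d * P (nb G C v) j = 0 + d * hh c := by rw [zero_add]; exact e
      have := (rep (by omega) hd0 e').1
      omega
  · -- labels inside C are large
    intro c hc c' hc' h
    rw [cedge c hc c' hc']
    have := cedge0 c hc c' hc' h.ne
    calc k ≤ d := by omega
      _ = d * 1 := (mul_one d).symm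
      _ ≤ _ := Nat.mul_le_mul_left d this
  · -- other labels are large
    intro v hv x hx a ha
    by_cases v1 : nb G C v = {s0}
    · rw [v1, U1] at hx
      rw [v1, Finset.mem_singleton] at ha
      subst ha
      obtain ⟨l, hl, hlL, rfl⟩ := hx
      show k ≤ (((d * (G0 + 1) + l : ℕ) : ℤ) - ((d * hh a : ℕ) : ℤ)).natAbs
      rw [hhs0]
      omega
    by_cases v2 : nb G C v = ∅
    · rw [v2] at ha; exact absurd ha (Finset.notMem_empty a)
    · rw [U2 _ v1 v2] at hx
      obtain ⟨j, rfl⟩ := hx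
      rw [clab _ (nbsub v) j a ha]
      have := hr _ (nbsub v)
      omega
  · -- distinct labels inside C
    intro c hc c' hc' b hb b' hb' h h' e
    rw [cedge c hc c' hc', cedge b hb b' hb'] at e
    have e1 := Nat.eq_of_mul_eq_mul_left hd0 e
    have e2 : ((hh c : ℤ) - (hh c' : ℤ)).natAbs = ((hh b : ℤ) - (hh b' : ℤ)).natAbs := e1
    have h1 := hh_le c hc
    have h2 := hh_le c' hc'
    have h3 := hh_le b hb
    have h4 := hh_le b' hb'
    rw [Sym2.eq_iff]
    by_cases hc1 : (hh c : ℤ) - (hh c' : ℤ) = (hh b : ℤ) - (hh b' : ℤ)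
    · left
      have := hg c (Or.inr hc) c' (Or.inr hc') b (Or.inr hb) b' (Or.inr hb') h.ne (by omega)
      exact this
    · right
      have := hg c (Or.inr hc) c' (Or.inr hc') b' (Or.inr hb') b (Or.inr hb) h.ne (by omega)
      exact this
  · -- chain labels and labels inside C
    intro v hv x hx a ha c hc c' hc' h e
    by_cases v1 : nb G C v = {s0}
    · rw [v1, U1] at hx
      rw [v1, Finset.mem_singleton] at ha
      subst ha
      obtain ⟨l, hl, hlL, rfl⟩ := hx
      apply hlL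
      left
      refine ⟨c, hc, c', hc', h, ?_⟩
      rw [← e]
      show (((d * (G0 + 1) + l : ℕ) : ℤ) - ((d * hh a : ℕ) : ℤ)).natAbs = l
      rw [hhs0]
      omega
    by_cases v2 : nb G C v = ∅
    · rw [v2] at ha; exact absurd ha (Finset.notMem_empty a)
    · rw [U2 _ v1 v2] at hx
      obtain ⟨j, rfl⟩ := hx
      rw [clab _ (nbsub v) j a ha, cedge c hc c' hc', ← zero_add (d * ds (hh c) (hh c'))] at e
      have h1 := hr _ (nbsub v)
      have := (rep (by omega) hd0 e).1
      omega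
  · -- chain labels are distinct
    have plab : ∀ l, ds (d * (G0 + 1) + l) (f0 s0) = l := by
      intro l
      show (((d * (G0 + 1) + l : ℕ) : ℤ) - ((d * hh s0 : ℕ) : ℤ)).natAbs = l
      rw [hhs0]
      omega
    intro v hv x hx a ha w hw y hy b hb e
    have hav : act (nb G C v) := ⟨v, hv, rfl⟩
    have haw : act (nb G C w) := ⟨w, hw, rfl⟩
    by_cases v2 : nb G C v = ∅
    · rw [v2] at ha; exact absurd ha (Finset.notMem_empty a)
    by_cases w2 : nb G C w = ∅
    · rw [w2] at hb; exact absurd hb (Finset.notMem_empty b)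
    by_cases v1 : nb G C v = {s0}
    · rw [v1, U1] at hx
      rw [v1, Finset.mem_singleton] at ha
      subst ha
      obtain ⟨l, hl, hlL, rfl⟩ := hx
      rw [plab] at e
      by_cases w1 : nb G C w = {a}
      · rw [w1, U1] at hy
        rw [w1, Finset.mem_singleton] at hb
        subst hb
        obtain ⟨l', hl', hlL', rfl⟩ := hy
        rw [plab] at e
        exact ⟨by rw [e], rfl⟩
      · exfalso
        rw [U2 _ w1 w2] at hy
        obtain ⟨j, rfl⟩ := hy
        rw [clab _ (nbsub w) j b hb] at e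
        exact hlL (Or.inr ⟨_, haw, w1, j, b, hb, e.symm⟩)
    · rw [U2 _ v1 v2] at hx
      obtain ⟨j, rfl⟩ := hx
      rw [clab _ (nbsub v) j a ha] at e
      by_cases w1 : nb G C w = {s0}
      · exfalso
        rw [w1, U1] at hy
        rw [w1, Finset.mem_singleton] at hb
        subst hb
        obtain ⟨l', hl', hlL', rfl⟩ := hy
        rw [plab] at e
        exact hlL' (Or.inr ⟨_, hav, v1, j, a, ha, e⟩)
      · rw [U2 _ w1 w2] at hy
        obtain ⟨j', rfl⟩ := hy
        rw [clab _ (nbsub w) j' b hb] at e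
        have h1 := hr _ (nbsub v)
        have h2 := hr _ (nbsub w)
        obtain ⟨e1, e2⟩ := rep (by omega) (by omega) e
        have hvw := hrinj _ (nbsub v) _ (nbsub w) e1
        rw [← hvw] at e2 hb
        obtain ⟨e3, e4⟩ := Minj _ (nbsub v) j j' a ha b hb e2
        subst e3
        rw [← hvw]
        exact ⟨rfl, e4⟩
  · -- all labels occur
    intro l hl
    by_cases hlL : l ∈ L
    · rcases hlL with h | ⟨A, hA, hA1, j, a, ha, e⟩
      · exact Or.inl h
      · right
        obtain ⟨v, hv, rfl⟩ := hA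
        have hA2 : nb G C v ≠ ∅ := Finset.nonempty_iff_ne_empty.1 ⟨a, ha⟩
        refine ⟨v, hv, r (nb G C v) + d * P (nb G C v) j, ?_, a, ha, ?_⟩
        · rw [U2 _ hA1 hA2]; exact ⟨j, rfl⟩
        · rw [clab _ (nbsub v) j a ha, e]
    · right
      obtain ⟨v, hv, hvs⟩ := hpen
      refine ⟨v, hv, d * (G0 + 1) + l, ?_, s0, ?_, ?_⟩
      · rw [hvs, U1]; exact ⟨l, hl, hlL, rfl⟩
      · rw [hvs]; exact Finset.mem_singleton_self s0
      · show (((d * (G0 + 1) + l : ℕ) : ℤ) - ((d * hh s0 : ℕ) : ℤ)).natAbs = l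
        rw [hhs0]
        omega

theorem exists_bottoms (k d : ℕ) (hd : 0 < d) (L : Set ℕ) : ∃ Bt : ℕ → Prop,
    ∀ n, Bt n ↔ (k ≤ n ∧ n ∉ L ∧ ¬ (d ≤ n ∧ Bt (n - d))) := by
  let F : (n : ℕ) → ((m : ℕ) → m < n → Prop) → Prop := fun n rec =>
    k ≤ n ∧ n ∉ L ∧ ¬ ∃ h : d ≤ n, rec (n - d) (by omega)
  refine ⟨Nat.lt_wfRel.wf.fix F, fun n => ?_⟩
  rw [WellFounded.fix_eq]
  show (k ≤ n ∧ n ∉ L ∧ ¬ ∃ h : d ≤ n, Nat.lt_wfRel.wf.fix F (n - d)) ↔ _
  simp only [exists_prop]

/-- the complement of `R` is the disjoint union of `B` and `B + d` -/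
def Dom (d : ℕ) (R B : ℕ → Prop) : Prop :=
  (∀ j, B j → ¬ R j ∧ ¬ R (j + d) ∧ ¬ B (j + d)) ∧ ∀ j, ¬ R j → B j ∨ ∃ i, B i ∧ j = i + d

theorem dom_of_down (d : ℕ) (hd : 0 < d) (R : ℕ → Prop) (h : ∀ j, R (j + d) → R j) :
    ∃ B, Dom d R B := by
  obtain ⟨B, hB⟩ := exists_bottoms 0 d hd {j | R j}
  refine ⟨B, fun j hj => ⟨((hB j).1 hj).2.1, fun h' => ((hB j).1 hj).2.1 (h j h'), fun h' => ?_⟩,
    fun j hj => ?_⟩
  · apply ((hB _).1 h').2.2
    rw [Nat.add_sub_cancel]
    exact ⟨by omega, hj⟩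
  · by_cases hj2 : d ≤ j ∧ B (j - d)
    · exact Or.inr ⟨j - d, hj2.2, by omega⟩
    · exact Or.inl ((hB j).2 ⟨Nat.zero_le _, hj, hj2⟩)

/-- what we need for a class `A` -/
def Tiles (A : Finset V) (z : V → ℕ) (D : ℕ) (X : Set ℕ) (R B : ℕ → Prop) : Prop :=
  X.Infinite ∧ (∀ x ∈ X, ∀ a ∈ A, z a ≤ x) ∧
    (∀ x ∈ X, ∀ y ∈ X, ∀ a ∈ A, ∀ b ∈ A, x - z a = y - z b → x = y ∧ a = b) ∧
    (∀ j, R j ↔ ∃ x ∈ X, ∃ a ∈ A, j = x - z a) ∧ Dom D R B ∧
    ∀ x ∈ X, ∀ i, B i → x ≠ i + D

theorem tilesI (A : Finset V) (z : V → ℕ) (q L p : ℕ) (hq : 0 < q) (hL : 0 < L)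
    (hp : ∀ a ∈ A, z a ≤ p ∧ p - z a < q) (hinj : ∀ a ∈ A, ∀ b ∈ A, z a = z b → a = b)
    (hd : ∀ i j, p + q * i = j + q * L → ∃ i', ∃ a ∈ A, j = (p - z a) + q * i') :
    ∃ X R B, Tiles A z (q * L) X R B := by
  have hRB : ∃ B, Dom (q * L) (fun j => ∃ i', ∃ a ∈ A, j = (p - z a) + q * i') B := by
    refine dom_of_down _ (Nat.mul_pos hq hL) _ ?_
    rintro j ⟨i, a, ha, e⟩
    have h1 := (hp a ha).2
    have hi : L ≤ i := by
      by_contra hcon
      have : q * (i + 1) ≤ q * L := Nat.mul_le_mul_left q (by omega)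
      rw [Nat.mul_add] at this
      omega
    refine ⟨i - L, a, ha, ?_⟩
    have : q * L + q * (i - L) = q * i := by rw [← Nat.mul_add]; congr 1; omega
    omega
  obtain ⟨B, hB⟩ := hRB
  refine ⟨{x | ∃ i, x = p + q * i}, _, B, ?_, ?_, ?_, ?_, hB, ?_⟩
  · refine Set.infinite_of_injective_forall_mem (f := fun i => p + q * i) ?_ fun i => ⟨i, rfl⟩
    intro i j h
    have h : p + q * i = p + q * j := h
    exact Nat.eq_of_mul_eq_mul_left hq (by omega)
  · rintro x ⟨i, rfl⟩ a ha
    have := (hp a ha).1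
    omega
  · rintro x ⟨i, rfl⟩ y ⟨j, rfl⟩ a ha b hb h
    have h1 := hp a ha
    have h2 := hp b hb
    have e : (p - z a) + q * i = (p - z b) + q * j := by omega
    obtain ⟨e1, e2⟩ := rep h1.2 h2.2 e
    refine ⟨by rw [e2], hinj a ha b hb (by omega)⟩
  · intro j
    constructor
    · rintro ⟨i, a, ha, e⟩
      have := (hp a ha).1
      exact ⟨p + q * i, ⟨i, rfl⟩, a, ha, by omega⟩
    · rintro ⟨x, ⟨i, rfl⟩, a, ha, e⟩
      have := (hp a ha).1
      exact ⟨i, a, ha, by omega⟩
  · rintro x ⟨i, rfl⟩ j hj e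
    exact (hB.1 j hj).1 (hd i j e)

theorem tilesII (A : Finset V) (s t : V) (hst : s ≠ t) (z : V → ℕ) (q L : ℕ) (hq : 0 < q)
    (hL : 2 ≤ L)
    (hs : s ∈ A) (ht : t ∈ A) (zs : z s = 0) (zt : z t = q * L)
    (hu : ∀ a ∈ A, a ≠ s → a ≠ t → 0 < z a ∧ z a ≤ q) (hex : ∃ u ∈ A, z u = q)
    (hinj : ∀ a ∈ A, ∀ b ∈ A, z a = z b → a = b) :
    ∃ X R B, Tiles A z (q * L) X R B := by
  classical
  obtain ⟨N, hN⟩ : ∃ N, N = 2 * L - 1 := ⟨_, rfl⟩
  have hN0 : 0 < N := by omega
  -- the block coordinates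
  have qL : q * L = q * (L - 1) + q := by
    have : L = (L - 1) + 1 := by omega
    conv_lhs => rw [this, Nat.mul_add, Nat.mul_one]
  -- offset of the label of `a`
  let off : V → ℕ := fun a => q * L - z a
  have hoff : ∀ a ∈ A, (a = s ∧ off a = 0 + q * L) ∨ (a = t ∧ off a = 0 + q * 0) ∨
      (a ≠ s ∧ a ≠ t ∧ 0 < z a ∧ z a ≤ q ∧ off a = (q - z a) + q * (L - 1)) := by
    intro a ha
    by_cases h1 : a = s
    · left; refine ⟨h1, ?_⟩
      show q * L - z a = _
      rw [h1, zs]; omega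
    by_cases h2 : a = t
    · right; left; refine ⟨h2, ?_⟩
      show q * L - z a = _
      rw [h2, zt]; omega
    · right; right
      have := hu a ha h1 h2
      refine ⟨h1, h2, this.1, this.2, ?_⟩
      show q * L - z a = _
      omega
  -- chains hit by `A`
  let Cs : ℕ → Prop := fun c => ∃ u ∈ A, u ≠ s ∧ u ≠ t ∧ c = q - z u
  let R : ℕ → Prop := fun j => Cs (j % q) ∧
    ((j / q) % N = L - 1 ∨ (j % q = 0 ∧ ((j / q) % N = 0 ∨ (j / q) % N = L)))
  let B : ℕ → Prop := fun j =>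
    (Cs (j % q) ∧ (j / q) % N < L - 1 ∧ ¬ (j % q = 0 ∧ (j / q) % N = 0)) ∨
    (¬ Cs (j % q) ∧ ((j / q) / L) % 2 = 0)
  have hC0 : Cs 0 := by
    obtain ⟨u, hu1, hu2⟩ := hex
    refine ⟨u, hu1, ?_, ?_, by omega⟩
    · rintro rfl; omega
    · rintro rfl
      rw [zt] at hu2
      have : q * 1 < q * L := Nat.mul_lt_mul_of_pos_left (by omega) hq
      omega
  have hmod : ∀ c i, c < q → (c + q * i) % q = c ∧ (c + q * i) / q = i := by
    intro c i hc
    constructor
    · rw [Nat.add_mul_mod_self_left, Nat.mod_eq_of_lt hc]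
    · rw [Nat.add_mul_div_left _ _ hq, Nat.div_eq_of_lt hc, Nat.zero_add]
  have hshift : ∀ j, (j + q * L) % q = j % q ∧ (j + q * L) / q = j / q + L := by
    intro j
    exact ⟨Nat.add_mul_mod_self_left _ _ _, Nat.add_mul_div_left _ _ hq⟩
  have hNm : ∀ i, i % N < N := fun i => Nat.mod_lt _ hN0
  have hmN : ∀ i, i % N < L - 1 → (i + L) % N = i % N + L := by
    intro i hi
    rw [Nat.add_mod, Nat.mod_eq_of_lt (show L < N by omega), Nat.mod_eq_of_lt (by omega)]
  have hdom : Dom (q * L) R B := by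
    constructor
    · intro j hj
      obtain ⟨e1, e2⟩ := hshift j
      rcases hj with ⟨h1, h2, h3⟩ | ⟨h1, h2⟩
      · have h4 := hmN _ h2
        refine ⟨?_, ?_, ?_⟩
        · rintro ⟨-, h | ⟨h, h' | h'⟩⟩
          · omega
          · exact h3 ⟨h, h'⟩
          · omega
        · show ¬ (Cs ((j + q * L) % q) ∧ _)
          rw [e1, e2, h4]
          rintro ⟨-, h | ⟨h, h' | h'⟩⟩
          · omega
          · omega
          · exact h3 ⟨h, by omega⟩
        · show ¬ ((Cs ((j + q * L) % q) ∧ _) ∨ _)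
          rw [e1, e2, h4]
          rintro (⟨-, h, -⟩ | ⟨h, -⟩)
          · omega
          · exact h h1
      · refine ⟨fun h => h1 h.1, ?_, ?_⟩
        · show ¬ (Cs ((j + q * L) % q) ∧ _)
          rw [e1]
          exact fun h => h1 h.1
        · show ¬ ((Cs ((j + q * L) % q) ∧ _) ∨ _)
          rw [e1, e2, Nat.add_div_right _ (by omega : 0 < L)]
          rintro (⟨h, -⟩ | ⟨-, h⟩)
          · exact h1 h
          · omega
    · intro j hj
      by_cases hc : Cs (j % q)
      · by_cases h1 : (j / q) % N < L - 1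
        · left; left
          refine ⟨hc, h1, fun h => hj ⟨hc, Or.inr ⟨h.1, Or.inl h.2⟩⟩⟩
        · right
          have h2 : (j / q) % N ≠ L - 1 := fun h => hj ⟨hc, Or.inl h⟩
          have h3 : L ≤ (j / q) % N := by omega
          have h4 : L ≤ j / q := h3.trans (Nat.mod_le _ _)
          have h5 : q * L ≤ j := (Nat.mul_le_mul_left q h4).trans (Nat.mul_div_le j q)
          obtain ⟨i, hi⟩ : ∃ i, j = i + q * L := ⟨j - q * L, by omega⟩
          obtain ⟨e1, e2⟩ := hshift i
          rw [← hi] at e1 e2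
          refine ⟨i, Or.inl ⟨by rw [← e1]; exact hc, ?_⟩, hi⟩
          have h6 : (i / q) % N = (j / q) % N - L := by
            have h7 := Nat.div_add_mod (j / q) N
            have h8 : i / q = N * ((j / q) / N) + ((j / q) % N - L) := by omega
            rw [h8, Nat.mul_add_mod, Nat.mod_eq_of_lt]
            have := hNm (j / q)
            omega
          have := hNm (j / q)
          refine ⟨by omega, ?_⟩
          rintro ⟨g1, g2⟩
          exact hj ⟨hc, Or.inr ⟨by omega, Or.inr (by omega)⟩⟩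
      · by_cases h1 : ((j / q) / L) % 2 = 0
        · left; right; exact ⟨hc, h1⟩
        · right
          have h3 : L ≤ j / q := by
            by_contra hcon
            rw [Nat.div_eq_of_lt (by omega)] at h1
            omega
          have h5 : q * L ≤ j := (Nat.mul_le_mul_left q h3).trans (Nat.mul_div_le j q)
          obtain ⟨i, hi⟩ : ∃ i, j = i + q * L := ⟨j - q * L, by omega⟩
          obtain ⟨e1, e2⟩ := hshift i
          rw [← hi] at e1 e2
          rw [e2, Nat.add_div_right _ (by omega : 0 < L)] at h1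
          exact ⟨i, Or.inr ⟨by rw [← e1]; exact hc, by omega⟩, hi⟩
  have hRiff : ∀ j, R j ↔ ∃ b, ∃ a ∈ A, j = off a + q * (N * b) := by
    intro j
    constructor
    · rintro ⟨⟨u, hu1, hu2, hu3, hu4⟩, h⟩
      have h7 := Nat.div_add_mod (j / q) N
      have h8 := Nat.div_add_mod j q
      have key : ∀ m, (j / q) % N = m → j = (j % q + q * m) + q * (N * ((j / q) / N)) := by
        intro m hm
        have : q * (j / q) = q * (N * ((j / q) / N)) + q * m := by
          rw [← Nat.mul_add, ← hm, h7]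
        omega
      rcases h with h | ⟨h, h' | h'⟩
      · refine ⟨(j / q) / N, u, hu1, ?_⟩
        have h9 := (hoff u hu1).resolve_left (fun h => hu2 h.1)
        have h10 := (h9.resolve_left (fun h => hu3 h.1)).2.2.2.2
        rw [h10, ← hu4]
        exact key _ h
      · refine ⟨(j / q) / N, t, ht, ?_⟩
        have h9 : off t = 0 := by show q * L - z t = 0; omega
        rw [h9]
        have := key _ h'
        rw [h] at this
        omega
      · refine ⟨(j / q) / N, s, hs, ?_⟩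
        have h9 : off s = q * L := by show q * L - z s = _; omega
        rw [h9]
        have := key _ h'
        rw [h] at this
        omega
    · rintro ⟨b, a, ha, rfl⟩
      rcases hoff a ha with ⟨h1, h2⟩ | ⟨h1, h2⟩ | ⟨h1, h2, h3, h4, h5⟩
      · have e : off a + q * (N * b) = 0 + q * (L + N * b) := by rw [h2, Nat.mul_add]; omega
        obtain ⟨e1, e2⟩ := hmod 0 (L + N * b) hq
        show Cs _ ∧ _
        rw [e, e1, e2, Nat.add_mul_mod_self_left, Nat.mod_eq_of_lt (by omega)]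
        exact ⟨hC0, Or.inr ⟨rfl, Or.inr rfl⟩⟩
      · have e : off a + q * (N * b) = 0 + q * (0 + N * b) := by rw [h2, Nat.mul_add]; omega
        obtain ⟨e1, e2⟩ := hmod 0 (0 + N * b) hq
        show Cs _ ∧ _
        rw [e, e1, e2, Nat.add_mul_mod_self_left, Nat.zero_mod]
        exact ⟨hC0, Or.inr ⟨rfl, Or.inl rfl⟩⟩
      · have e : off a + q * (N * b) = (q - z a) + q * ((L - 1) + N * b) := by
          rw [h5, Nat.mul_add]; omega
        obtain ⟨e1, e2⟩ := hmod (q - z a) ((L - 1) + N * b) (by omega)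
        show Cs _ ∧ _
        rw [e, e1, e2, Nat.add_mul_mod_self_left, Nat.mod_eq_of_lt (show L - 1 < N by omega)]
        exact ⟨⟨a, ha, h1, h2, rfl⟩, Or.inl rfl⟩
  have zle : ∀ a ∈ A, z a ≤ q * L := by
    intro a ha
    by_cases h1 : a = s
    · rw [h1, zs]; omega
    by_cases h2 : a = t
    · rw [h2, zt]
    · have := hu a ha h1 h2
      omega
  have hoffx : ∀ a ∈ A, ∀ b, q * L + q * (N * b) - z a = off a + q * (N * b) := by
    intro a ha b
    have := zle a ha
    show _ = q * L - z a + _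
    omega
  -- labels in (chain, index) coordinates
  have hrep : ∀ a ∈ A, ∃ c m, c < q ∧ m < N ∧ off a = c + q * m ∧
      ((m = L ∧ a = s) ∨ (m = 0 ∧ a = t) ∨ (m = L - 1 ∧ a ≠ s ∧ a ≠ t ∧ c = q - z a)) := by
    intro a ha
    rcases hoff a ha with ⟨h1, h2⟩ | ⟨h1, h2⟩ | ⟨h1, h2, h3, h4, h5⟩
    · exact ⟨0, L, hq, by omega, h2, Or.inl ⟨rfl, h1⟩⟩
    · exact ⟨0, 0, hq, by omega, h2, Or.inr (Or.inl ⟨rfl, h1⟩)⟩
    · exact ⟨q - z a, L - 1, by omega, by omega, h5, Or.inr (Or.inr ⟨rfl, h1, h2, rfl⟩)⟩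
  refine ⟨{x | ∃ b, x = q * L + q * (N * b)}, R, B, ?_, ?_, ?_, ?_, hdom, ?_⟩
  · refine Set.infinite_of_injective_forall_mem (f := fun b => q * L + q * (N * b)) ?_
      fun b => ⟨b, rfl⟩
    intro i j h
    have h : q * L + q * (N * i) = q * L + q * (N * j) := h
    exact Nat.eq_of_mul_eq_mul_left hN0 (Nat.eq_of_mul_eq_mul_left hq (by omega))
  · rintro x ⟨b, rfl⟩ a ha
    have := zle a ha
    omega
  · rintro x ⟨b, rfl⟩ y ⟨b', rfl⟩ a ha a' ha' h
    rw [hoffx a ha, hoffx a' ha'] at h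
    obtain ⟨c, m, hc, hm, e, hcase⟩ := hrep a ha
    obtain ⟨c', m', hc', hm', e', hcase'⟩ := hrep a' ha'
    rw [e, e'] at h
    have h' : c + q * (m + N * b) = c' + q * (m' + N * b') := by
      rw [Nat.mul_add, Nat.mul_add]; omega
    obtain ⟨g1, g2⟩ := rep hc hc' h'
    obtain ⟨g3, g4⟩ := rep hm hm' g2
    refine ⟨by rw [g4], ?_⟩
    rcases hcase with ⟨k1, k2⟩ | ⟨k1, k2⟩ | ⟨k1, k2, k3, k4⟩ <;>
      rcases hcase' with ⟨l1, l2⟩ | ⟨l1, l2⟩ | ⟨l1, l2, l3, l4⟩
    · rw [k2, l2]
    · omega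
    · omega
    · omega
    · rw [k2, l2]
    · omega
    · omega
    · omega
    · have h1 := hu a ha k2 k3
      have h2 := hu a' ha' l2 l3
      exact hinj a ha a' ha' (by omega)
  · intro j
    rw [hRiff]
    constructor
    · rintro ⟨b, a, ha, e⟩
      exact ⟨_, ⟨b, rfl⟩, a, ha, by rw [hoffx a ha]; exact e⟩
    · rintro ⟨x, ⟨b, rfl⟩, a, ha, e⟩
      exact ⟨b, a, ha, by rw [← hoffx a ha]; exact e⟩
  · rintro x ⟨b, rfl⟩ i hi e
    have h1 : R i := (hRiff i).2 ⟨b, t, ht, by
      have : off t = 0 := by show q * L - z t = 0; omega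
      rw [this]; omega⟩
    exact (hdom.1 i hi).1 h1

theorem class_tiles (A : Finset V) (s t : V) (hst : s ≠ t) (n : ℕ) (z e : V → ℕ)
    (zs : z s = 0) (zt : z t = 3 ^ n) (hz : ∀ c ∈ A, c ≠ s → c ≠ t → z c = 3 ^ e c ∧ e c < n)
    (hinj : ∀ a ∈ A, ∀ b ∈ A, z a = z b → a = b) (hne : A.Nonempty)
    (hA : ¬ ∀ c, c ∈ A ↔ c = s ∨ c = t) : ∃ X R B, Tiles A z (3 ^ n) X R B := by
  classical
  have h3 : ∀ m, 0 < 3 ^ m := fun m => pow_pos (by norm_num) m
  have hlt : ∀ c ∈ A, c ≠ s → c ≠ t → z c < 3 ^ n := by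
    intro c hc h1 h2
    obtain ⟨h, h'⟩ := hz c hc h1 h2
    rw [h]
    exact Nat.pow_lt_pow_right (by norm_num) h'
  have hpos : ∀ c ∈ A, c ≠ s → 0 < z c := by
    intro c hc h1
    by_cases h2 : c = t
    · rw [h2, zt]; exact h3 n
    · rw [(hz c hc h1 h2).1]; exact h3 _
  by_cases hs : s ∈ A
  · by_cases ht : t ∈ A
    · -- both
      obtain ⟨u0, hu0, h01, h02⟩ : ∃ u ∈ A, u ≠ s ∧ u ≠ t := by
        by_contra hcon
        push Not at hcon
        refine hA fun c => ⟨fun hc => ?_, ?_⟩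
        · by_cases h : c = s
          · exact Or.inl h
          · exact Or.inr (hcon c hc h)
        · rintro (rfl | rfl)
          · exact hs
          · exact ht
      obtain ⟨u, hu, hmax⟩ := Finset.exists_max_image (A.filter fun u => u ≠ s ∧ u ≠ t) z
        ⟨u0, Finset.mem_filter.2 ⟨hu0, h01, h02⟩⟩
      obtain ⟨huA, hu1, hu2⟩ := Finset.mem_filter.1 hu
      obtain ⟨e1, e2⟩ := hz u huA hu1 hu2
      have hqL : z u * 3 ^ (n - e u) = 3 ^ n := by
        rw [e1, ← pow_add]; congr 1; omega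
      have hL : 2 ≤ 3 ^ (n - e u) := by
        have : 3 ^ 1 ≤ 3 ^ (n - e u) := Nat.pow_le_pow_right (by norm_num) (by omega)
        omega
      rw [← hqL]
      refine tilesII A s t hst z (z u) _ (hpos u huA hu1) hL hs ht zs (by rw [zt, hqL]) ?_
        ⟨u, huA, rfl⟩ hinj
      intro a ha h1 h2
      exact ⟨hpos a ha h1, hmax a (Finset.mem_filter.2 ⟨ha, h1, h2⟩)⟩
    · -- only s
      have := tilesI A z (3 ^ n) 1 (3 ^ n - 1) (h3 n) one_pos ?_ hinj ?_
      · rwa [mul_one] at this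
      · intro a ha
        have h4 := h3 n
        by_cases h1 : a = s
        · rw [h1, zs]; omega
        · have := hlt a ha h1 (fun h => ht (h ▸ ha))
          omega
      · intro i j h
        have h4 := h3 n
        rw [mul_one] at h
        have hi : 1 ≤ i := by
          by_contra hcon
          have : i = 0 := by omega
          rw [this] at h
          omega
        refine ⟨i - 1, s, hs, ?_⟩
        have : 3 ^ n * (i - 1) + 3 ^ n = 3 ^ n * i := by
          rw [← Nat.mul_succ]; congr 1; omega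
        rw [zs]
        omega
  · -- no s
    obtain ⟨u, hu, hmax⟩ := Finset.exists_max_image A z hne
    have hus : u ≠ s := fun h => hs (h ▸ hu)
    obtain ⟨L, hL, hqL⟩ : ∃ L, 0 < L ∧ z u * L = 3 ^ n := by
      by_cases h2 : u = t
      · exact ⟨1, one_pos, by rw [h2, zt, mul_one]⟩
      · obtain ⟨e1, e2⟩ := hz u hu hus h2
        exact ⟨3 ^ (n - e u), h3 _, by rw [e1, ← pow_add]; congr 1; omega⟩
    rw [← hqL]
    have hq := hpos u hu hus
    refine tilesI A z (z u) L (z u) hq hL ?_ hinj ?_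
    · intro a ha
      have h1 := hmax a ha
      have h2 := hpos a ha (fun h => hs (h ▸ ha))
      omega
    · intro i j h
      have h1 : z u * (i + 1) = j + z u * L := by rw [Nat.mul_add, Nat.mul_one]; omega
      have h2 : L ≤ i + 1 := by
        by_contra hcon
        have : z u * (i + 1) < z u * L := Nat.mul_lt_mul_of_pos_left (by omega) hq
        omega
      refine ⟨i + 1 - L, u, hu, ?_⟩
      have : z u * (i + 1 - L) + z u * L = z u * (i + 1) := by rw [← Nat.mul_add]; congr 1; omega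
      omega

theorem pow_sum {p q r w : ℕ} (hp : p = 0 ∨ ∃ i, p = 3 ^ i) (hq : q = 0 ∨ ∃ i, q = 3 ^ i)
    (hr : r = 0 ∨ ∃ i, r = 3 ^ i) (hw : w = 0 ∨ ∃ i, w = 3 ^ i) (h1 : q < p) (h2 : w < r)
    (h : p + w = r + q) : p = r := by
  have hodd : ∀ i, 3 ^ i % 2 = 1 := fun i => by
    rw [Nat.pow_mod]; simp
  rcases hp with rfl | ⟨i, rfl⟩
  · omega
  rcases hr with rfl | ⟨l, rfl⟩
  · omega
  have o1 := hodd i
  have o2 := hodd l
  rcases hq with rfl | ⟨j, rfl⟩ <;> rcases hw with rfl | ⟨m, rfl⟩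
  · omega
  · have := hodd m; omega
  · have := hodd j; omega
  · have hji : j < i := (Nat.pow_lt_pow_iff_right (by norm_num)).1 h1
    have hml : m < l := (Nat.pow_lt_pow_iff_right (by norm_num)).1 h2
    rcases lt_trichotomy i l with hil | hil | hil
    · exfalso
      obtain ⟨l, rfl⟩ : ∃ l', l = l' + 1 := ⟨l - 1, by omega⟩
      have a1 : 3 ^ i ≤ 3 ^ l := Nat.pow_le_pow_right (by norm_num) (by omega)
      have a2 : 3 ^ m ≤ 3 ^ l := Nat.pow_le_pow_right (by norm_num) (by omega)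
      have a3 : 0 < 3 ^ l := pow_pos (by norm_num) l
      have a4 : 3 ^ (l + 1) = 3 * 3 ^ l := pow_succ' 3 l
      rw [a4] at h
      clear o1 o2 h1 h2 a4
      generalize 3 ^ l = L at *
      generalize 3 ^ i = I at *
      generalize 3 ^ m = M at *
      generalize 3 ^ j = J at *
      omega
    · rw [hil]
    · exfalso
      obtain ⟨i, rfl⟩ : ∃ i', i = i' + 1 := ⟨i - 1, by omega⟩
      have a1 : 3 ^ l ≤ 3 ^ i := Nat.pow_le_pow_right (by norm_num) (by omega)
      have a2 : 3 ^ j ≤ 3 ^ i := Nat.pow_le_pow_right (by norm_num) (by omega)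
      have a3 : 0 < 3 ^ i := pow_pos (by norm_num) i
      have a4 : 3 ^ (i + 1) = 3 * 3 ^ i := pow_succ' 3 i
      rw [a4] at h
      clear o1 o2 h1 h2 a4
      generalize 3 ^ l = L at *
      generalize 3 ^ i = I at *
      generalize 3 ^ m = M at *
      generalize 3 ^ j = J at *
      omega

theorem exists_z (C : Finset V) (s t : V) (hst : s ≠ t) : ∃ (n : ℕ) (z e : V → ℕ),
    z s = 0 ∧ z t = 3 ^ n ∧ (∀ c ∈ C, c ≠ s → c ≠ t → z c = 3 ^ e c ∧ e c < n) ∧
    ∀ a ∈ C, ∀ b ∈ C, z a = z b → a = b := by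
  classical
  set C' := (C.erase s).erase t with hC'
  have hmem : ∀ c, c ∈ C' ↔ c ≠ t ∧ c ≠ s ∧ c ∈ C := by
    intro c; rw [hC', Finset.mem_erase, Finset.mem_erase]
  let e : V → ℕ := fun c => if h : c ∈ C' then (C'.equivFin ⟨c, h⟩ : ℕ) else 0
  have he : ∀ c (h : c ∈ C'), e c = (C'.equivFin ⟨c, h⟩ : ℕ) := fun c h => dif_pos h
  let z : V → ℕ := fun c => if c = s then 0 else if c = t then 3 ^ C'.card else 3 ^ e c
  have zs : z s = 0 := if_pos rfl
  have zt : z t = 3 ^ C'.card := by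
    show (if t = s then _ else if t = t then _ else _) = _
    rw [if_neg hst.symm, if_pos rfl]
  have zc : ∀ c, c ≠ s → c ≠ t → z c = 3 ^ e c := by
    intro c h1 h2
    show (if c = s then _ else if c = t then _ else _) = _
    rw [if_neg h1, if_neg h2]
  have hlt : ∀ c ∈ C, c ≠ s → c ≠ t → e c < C'.card := by
    intro c hc h1 h2
    rw [he c ((hmem c).2 ⟨h2, h1, hc⟩)]
    exact (C'.equivFin _).2
  have h3 : ∀ m, 0 < 3 ^ m := fun m => pow_pos (by norm_num) m
  refine ⟨C'.card, z, e, zs, zt, fun c hc h1 h2 => ⟨zc c h1 h2, hlt c hc h1 h2⟩, ?_⟩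
  have hinj3 : ∀ i j, 3 ^ i = 3 ^ j → i = j := fun i j h => Nat.pow_right_injective (by norm_num) h
  intro a ha b hb h
  by_cases a1 : a = s
  · by_cases b1 : b = s
    · rw [a1, b1]
    · exfalso
      rw [a1, zs] at h
      by_cases b2 : b = t
      · rw [b2, zt] at h; have := h3 C'.card; omega
      · rw [zc b b1 b2] at h; have := h3 (e b); omega
  · by_cases b1 : b = s
    · exfalso
      rw [b1, zs] at h
      by_cases a2 : a = t
      · rw [a2, zt] at h; have := h3 C'.card; omega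
      · rw [zc a a1 a2] at h; have := h3 (e a); omega
    · by_cases a2 : a = t
      · by_cases b2 : b = t
        · rw [a2, b2]
        · exfalso
          rw [a2, zt, zc b b1 b2] at h
          have := hinj3 _ _ h
          have := hlt b hb b1 b2
          omega
      · by_cases b2 : b = t
        · exfalso
          rw [b2, zt, zc a a1 a2] at h
          have := hinj3 _ _ h
          have := hlt a ha a1 a2
          omega
        · rw [zc a a1 a2, zc b b1 b2] at h
          have h' := hinj3 _ _ h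
          rw [he a ((hmem a).2 ⟨a2, a1, ha⟩), he b ((hmem b).2 ⟨b2, b1, hb⟩)] at h'
          exact congrArg Subtype.val (C'.equivFin.injective (Fin.ext h'))

theorem kgraceful_two_gen [Countable V] (G : SimpleGraph V) (k : ℕ) (hk : 1 ≤ k)
    (C : Finset V) (hcov : ∀ u v, G.Adj u v → u ∈ C ∨ v ∈ C)
    (hcl : ∀ v, v ∉ C → {w | w ∉ C ∧ nb G C w = nb G C v}.Infinite)
    (s t : V) (hs : s ∈ C) (ht : t ∈ C) (hst : s ≠ t)
    (hex : ∃ v, v ∉ C ∧ ∀ c, c ∈ nb G C v ↔ c = s ∨ c = t) : KGraceful G k := by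
  classical
  obtain ⟨n, z, e, zs, zt, hz, zinj⟩ := exists_z C s t hst
  obtain ⟨idx, hidx, hidxinj⟩ := exists_idx C
  obtain ⟨D, hD⟩ : ∃ D, D = 3 ^ n := ⟨_, rfl⟩
  rw [← hD] at zt
  have hD0 : 0 < D := by rw [hD]; exact pow_pos (by norm_num) n
  set N0 := C.powerset.card
  obtain ⟨γ, hγ⟩ : ∃ γ, γ = k + N0 + 1 := ⟨_, rfl⟩
  have hγ0 : 0 < γ := by omega
  let r : Finset V → ℕ := fun A => k + idx A
  have hr : ∀ A, A ⊆ C → k ≤ r A ∧ r A + 1 < γ := by
    intro A hA
    have := hidx A (Finset.mem_powerset.2 hA)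
    show k ≤ k + idx A ∧ k + idx A + 1 < γ
    omega
  have hrinj : ∀ A, A ⊆ C → ∀ B, B ⊆ C → r A = r B → A = B := by
    intro A hA B hB h
    have h' : k + idx A = k + idx B := h
    exact hidxinj A (Finset.mem_powerset.2 hA) B (Finset.mem_powerset.2 hB) (by omega)
  have nbsub : ∀ v, nb G C v ⊆ C := fun v c hc => (mem_nb.1 hc).1
  have zle : ∀ c ∈ C, z c ≤ D := by
    intro c hc
    by_cases h1 : c = s
    · rw [h1, zs]; omega
    by_cases h2 : c = t
    · rw [h2, zt]
    · rw [(hz c hc h1 h2).1, hD]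
      exact Nat.pow_le_pow_right (by norm_num) (hz c hc h1 h2).2.le
  have zpow : ∀ c ∈ C, z c = 0 ∨ ∃ i, z c = 3 ^ i := by
    intro c hc
    by_cases h1 : c = s
    · left; rw [h1, zs]
    by_cases h2 : c = t
    · right; exact ⟨n, by rw [h2, zt, hD]⟩
    · right; exact ⟨_, (hz c hc h1 h2).1⟩
  let dom : Finset V → Prop := fun A => ∀ c, c ∈ A ↔ c = s ∨ c = t
  have hdata : ∀ A : Finset V, A ⊆ C ∧ A.Nonempty ∧ ¬ dom A →
      ∃ X R B, Tiles A z D X R B := by
    rintro A ⟨h1, h2, h3⟩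
    rw [hD]
    exact class_tiles A s t hst n z e zs (by rw [zt, hD])
      (fun c hc => hz c (h1 hc)) (fun a ha b hb => zinj a (h1 ha) b (h1 hb)) h2 h3
  choose! X R B hT using hdata
  let good : Finset V → Prop := fun A => (A ⊆ C ∧ A.Nonempty ∧ ¬ dom A) ∧ ∃ v, v ∉ C ∧ nb G C v = A
  -- core labels
  let R0 : ℕ → Prop := fun j => j = 0 ∨ ∃ c ∈ C, ∃ c' ∈ C, G.Adj c c' ∧ ds (z c) (z c') = j
  let Rr : ℕ → ℕ → Prop := fun ρ j => (ρ = 0 ∧ R0 j) ∨ (ρ < k ∧ j = 0) ∨
    ∃ A, good A ∧ ρ = r A ∧ R A j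
  have hBr : ∀ ρ, ∃ B' : ℕ → Prop, Dom D (Rr ρ) B' ∧ ∀ A, good A → ρ = r A →
      ∀ j, (B' j ↔ B A j) ∧ (Rr ρ j ↔ R A j) := by
    intro ρ
    by_cases h : ∃ A, good A ∧ ρ = r A
    · obtain ⟨A, hA, rfl⟩ := h
      have hRR : ∀ j, Rr (r A) j ↔ R A j := by
        intro j
        have h1 := hr A hA.1.1
        constructor
        · rintro (⟨h, -⟩ | ⟨h, -⟩ | ⟨A', hA', h, h'⟩)
          · omega
          · omega
          · rw [hrinj A hA.1.1 A' hA'.1.1 h]; exact h'
        · intro h; exact Or.inr (Or.inr ⟨A, hA, rfl, h⟩)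
      have hRR' : Rr (r A) = R A := funext fun j => propext (hRR j)
      refine ⟨B A, ?_, ?_⟩
      · rw [hRR']; exact (hT A hA.1).2.2.2.2.1
      · intro A' hA' h j
        have := hrinj A hA.1.1 A' hA'.1.1 h
        subst this
        exact ⟨Iff.rfl, hRR j⟩
    · have hdown : ∀ j, Rr ρ (j + D) → Rr ρ j := by
        rintro j (⟨h1, h2 | ⟨c, hc, c', hc', h2, h3⟩⟩ | ⟨h1, h2⟩ | ⟨A, hA, h1, -⟩)
        · omega
        · refine Or.inl ⟨h1, Or.inl ?_⟩
          have a1 := zle c hc
          have a2 := zle c' hc'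
          have h3 : ((z c : ℤ) - (z c' : ℤ)).natAbs = j + D := h3
          omega
        · omega
        · exact absurd ⟨A, hA, h1⟩ h
      obtain ⟨B', hB'⟩ := dom_of_down D hD0 _ hdown
      exact ⟨B', hB', fun A hA h' => absurd ⟨A, hA, h'⟩ h⟩
  choose Br hBr1 hBr2 using hBr
  let f0 : V → ℕ := fun c => γ * z c
  have fs : f0 s = γ * 0 := by show γ * z s = _; rw [zs]
  have ft : f0 t = γ * D := by show γ * z t = _; rw [zt]
  -- the sets of positions
  let PD : ℕ → Prop := fun x => ∃ ρ j, ρ < γ ∧ Br ρ j ∧ x = ρ + γ * (j + D)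
  let PT : Finset V → ℕ → Prop := fun A x => ∃ x' ∈ X A, x = r A + γ * x'
  let U : Finset V → Set ℕ := fun A =>
    if dom A then {x | PD x}
    else if A = ∅ then {x | (∀ c ∈ C, x ≠ f0 c) ∧ ¬ PD x ∧ ∀ A', good A' → ¬ PT A' x}
    else {x | PT A x}
  have U1 : ∀ A, dom A → ∀ x, x ∈ U A ↔ PD x := by
    intro A h x
    show x ∈ (if dom A then _ else _ : Set ℕ) ↔ _
    rw [if_pos h]; rfl
  have hdne : ∀ A, dom A → A ≠ ∅ := by
    rintro A h rfl
    exact absurd ((h s).2 (Or.inl rfl)) (Finset.notMem_empty s)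
  have U0 : ∀ x, x ∈ U ∅ ↔ ((∀ c ∈ C, x ≠ f0 c) ∧ ¬ PD x ∧ ∀ A', good A' → ¬ PT A' x) := by
    intro x
    show x ∈ (if dom ∅ then _ else if (∅ : Finset V) = ∅ then _ else _ : Set ℕ) ↔ _
    rw [if_neg (fun h => hdne _ h rfl), if_pos rfl]; rfl
  have U2 : ∀ A, ¬ dom A → A ≠ ∅ → ∀ x, x ∈ U A ↔ PT A x := by
    intro A h h' x
    show x ∈ (if dom A then _ else if A = ∅ then _ else _ : Set ℕ) ↔ _
    rw [if_neg h, if_neg h']; rfl
  have hgood : ∀ v, v ∉ C → ¬ dom (nb G C v) → nb G C v ≠ ∅ → good (nb G C v) := fun v hv h1 h2 =>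
    ⟨⟨nbsub v, Finset.nonempty_iff_ne_empty.2 h2, h1⟩, v, hv, rfl⟩
  -- three kinds of outer vertices
  have kind : ∀ v, v ∉ C → dom (nb G C v) ∨ nb G C v = ∅ ∨
      (good (nb G C v) ∧ ¬ dom (nb G C v) ∧ nb G C v ≠ ∅) := by
    intro v hv
    by_cases h1 : dom (nb G C v)
    · exact Or.inl h1
    by_cases h2 : nb G C v = ∅
    · exact Or.inr (Or.inl h2)
    · exact Or.inr (Or.inr ⟨hgood v hv h1 h2, h1, h2⟩)
  -- labels at the positions
  have labD : ∀ ρ j, ∀ A, dom A → ∀ a ∈ A,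
      (a = t ∧ ds (ρ + γ * (j + D)) (f0 a) = ρ + γ * j) ∨
      (a = s ∧ ds (ρ + γ * (j + D)) (f0 a) = ρ + γ * (j + D)) := by
    intro ρ j A hA a ha
    rcases (hA a).1 ha with rfl | rfl
    · right; refine ⟨rfl, ?_⟩
      rw [fs, ds_aux (Nat.zero_le _), Nat.sub_zero]
    · left; refine ⟨rfl, ?_⟩
      rw [ft, ds_aux (Nat.le_add_left _ _), Nat.add_sub_cancel]
  have labT : ∀ A, good A → ∀ x' ∈ X A, ∀ a ∈ A,
      ds (r A + γ * x') (f0 a) = r A + γ * (x' - z a) := by
    intro A hA x' hx' a ha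
    exact ds_aux ((hT A hA.1).2.1 x' hx' a ha)
  have labC : ∀ c ∈ C, ∀ c' ∈ C, ds (f0 c) (f0 c') = 0 + γ * ds (z c) (z c') := by
    intro c _ c' _
    show (((γ * z c : ℕ) : ℤ) - ((γ * z c' : ℕ) : ℤ)).natAbs =
      0 + γ * ((z c : ℤ) - (z c' : ℤ)).natAbs
    push_cast
    rw [← mul_sub, Int.natAbs_mul, Int.natAbs_natCast, zero_add]
  have hRC : ∀ c ∈ C, ∀ c' ∈ C, G.Adj c c' → Rr 0 (ds (z c) (z c')) := fun c hc c' hc' h =>
    Or.inl ⟨rfl, Or.inr ⟨c, hc, c', hc', h, rfl⟩⟩
  have hRT : ∀ A, good A → ∀ x' ∈ X A, ∀ a ∈ A, Rr (r A) (x' - z a) := fun A hA x' hx' a ha =>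
    Or.inr (Or.inr ⟨A, hA, rfl, ((hT A hA.1).2.2.2.1 _).2 ⟨x', hx', a, ha, rfl⟩⟩)
  -- the free residue class
  have hfree : ∀ j, ¬ Rr (γ - 1) j := by
    rintro j (⟨h, -⟩ | ⟨h, -⟩ | ⟨A, hA, h, -⟩)
    · omega
    · omega
    · have := hr A hA.1.1; omega
  have hunb : ∀ N, ∃ j, N ≤ j ∧ Br (γ - 1) j := by
    intro N
    rcases (hBr1 (γ - 1)).2 (N + D) (hfree _) with h | ⟨i, h, h'⟩
    · exact ⟨N + D, by omega, h⟩
    · exact ⟨i, by omega, h⟩
  have hγ2 : 2 ≤ γ := by omega
  have hge : ∀ ρ j, ρ < γ → ¬ Rr ρ j → k ≤ ρ + γ * j := by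
    intro ρ j hρ h
    by_cases h1 : ρ < k
    · have : j ≠ 0 := fun h' => h (Or.inr (Or.inl ⟨h1, h'⟩))
      have : γ * 1 ≤ γ * j := Nat.mul_le_mul_left γ (by omega)
      omega
    · omega
  refine assemble G k C hcov f0 ?_ U hcl ?_ ?_ ?_ ?_ ?_ ?_ ?_ ?_ ?_
  · -- f0 injective
    intro c hc c' hc' h
    exact zinj c hc c' hc' (Nat.eq_of_mul_eq_mul_left hγ0 h)
  · -- infinite
    intro v hv
    rcases kind v hv with h | h | ⟨h, h1, h2⟩
    · intro hfin
      obtain ⟨b, hb⟩ := hfin.bddAbove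
      obtain ⟨j, hj, hj'⟩ := hunb b
      have := hb ((U1 _ h _).2 ⟨γ - 1, j, by omega, hj', rfl⟩)
      have h4 : 1 * (j + D) ≤ γ * (j + D) := Nat.mul_le_mul_right _ hγ0
      omega
    · rw [h]
      intro hfin
      obtain ⟨b, hb⟩ := hfin.bddAbove
      obtain ⟨j, hj, hj'⟩ := hunb b
      have hx : (γ - 1) + γ * (j + D + D) ∈ U ∅ := by
        rw [U0]
        refine ⟨?_, ?_, ?_⟩
        · intro c hc e
          have e : (γ - 1) + γ * (j + D + D) = 0 + γ * z c := by rw [zero_add]; exact e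
          have := (rep (by omega) hγ0 e).1
          omega
        · rintro ⟨ρ, i, hρ, hi, e⟩
          obtain ⟨e1, e2⟩ := rep (by omega) hρ e
          subst e1
          have : i = j + D := by omega
          rw [this] at hi
          exact ((hBr1 _).1 j hj').2.2 hi
        · rintro A hA ⟨x', -, e⟩
          have h4 := hr A hA.1.1
          have := (rep (by omega) (by omega) e).1
          omega
      have := hb hx
      have h4 : 1 * (j + D + D) ≤ γ * (j + D + D) := Nat.mul_le_mul_right _ hγ0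
      omega
    · have hinf := (hT _ h.1).1
      refine (hinf.image (f := fun x' => r (nb G C v) + γ * x') ?_).mono ?_
      · intro x _ y _ hxy
        have hxy : r (nb G C v) + γ * x = r (nb G C v) + γ * y := hxy
        exact Nat.eq_of_mul_eq_mul_left hγ0 (by omega)
      · rintro _ ⟨x', hx', rfl⟩
        exact (U2 _ h1 h2 _).2 ⟨x', hx', rfl⟩
  · -- disjoint
    intro v w hv hw x hx hx'
    have PDT : ∀ A, good A → PD x → PT A x → False := by
      rintro A hA ⟨ρ, j, hρ, hj, e⟩ ⟨x', hx', e'⟩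
      have h4 := hr A hA.1.1
      obtain ⟨e1, e2⟩ := rep hρ (by omega : r A < γ) (e.symm.trans e')
      rw [e1] at hj
      exact (hT A hA.1).2.2.2.2.2 x' hx' j (((hBr2 _ A hA rfl j).1).1 hj) e2.symm
    rcases kind v hv with h | h | ⟨h, h1, h2⟩ <;> rcases kind w hw with g | g | ⟨g, g1, g2⟩
    · ext c; rw [h c, g c]
    · exfalso
      rw [g, U0] at hx'
      exact hx'.2.1 ((U1 _ h _).1 hx)
    · exact (PDT _ g ((U1 _ h _).1 hx) ((U2 _ g1 g2 _).1 hx')).elim
    · exfalso
      rw [h, U0] at hx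
      exact hx.2.1 ((U1 _ g _).1 hx')
    · rw [h, g]
    · exfalso
      rw [h, U0] at hx
      exact hx.2.2 _ g ((U2 _ g1 g2 _).1 hx')
    · exact (PDT _ h ((U1 _ g _).1 hx') ((U2 _ h1 h2 _).1 hx)).elim
    · exfalso
      rw [g, U0] at hx'
      exact hx'.2.2 _ h ((U2 _ h1 h2 _).1 hx)
    · obtain ⟨x1, -, e1⟩ := (U2 _ h1 h2 _).1 hx
      obtain ⟨x2, -, e2⟩ := (U2 _ g1 g2 _).1 hx'
      have a1 := hr _ h.1.1
      have a2 := hr _ g.1.1
      have := (rep (by omega) (by omega) (e1.symm.trans e2)).1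
      exact hrinj _ h.1.1 _ g.1.1 this
  · -- not in C
    intro v hv x hx c hc e
    have e0 : x = 0 + γ * z c := by rw [zero_add]; exact e
    rcases kind v hv with h | h | ⟨h, h1, h2⟩
    · obtain ⟨ρ, j, hρ, hj, e'⟩ := (U1 _ h _).1 hx
      obtain ⟨e1, e2⟩ := rep hρ hγ0 (e'.symm.trans e0)
      have := zle c hc
      have hj0 : j = 0 := by omega
      rw [e1, hj0] at hj
      exact ((hBr1 0).1 0 hj).1 (Or.inl ⟨rfl, Or.inl rfl⟩)
    · rw [h, U0] at hx
      exact hx.1 c hc e
    · obtain ⟨x', -, e'⟩ := (U2 _ h1 h2 _).1 hx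
      have a1 := hr _ h.1.1
      have := (rep (by omega) hγ0 (e'.symm.trans e0)).1
      omega
  · -- core labels at least k
    intro c hc c' hc' h
    rw [labC c hc c' hc', zero_add]
    have h1 : z c ≠ z c' := fun e => h.ne (zinj c hc c' hc' e)
    have h2 : 1 ≤ ds (z c) (z c') := by
      show 1 ≤ ((z c : ℤ) - (z c' : ℤ)).natAbs
      omega
    have : γ * 1 ≤ γ * ds (z c) (z c') := Nat.mul_le_mul_left γ h2
    omega
  · -- outer labels at least k
    intro v hv x hx a ha
    rcases kind v hv with h | h | ⟨h, h1, h2⟩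
    · obtain ⟨ρ, j, hρ, hj, rfl⟩ := (U1 _ h _).1 hx
      have hd := (hBr1 ρ).1 j hj
      rcases labD ρ j _ h a ha with ⟨-, e⟩ | ⟨-, e⟩
      · rw [e]; exact hge ρ j hρ hd.1
      · rw [e]; exact hge ρ _ hρ hd.2.1
    · rw [h] at ha; exact absurd ha (Finset.notMem_empty a)
    · obtain ⟨x', hx', rfl⟩ := (U2 _ h1 h2 _).1 hx
      rw [labT _ h x' hx' a ha]
      have := hr _ h.1.1
      omega
  · -- D1
    intro c hc c' hc' b hb b' hb' h h' e
    rw [labC c hc c' hc', labC b hb b' hb'] at e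
    have e' : ds (z c) (z c') = ds (z b) (z b') := Nat.eq_of_mul_eq_mul_left hγ0 (by omega)
    have e' : ((z c : ℤ) - (z c' : ℤ)).natAbs = ((z b : ℤ) - (z b' : ℤ)).natAbs := e'
    have n1 : z c ≠ z c' := fun e => h.ne (zinj c hc c' hc' e)
    have n2 : z b ≠ z b' := fun e => h'.ne (zinj b hb b' hb' e)
    rcases lt_or_gt_of_ne n1 with l1 | l1 <;> rcases lt_or_gt_of_ne n2 with l2 | l2
    · have := pow_sum (zpow c' hc') (zpow c hc) (zpow b' hb') (zpow b hb) l1 l2 (by omega)
      rw [zinj c' hc' b' hb' this, zinj c hc b hb (by omega)]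
    · have := pow_sum (zpow c' hc') (zpow c hc) (zpow b hb) (zpow b' hb') l1 l2 (by omega)
      rw [zinj c' hc' b hb this, zinj c hc b' hb' (by omega)]
      exact Sym2.eq_swap
    · have := pow_sum (zpow c hc) (zpow c' hc') (zpow b' hb') (zpow b hb) l1 l2 (by omega)
      rw [zinj c hc b' hb' this, zinj c' hc' b hb (by omega)]
      exact Sym2.eq_swap
    · have := pow_sum (zpow c hc) (zpow c' hc') (zpow b hb) (zpow b' hb') l1 l2 (by omega)
      rw [zinj c hc b hb this, zinj c' hc' b' hb' (by omega)]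
  · -- D2
    intro v hv x hx a ha c hc c' hc' hcc e
    rw [labC c hc c' hc'] at e
    rcases kind v hv with h | h | ⟨h, h1, h2⟩
    · obtain ⟨ρ, j, hρ, hj, rfl⟩ := (U1 _ h _).1 hx
      have hd := (hBr1 ρ).1 j hj
      rcases labD ρ j _ h a ha with ⟨-, e'⟩ | ⟨-, e'⟩
      · rw [e'] at e
        obtain ⟨e1, e2⟩ := rep hρ hγ0 e
        rw [e1, e2] at hd
        exact hd.1 (hRC c hc c' hc' hcc)
      · rw [e'] at e
        obtain ⟨e1, e2⟩ := rep hρ hγ0 e
        rw [e1, e2] at hd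
        exact hd.2.1 (hRC c hc c' hc' hcc)
    · rw [h] at ha; exact absurd ha (Finset.notMem_empty a)
    · obtain ⟨x', hx', rfl⟩ := (U2 _ h1 h2 _).1 hx
      rw [labT _ h x' hx' a ha] at e
      have a1 := hr _ h.1.1
      have := (rep (by omega) hγ0 e).1
      omega
  · -- D3
    have DT : ∀ ρ j, ρ < γ → Br ρ j → ∀ A, dom A → ∀ a ∈ A, ∀ A', good A' → ∀ x' ∈ X A',
        ∀ b ∈ A', ds (ρ + γ * (j + D)) (f0 a) = ds (r A' + γ * x') (f0 b) → False := by
      intro ρ j hρ hj A hA a ha A' hA' x' hx' b hb e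
      have hd := (hBr1 ρ).1 j hj
      have a1 := hr _ hA'.1.1
      have a2 := hRT A' hA' x' hx' b hb
      rw [labT A' hA' x' hx' b hb] at e
      rcases labD ρ j A hA a ha with ⟨-, e'⟩ | ⟨-, e'⟩
      · rw [e'] at e
        obtain ⟨e1, e2⟩ := rep hρ (by omega) e
        rw [e1, e2] at hd
        exact hd.1 a2
      · rw [e'] at e
        obtain ⟨e1, e2⟩ := rep hρ (by omega) e
        rw [e1, e2] at hd
        exact hd.2.1 a2
    intro v hv x hx a ha w hw y hy b hb e
    rcases kind v hv with h | h | ⟨h, h1, h2⟩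
    · obtain ⟨ρ, j, hρ, hj, rfl⟩ := (U1 _ h _).1 hx
      rcases kind w hw with g | g | ⟨g, g1, g2⟩
      · obtain ⟨ρ', j', hρ', hj', rfl⟩ := (U1 _ g _).1 hy
        rcases labD ρ j _ h a ha with ⟨k1, e1⟩ | ⟨k1, e1⟩ <;>
          rcases labD ρ' j' _ g b hb with ⟨k2, e2⟩ | ⟨k2, e2⟩
        · rw [e1, e2] at e
          obtain ⟨q1, q2⟩ := rep hρ hρ' e
          exact ⟨by rw [q1, q2], by rw [k1, k2]⟩
        · exfalso
          rw [e1, e2] at e
          obtain ⟨q1, q2⟩ := rep hρ hρ' e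
          rw [q1, q2] at hj
          exact ((hBr1 _).1 j' hj').2.2 hj
        · exfalso
          rw [e1, e2] at e
          obtain ⟨q1, q2⟩ := rep hρ hρ' e
          rw [← q1, ← q2] at hj'
          exact ((hBr1 _).1 j hj).2.2 hj'
        · rw [e1, e2] at e
          obtain ⟨q1, q2⟩ := rep hρ hρ' e
          exact ⟨by rw [q1, q2], by rw [k1, k2]⟩
      · rw [g] at hb; exact absurd hb (Finset.notMem_empty b)
      · obtain ⟨y', hy', rfl⟩ := (U2 _ g1 g2 _).1 hy
        exact (DT ρ j hρ hj _ h a ha _ g y' hy' b hb e).elim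
    · rw [h] at ha; exact absurd ha (Finset.notMem_empty a)
    · obtain ⟨x', hx', rfl⟩ := (U2 _ h1 h2 _).1 hx
      rcases kind w hw with g | g | ⟨g, g1, g2⟩
      · obtain ⟨ρ', j', hρ', hj', rfl⟩ := (U1 _ g _).1 hy
        exact (DT ρ' j' hρ' hj' _ g b hb _ h x' hx' a ha e.symm).elim
      · rw [g] at hb; exact absurd hb (Finset.notMem_empty b)
      · obtain ⟨y', hy', rfl⟩ := (U2 _ g1 g2 _).1 hy
        rw [labT _ h x' hx' a ha, labT _ g y' hy' b hb] at e
        have a1 := hr _ h.1.1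
        have a2 := hr _ g.1.1
        obtain ⟨q1, q2⟩ := rep (by omega) (by omega) e
        have hAB := hrinj _ h.1.1 _ g.1.1 q1
        rw [← hAB] at hb hy' ⊢
        obtain ⟨p1, p2⟩ := (hT _ h.1).2.2.1 x' hx' y' hy' a ha b hb q2
        exact ⟨by rw [p1], p2⟩
  · -- surjective
    intro l hl
    obtain ⟨v, hv, hvd⟩ := hex
    have hsv : s ∈ nb G C v := (hvd s).2 (Or.inl rfl)
    have htv : t ∈ nb G C v := (hvd t).2 (Or.inr rfl)
    have hlm := Nat.mod_add_div l γ
    have hρ : l % γ < γ := Nat.mod_lt _ hγ0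
    by_cases hR : Rr (l % γ) (l / γ)
    · rcases hR with ⟨h1, h2 | ⟨c, hc, c', hc', h2, h3⟩⟩ | ⟨h1, h2⟩ | ⟨A, hA, h1, h2⟩
      · exfalso
        rw [h1, h2] at hlm
        omega
      · left
        refine ⟨c, hc, c', hc', h2, ?_⟩
        rw [labC c hc c' hc', h3]
        rw [h1] at hlm
        exact hlm
      · exfalso
        rw [h2] at hlm
        omega
      · right
        obtain ⟨x', hx', a, ha, h3⟩ := ((hT A hA.1).2.2.2.1 _).1 h2
        obtain ⟨w, hw, hwA⟩ := hA.2
        have hne := Finset.nonempty_iff_ne_empty.1 hA.1.2.1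
        refine ⟨w, hw, r A + γ * x', ?_, a, ?_, ?_⟩
        · rw [hwA]; exact (U2 A hA.1.2.2 hne _).2 ⟨x', hx', rfl⟩
        · rw [hwA]; exact ha
        · rw [labT A hA x' hx' a ha, ← h3, ← h1]
          exact hlm
    · right
      rcases (hBr1 (l % γ)).2 _ hR with h | ⟨i, h, h'⟩
      · refine ⟨v, hv, _, (U1 _ hvd _).2 ⟨l % γ, l / γ, hρ, h, rfl⟩, t, htv, ?_⟩
        rcases labD (l % γ) (l / γ) _ hvd t htv with ⟨-, e⟩ | ⟨e, -⟩
        · rw [e]; exact hlm
        · exact absurd e.symm hst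
      · refine ⟨v, hv, _, (U1 _ hvd _).2 ⟨l % γ, i, hρ, h, rfl⟩, s, hsv, ?_⟩
        rcases labD (l % γ) i _ hvd s hsv with ⟨e, -⟩ | ⟨-, e⟩
        · exact absurd e hst
        · rw [e, ← h']; exact hlm

/-- no infinite matching means a finite vertex cover -/
theorem exists_cover {G : SimpleGraph V} (hG : ¬ InfiniteMatching G) :
    ∃ C : Finset V, ∀ u v, G.Adj u v → u ∈ C ∨ v ∈ C := by
  classical
  by_contra hcon
  push Not at hcon
  apply hG
  obtain ⟨f, hf, hr⟩ := exists_seq_of_forall_finset_exists (fun p : V × V => G.Adj p.1 p.2)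
    (fun p q : V × V => q.1 ≠ p.1 ∧ q.1 ≠ p.2 ∧ q.2 ≠ p.1 ∧ q.2 ≠ p.2) (by
      intro s _
      obtain ⟨u, v, huv, hu, hv⟩ := hcon (s.image Prod.fst ∪ s.image Prod.snd)
      refine ⟨(u, v), huv, fun p hp => ?_⟩
      rw [Finset.mem_union, not_or] at hu hv
      refine ⟨fun h => hu.1 ?_, fun h => hu.2 ?_, fun h => hv.1 ?_, fun h => hv.2 ?_⟩
      · rw [show u = p.1 from h]; exact Finset.mem_image_of_mem _ hp
      · rw [show u = p.2 from h]; exact Finset.mem_image_of_mem _ hp
      · rw [show v = p.1 from h]; exact Finset.mem_image_of_mem _ hp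
      · rw [show v = p.2 from h]; exact Finset.mem_image_of_mem _ hp)
  have key : ∀ m n, m ≠ n → ∀ v, v ∈ s((f m).1, (f m).2) → v ∉ s((f n).1, (f n).2) := by
    intro m n hmn v hv hv'
    rw [Sym2.mem_iff] at hv hv'
    rcases lt_or_gt_of_ne hmn with h | h
    · have := hr m n h
      rcases hv with hv | hv <;> rcases hv' with hv' | hv'
      · exact this.1 (hv'.symm.trans hv)
      · exact this.2.2.1 (hv'.symm.trans hv)
      · exact this.2.1 (hv'.symm.trans hv)
      · exact this.2.2.2 (hv'.symm.trans hv)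
    · have := hr n m h
      rcases hv with hv | hv <;> rcases hv' with hv' | hv'
      · exact this.1 (hv.symm.trans hv')
      · exact this.2.1 (hv.symm.trans hv')
      · exact this.2.2.1 (hv.symm.trans hv')
      · exact this.2.2.2 (hv.symm.trans hv')
  refine ⟨Set.range fun n => s((f n).1, (f n).2), ?_, ?_, ?_⟩
  · refine Set.infinite_range_of_injective fun m n h => ?_
    by_contra hne
    have h1 := key m n hne (f m).1 (Sym2.mem_mk_left _ _)
    exact h1 (by rw [← h]; exact Sym2.mem_mk_left _ _)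
  · rintro _ ⟨n, rfl⟩
    exact hf n
  · rintro _ ⟨m, rfl⟩ _ ⟨n, rfl⟩ hne v hv
    exact key m n (fun h => hne (by rw [h])) v hv

theorem not_kgraceful_of_sparse {G : SimpleGraph V} (hG : ¬ InfiniteMatching G)
    (h : Sparse G) (k : ℕ) : ¬ KGraceful G k :=
  not_kgraceful_of_leaves G (exists_cover hG) h.2 h.1 k

theorem kgraceful_of_leaves [Countable V] {G : SimpleGraph V} (hG : ¬ InfiniteMatching G)
    {s : V} (hs : {v | G.Adj s v ∧ ¬ TwoNbrs G v}.Infinite) (hsp : ¬ Sparse G) {k : ℕ}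
    (hk : 1 ≤ k) : KGraceful G k := by
  classical
  obtain ⟨C0, hC0⟩ := exists_cover hG
  obtain ⟨C, hsub, -, hcl, -⟩ := good_cover G (insert s C0) (by
    intro u v h
    rcases hC0 u v h with h | h
    · exact Or.inl (Finset.mem_insert_of_mem h)
    · exact Or.inr (Finset.mem_insert_of_mem h))
  have hcov : ∀ u v, G.Adj u v → u ∈ C ∨ v ∈ C := by
    intro u v h
    rcases hC0 u v h with h | h
    · exact Or.inl (hsub (Finset.mem_insert_of_mem h))
    · exact Or.inr (hsub (Finset.mem_insert_of_mem h))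
  have hsC : s ∈ C := hsub (Finset.mem_insert_self _ _)
  refine kgraceful_pendant G k hk C hcov hcl s hsC ?_ ?_
  · obtain ⟨v, hv, hvC⟩ := hs.exists_notMem_finset C
    refine ⟨v, hvC, ?_⟩
    ext c
    rw [mem_nb, Finset.mem_singleton]
    constructor
    · rintro ⟨_, h2⟩
      by_contra hne
      exact hv.2 ⟨c, s, hne, h2, hv.1.symm⟩
    · rintro rfl
      exact ⟨hsC, hv.1.symm⟩
  · rintro ⟨v, hvC, hv⟩
    have hI : {v | Isolated G v}.Infinite := by
      refine (hcl v hvC).mono ?_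
      rintro w ⟨hw, hw2⟩ u hu
      rcases hcov w u hu with h | h
      · exact hw h
      · have : u ∈ nb G C w := mem_nb.2 ⟨h, hu⟩
        rw [hw2, hv] at this
        exact absurd this (Finset.notMem_empty _)
    have hT : {v | TwoNbrs G v}.Infinite := fun hf => hsp ⟨hI, hf⟩
    obtain ⟨w, ⟨a, b, hab, ha, hb⟩, hwC⟩ := hT.exists_notMem_finset C
    refine ⟨w, hwC, a, mem_nb.2 ⟨?_, ha⟩, b, mem_nb.2 ⟨?_, hb⟩, hab⟩
    · exact (hcov w a ha).resolve_left hwC
    · exact (hcov w b hb).resolve_left hwC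

theorem kgraceful_of_deg_two [Countable V] {G : SimpleGraph V} (hG : ¬ InfiniteMatching G)
    {s t : V} (hst : s ≠ t) (h : {v | ∀ w, G.Adj v w ↔ w = s ∨ w = t}.Infinite) {k : ℕ}
    (hk : 1 ≤ k) : KGraceful G k := by
  classical
  obtain ⟨C0, hC0⟩ := exists_cover hG
  obtain ⟨C, hsub, -, hcl, -⟩ := good_cover G (insert s (insert t C0)) (by
    intro u v h
    rcases hC0 u v h with h | h
    · exact Or.inl (Finset.mem_insert_of_mem (Finset.mem_insert_of_mem h))
    · exact Or.inr (Finset.mem_insert_of_mem (Finset.mem_insert_of_mem h)))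
  have hcov : ∀ u v, G.Adj u v → u ∈ C ∨ v ∈ C := by
    intro u v h
    rcases hC0 u v h with h | h
    · exact Or.inl (hsub (Finset.mem_insert_of_mem (Finset.mem_insert_of_mem h)))
    · exact Or.inr (hsub (Finset.mem_insert_of_mem (Finset.mem_insert_of_mem h)))
  have hsC : s ∈ C := hsub (Finset.mem_insert_self _ _)
  have htC : t ∈ C := hsub (Finset.mem_insert_of_mem (Finset.mem_insert_self _ _))
  obtain ⟨v, hv, hvC⟩ := h.exists_notMem_finset C
  refine kgraceful_two_gen G k hk C hcov hcl s t hsC htC hst ⟨v, hvC, fun c => ?_⟩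
  rw [mem_nb]
  constructor
  · rintro ⟨_, h2⟩
    exact (hv c).1 h2
  · rintro (rfl | rfl)
    · exact ⟨hsC, (hv _).2 (Or.inl rfl)⟩
    · exact ⟨htC, (hv _).2 (Or.inr rfl)⟩

/-- infinitely many vertices of degree one or two: infinitely many of them have the same
neighbourhood -/
theorem pigeon {G : SimpleGraph V} (hG : ¬ InfiniteMatching G)
    (h : {v | OneOrTwo G v}.Infinite) :
    (∃ s, {v | G.Adj s v ∧ ¬ TwoNbrs G v}.Infinite) ∨
    ∃ s t, s ≠ t ∧ {v | ∀ w, G.Adj v w ↔ w = s ∨ w = t}.Infinite := by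
  classical
  obtain ⟨C, hC⟩ := exists_cover hG
  by_contra hcon
  push Not at hcon
  obtain ⟨h1, h2⟩ := hcon
  have hfin : (⋃ s ∈ (C : Set V), ⋃ t ∈ (C : Set V),
      ({v | G.Adj s v ∧ ¬ TwoNbrs G v} ∪
        if s ≠ t then {v | ∀ w, G.Adj v w ↔ w = s ∨ w = t} else ∅)).Finite := by
    refine Set.Finite.biUnion C.finite_toSet fun s _ => ?_
    refine Set.Finite.biUnion C.finite_toSet fun t _ => ?_
    refine Set.Finite.union (h1 s) ?_
    by_cases hst : s = t
    · simp [hst]
    · rw [if_pos hst]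
      exact h2 s t hst
  refine (h.sdiff C.finite_toSet) (hfin.subset ?_)
  rintro v ⟨⟨⟨w, hw⟩, a, b, hab⟩, hv⟩
  have hin : ∀ c, G.Adj v c → c ∈ (C : Set V) := fun c hc =>
    Finset.mem_coe.2 ((hC v c hc).resolve_left hv)
  by_cases ht : TwoNbrs G v
  · obtain ⟨s, t, hst, hs, ht⟩ := ht
    refine Set.mem_biUnion (hin s hs) (Set.mem_biUnion (hin t ht) (Or.inr ?_))
    rw [if_pos hst]
    intro c
    constructor
    · intro hc
      rcases hab s hs with h3 | h3 <;> rcases hab t ht with h4 | h4 <;>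
        rcases hab c hc with h5 | h5
      · exact absurd (h3.trans h4.symm) hst
      · exact absurd (h3.trans h4.symm) hst
      · exact Or.inl (h5.trans h3.symm)
      · exact Or.inr (h5.trans h4.symm)
      · exact Or.inr (h5.trans h4.symm)
      · exact Or.inl (h5.trans h3.symm)
      · exact absurd (h3.trans h4.symm) hst
      · exact absurd (h3.trans h4.symm) hst
    · rintro (rfl | rfl)
      · exact hs
      · exact ht
  · exact Set.mem_biUnion (hin w hw) (Set.mem_biUnion (hin w hw) (Or.inl ⟨hw.symm, ht⟩))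

theorem infinite_of_almostDom {G : SimpleGraph V} (hG : InfiniteMatching G) {x : V}
    (hx : AlmostDom G x) : {w | G.Adj x w}.Infinite := by
  classical
  intro hfin
  obtain ⟨F, hF⟩ := hx
  obtain ⟨u, v, hu, hv, huv⟩ := edges_outside hG (F ∪ hfin.toFinset)
  rw [Finset.mem_union, not_or] at hu hv
  exact hu.2 (hfin.mem_toFinset.2 (hF u v hu.1 hv.1 huv))

theorem bij_iff_of_isolated [Countable V] {G : SimpleGraph V}
    (hI : {v | Isolated G v}.Infinite) (k : ℕ) : BijKGraceful G k ↔ KGraceful G k := by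
  classical
  constructor
  · rintro ⟨f, hf, hb⟩
    exact ⟨f, hf.1, hb⟩
  · rintro ⟨f, hf, hb⟩
    set I : Set V := {v | Isolated G v}
    set H : Set ℕ := (f '' Iᶜ)ᶜ
    have hH : H.Infinite := by
      refine (hI.image hf.injOn).mono ?_
      rintro _ ⟨v, hv, rfl⟩ ⟨w, hw, hwv⟩
      rw [hf hwv] at hw
      exact hw hv
    have i1 : Infinite I := hI.to_subtype
    have i2 : Infinite H := hH.to_subtype
    obtain ⟨e⟩ : Nonempty (I ≃ H) := nonempty_equiv_of_countable
    let g : V → ℕ := fun v => if h : v ∈ I then (e ⟨v, h⟩ : ℕ) else f v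
    have g1 : ∀ v (h : v ∈ I), g v = (e ⟨v, h⟩ : ℕ) := fun v h => dif_pos h
    have g2 : ∀ v, v ∉ I → g v = f v := fun v h => dif_neg h
    refine ⟨g, ⟨?_, ?_⟩, ?_⟩
    · intro v w h
      by_cases hv : v ∈ I <;> by_cases hw : w ∈ I
      · rw [g1 v hv, g1 w hw] at h
        exact congrArg Subtype.val (e.injective (Subtype.ext h))
      · exfalso
        rw [g1 v hv, g2 w hw] at h
        exact (e ⟨v, hv⟩).2 ⟨w, hw, h.symm⟩
      · exfalso
        rw [g2 v hv, g1 w hw] at h
        exact (e ⟨w, hw⟩).2 ⟨v, hv, h⟩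
      · rw [g2 v hv, g2 w hw] at h
        exact hf h
    · intro n
      by_cases hn : n ∈ H
      · refine ⟨(e.symm ⟨n, hn⟩ : V), ?_⟩
        rw [g1 _ (e.symm ⟨n, hn⟩).2]
        simp
      · have : n ∈ f '' Iᶜ := not_not.1 hn
        obtain ⟨v, hv, rfl⟩ := this
        exact ⟨v, g2 v hv⟩
    · refine hb.congr ?_
      intro x hx
      induction x using Sym2.ind with
      | _ u v =>
        have huv : G.Adj u v := hx
        have hu : u ∉ I := fun h => h v huv
        have hv : v ∉ I := fun h => h u huv.symm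
        show ((f u : ℤ) - (f v : ℤ)).natAbs = ((g u : ℤ) - (g v : ℤ)).natAbs
        rw [g2 u hu, g2 v hv]

theorem not_bij_of_two {G : SimpleGraph V} (hG : ¬ InfiniteMatching G)
    (hI : {v | Isolated G v}.Finite) (hT : {v | TwoNbrs G v}.Infinite) (k : ℕ) :
    ¬ BijKGraceful G k := by
  classical
  rintro ⟨f, hf, hb⟩
  obtain ⟨C0, hC0⟩ := exists_cover hG
  set C : Finset V := C0 ∪ hI.toFinset with hC
  have hcov : ∀ u v, G.Adj u v → u ∈ C ∨ v ∈ C := by
    intro u v h
    rcases hC0 u v h with h | h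
    · exact Or.inl (Finset.mem_union_left _ h)
    · exact Or.inr (Finset.mem_union_left _ h)
  have h1 : ∀ v, v ∉ C → ∃ w, G.Adj v w := by
    intro v hv
    by_contra hcon
    push Not at hcon
    exact hv (Finset.mem_union_right _ (hI.mem_toFinset.2 hcon))
  obtain ⟨T, hTs, hTc⟩ := (hT.sdiff C.finite_toSet).exists_subset_card_eq (C.card + 1)
  have h2 : ∀ v, v ∈ T → ∃ w w', w ≠ w' ∧ G.Adj v w ∧ G.Adj v w' := fun v hv => (hTs hv).1
  have hTC : ∀ v ∈ T, v ∉ C := fun v hv => (hTs hv).2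
  obtain ⟨v0, hv0⟩ : T.Nonempty := by
    rw [← Finset.card_pos]; omega
  have hne : Nonempty V := ⟨v0⟩
  choose! n1 hn1 using h1
  have h3 : ∀ v, v ∈ T → ∃ w, G.Adj v w ∧ w ≠ n1 v := by
    intro v hv
    obtain ⟨w, w', hww, hw, hw'⟩ := h2 v hv
    by_cases h : w = n1 v
    · exact ⟨w', hw', fun h' => hww (h.trans h'.symm)⟩
    · exact ⟨w, hw, h⟩
  choose! n2 hn2 hn2' using h3
  set B := C.sup f
  have hB : ∀ c ∈ C, f c ≤ B := fun c hc => Finset.le_sup (f := f) hc
  set n := B + T.sup f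
  have hTn : ∀ v ∈ T, f v ≤ n := fun v hv => (Finset.le_sup (f := f) hv).trans (by omega)
  obtain ⟨g, hg1, hg2⟩ := Function.bijective_iff_has_inverse.1 hf
  set A : Finset V := (Finset.range (n + 1)).image g \ C
  have hA : ∀ v ∈ A, v ∉ C ∧ f v ≤ n := by
    intro v hv
    obtain ⟨h, h'⟩ := Finset.mem_sdiff.1 hv
    obtain ⟨m, hm, rfl⟩ := Finset.mem_image.1 h
    have := Finset.mem_range.1 hm
    exact ⟨h', by rw [hg2 m]; omega⟩
  have hAc : n + 1 ≤ A.card + C.card := by
    have e1 : ((Finset.range (n + 1)).image g).card = n + 1 := by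
      rw [Finset.card_image_of_injective _ hg2.injective, Finset.card_range]
    have : ((Finset.range (n + 1)).image g).card - C.card ≤ A.card := Finset.le_card_sdiff C _
    omega
  let lab : V → V → ℕ := fun u v => ((f u : ℤ) - (f v : ℤ)).natAbs
  have labn : ∀ v w, v ∉ C → G.Adj v w → f v ≤ n → lab v w < n + 1 := by
    intro v w hv hvw hvn
    have := hB w ((hcov v w hvw).resolve_left hv)
    show ((f v : ℤ) - (f w : ℤ)).natAbs < n + 1
    omega
  have labinj : ∀ v w v' w', v ∉ C → v' ∉ C → G.Adj v w → G.Adj v' w' → lab v w = lab v' w' →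
      v = v' ∧ w = w' := by
    intro v w v' w' hv hv' hvw hvw' e
    have e2 : s(v, w) = s(v', w') := hb.injOn (show s(v, w) ∈ G.edgeSet from hvw)
      (show s(v', w') ∈ G.edgeSet from hvw') e
    rcases Sym2.eq_iff.1 e2 with h | ⟨h, h'⟩
    · exact h
    · exact absurd ((hcov v' w' hvw').resolve_left hv') (h ▸ hv)
  have i1 : (A.image fun v => lab v (n1 v)).card = A.card := by
    refine Finset.card_image_of_injOn ?_
    intro v hv w hw h
    exact (labinj v _ w _ (hA v hv).1 (hA w hw).1 (hn1 v (hA v hv).1) (hn1 w (hA w hw).1) h).1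
  have i2 : (T.image fun v => lab v (n2 v)).card = T.card := by
    refine Finset.card_image_of_injOn ?_
    intro v hv w hw h
    exact (labinj v _ w _ (hTC v hv) (hTC w hw) (hn2 v hv) (hn2 w hw) h).1
  have hdis : Disjoint (A.image fun v => lab v (n1 v)) (T.image fun v => lab v (n2 v)) := by
    rw [Finset.disjoint_left]
    intro l hl hl'
    obtain ⟨v, hv, rfl⟩ := Finset.mem_image.1 hl
    obtain ⟨w, hw, hwl⟩ := Finset.mem_image.1 hl'
    obtain ⟨e1, e2⟩ := labinj w _ v _ (hTC w hw) (hA v hv).1 (hn2 w hw) (hn1 v (hA v hv).1) hwl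
    rw [← e1] at e2
    exact hn2' w hw e2
  have hle : ((A.image fun v => lab v (n1 v)) ∪ (T.image fun v => lab v (n2 v))).card ≤
      (Finset.range (n + 1)).card := by
    refine Finset.card_le_card ?_
    intro l hl
    rw [Finset.mem_range]
    rcases Finset.mem_union.1 hl with hl | hl
    · obtain ⟨v, hv, rfl⟩ := Finset.mem_image.1 hl
      exact labn v _ (hA v hv).1 (hn1 v (hA v hv).1) (hA v hv).2
    · obtain ⟨v, hv, rfl⟩ := Finset.mem_image.1 hl
      exact labn v _ (hTC v hv) (hn2 v hv) (hTn v hv)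
  rw [Finset.card_union_of_disjoint hdis, i1, i2, Finset.card_range] at hle
  omega

/-- sanity check: a graph to which part (6) applies, the join of a triangle with an infinite
independent set, has infinitely many edges -/
theorem triJoin_example : ∃ G : SimpleGraph ℕ, TriJoin G 0 1 2 ∧ G.edgeSet.Infinite := by
  refine ⟨{ Adj := fun u v => u ≠ v ∧ (u < 3 ∨ v < 3)
            symm := ⟨fun u v h => ⟨h.1.symm, h.2.symm⟩⟩
            loopless := ⟨fun u h => h.1 rfl⟩ }, ⟨?_, ?_, ?_, ?_⟩, ?_⟩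
  · exact ⟨by norm_num, by norm_num⟩
  · exact ⟨by norm_num, by norm_num⟩
  · exact ⟨by norm_num, by norm_num⟩
  · intro v h0 h1 h2
    right
    intro w
    show (v ≠ w ∧ (v < 3 ∨ w < 3)) ↔ _
    omega
  · refine Set.infinite_of_injective_forall_mem (f := fun n : ℕ => s(0, n + 3)) ?_ ?_
    · intro m n h
      have := Sym2.congr_right.1 h
      omega
    · intro n
      show (0 : ℕ) ≠ n + 3 ∧ (0 < 3 ∨ n + 3 < 3)
      omega

/-- Let `G` be a countable graph and `k ≥ 1`.
(a) If `G` is `Tame`, then `G` is `k`-graceful iff `β₁(G) = ∞` or `G` is not `Sparse`.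
(b) Unless `β₁(G) < ∞` and all but finitely many vertices have degree one, `G` is
bijectively-`k`-graceful iff it is `k`-graceful and no finite vertex set dominates all other
vertices.
(c) If `a, b, c` are pairwise adjacent and every other vertex is isolated or adjacent to exactly
`a, b, c`, then `G` is not `k`-graceful. -/
theorem result {V : Type*} [Countable V] (G : SimpleGraph V) (k : ℕ) (hk : 1 ≤ k) :
    (Tame G → (KGraceful G k ↔ (InfiniteMatching G ∨ ¬ Sparse G))) ∧
    ((InfiniteMatching G ∨ {v | Isolated G v}.Infinite ∨ {v | TwoNbrs G v}.Infinite) →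
      (BijKGraceful G k ↔ KGraceful G k ∧ ¬ FinDom G)) ∧
    (∀ a b c, TriJoin G a b c → ¬ KGraceful G k) := by
  classical
  have hbk : BijKGraceful G k → KGraceful G k := by
    rintro ⟨f, hf, hb⟩
    exact ⟨f, hf.1, hb⟩
  refine ⟨fun ht => ⟨fun h => ?_, fun h => ?_⟩, fun hc => ?_,
    fun a b c h => not_kgraceful_triJoin G a b c h hk⟩
  · by_cases hG : InfiniteMatching G
    · exact Or.inl hG
    · exact Or.inr fun hsp => not_kgraceful_of_sparse hG hsp k h
  · by_cases hG : InfiniteMatching G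
    · exact kgraceful_of_matching_bad hG (ht.1 hG) hk
    · rcases pigeon hG (ht.2 hG) with ⟨s, hs⟩ | ⟨s, t, hst, hs⟩
      · exact kgraceful_of_leaves hG hs (h.resolve_left hG) hk
      · exact kgraceful_of_deg_two hG hst hs hk
  · by_cases hG : InfiniteMatching G
    · exact ⟨fun h => ⟨hbk h, fun hd => not_bij_of_dom hG hd hk h⟩,
        fun h => bij_of_kgraceful h.2 hk h.1⟩
    · by_cases hI : {v | Isolated G v}.Infinite
      · rw [bij_iff_of_isolated hI]
        refine ⟨fun h => ⟨h, ?_⟩, fun h => h.1⟩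
        rintro ⟨P, hP⟩
        refine hI (P.finite_toSet.subset fun v hv => ?_)
        by_contra hvP
        obtain ⟨p, -, hp⟩ := hP v hvP
        exact hv p hp
      · have hI' : {v | Isolated G v}.Finite := Set.not_infinite.1 hI
        have hT : {v | TwoNbrs G v}.Infinite :=
          (hc.resolve_left hG).resolve_left hI
        refine ⟨fun h => absurd h (not_bij_of_two hG hI' hT k), fun h => absurd ?_ h.2⟩
        obtain ⟨C, hC⟩ := exists_cover hG
        refine ⟨C ∪ hI'.toFinset, fun z hz => ?_⟩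
        rw [Finset.mem_union, not_or] at hz
        by_contra hcon
        push Not at hcon
        refine hz.2 (hI'.mem_toFinset.2 fun w hw => ?_)
        exact hcon w (Finset.mem_union_left _ ((hC z w hw).resolve_left hz.1)) hw

end Pool.Agent.Results.MP_7616b3_co.Gracefulness
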