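import Mathlib

set_option autoImplicit false

open Filter

namespace Pool.Agent.Results.MP_7616b3_co.InfMatching

variable {V : Type*}

/-- The label `|f u - f v|` that `f` induces on the edge `uv`. -/
def edgeLabel (f : V → ℕ) : Sym2 V → ℕ :=
  Sym2.lift ⟨fun u v => ((f u : ℤ) - (f v : ℤ)).natAbs, fun u v => by
    show ((f u : ℤ) - (f v : ℤ)).natAbs = ((f v : ℤ) - (f u : ℤ)).natAbs
    omega⟩

/-- `G` is `k`-graceful: some injective `f : V → ℕ` has edge labels that give a bijection from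
the edges onto `{k, k+1, ...}`. -/
def KGraceful (G : SimpleGraph V) (k : ℕ) : Prop :=
  ∃ f : V → ℕ, Function.Injective f ∧ Set.BijOn (edgeLabel f) G.edgeSet {n | k ≤ n}

/-- `G` is bijectively-`k`-graceful: the same with `f` bijective. -/
def BijKGraceful (G : SimpleGraph V) (k : ℕ) : Prop :=
  ∃ f : V → ℕ, Function.Bijective f ∧ Set.BijOn (edgeLabel f) G.edgeSet {n | k ≤ n}

/-- `G` has an infinite set of pairwise disjoint edges, that is, `β₁(G) = ∞`. -/
def InfiniteMatching (G : SimpleGraph V) : Prop :=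
  ∃ M : Set (Sym2 V), M.Infinite ∧ M ⊆ G.edgeSet ∧
    ∀ e ∈ M, ∀ e' ∈ M, e ≠ e' → ∀ v, v ∈ e → v ∉ e'

/-- `x` is almost dominating: for some finite `F`, both ends of every edge avoiding `F` are
adjacent to `x`. -/
def AlmostDom (G : SimpleGraph V) (x : V) : Prop :=
  ∃ F : Finset V, ∀ u v, u ∉ F → v ∉ F → G.Adj u v → G.Adj x u

/-- Some finite set `P` dominates: every vertex outside `P` has a neighbour in `P`. -/
def FinDom (G : SimpleGraph V) : Prop :=
  ∃ P : Finset V, ∀ z, z ∉ P → ∃ p ∈ P, G.Adj z p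

abbrev St (V : Type*) := Finset V × (V → ℕ)

def Ext (s t : St V) : Prop := s.1 ⊆ t.1 ∧ ∀ v ∈ s.1, t.2 v = s.2 v

theorem Ext.refl (s : St V) : Ext s s := ⟨fun _ h => h, fun _ _ => rfl⟩

theorem Ext.trans {s t r : St V} (h : Ext s t) (h' : Ext t r) : Ext s r :=
  ⟨fun _ hv => h'.1 (h.1 hv), fun v hv => by rw [h'.2 v (h.1 hv), h.2 v hv]⟩

theorem chain {ι : Type*} [Countable ι] [Nonempty ι] (Good : St V → Prop)
    (R : ι → St V → Prop) (s0 : St V) (h0 : Good s0)
    (step : ∀ s, Good s → ∀ i, ∃ t, Good t ∧ Ext s t ∧ R i t) :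
    ∃ s : ℕ → St V, (∀ n, Good (s n)) ∧ (∀ m n, m ≤ n → Ext (s m) (s n)) ∧
      ∀ i, ∃ n, R i (s n) := by
  classical
  obtain ⟨e, he⟩ := exists_surjective_nat ι
  choose! nx hg hx hr using step
  let s : ℕ → St V := fun n => Nat.rec s0 (fun m t => nx t (e m)) n
  have hs : ∀ n, s (n + 1) = nx (s n) (e n) := fun n => rfl
  have hG : ∀ n, Good (s n) := by
    intro n
    induction n with
    | zero => exact h0
    | succ m ih => rw [hs]; exact hg _ ih _
  have hE : ∀ n, Ext (s n) (s (n + 1)) := by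
    intro n; rw [hs]; exact hx _ (hG n) _
  refine ⟨s, hG, ?_, ?_⟩
  · intro m n hmn
    induction n, hmn using Nat.le_induction with
    | base => exact Ext.refl _
    | succ n _ ih => exact ih.trans (hE n)
  · intro i
    obtain ⟨n, rfl⟩ := he i
    exact ⟨n + 1, by rw [hs]; exact hr _ (hG n) _⟩

theorem limit (s : ℕ → St V) (hE : ∀ m n, m ≤ n → Ext (s m) (s n))
    (hV : ∀ v, ∃ n, v ∈ (s n).1) :
    ∃ F : V → ℕ, ∀ n v, v ∈ (s n).1 → F v = (s n).2 v := by
  choose N hN using hV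
  refine ⟨fun v => (s (N v)).2 v, fun n v hv => ?_⟩
  rcases le_total n (N v) with h | h
  · exact (hE _ _ h).2 v hv
  · exact ((hE _ _ h).2 v (hN v)).symm

/-- validity of a numbering of a finite set of vertices -/
structure Valid (G : SimpleGraph V) (k : ℕ) (s : St V) : Prop where
  inj : ∀ p ∈ s.1, ∀ q ∈ s.1, s.2 p = s.2 q → p = q
  big : ∀ p ∈ s.1, ∀ q ∈ s.1, G.Adj p q → ∀ D, 0 < D → s.2 p = s.2 q + D → k ≤ D
  uni : ∀ p ∈ s.1, ∀ q ∈ s.1, ∀ p' ∈ s.1, ∀ q' ∈ s.1, G.Adj p q → G.Adj p' q' →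
    ∀ D, 0 < D → s.2 p = s.2 q + D → s.2 p' = s.2 q' + D → p = p' ∧ q = q'

def Realized (G : SimpleGraph V) (s : St V) (D : ℕ) : Prop :=
  ∃ p ∈ s.1, ∃ q ∈ s.1, G.Adj p q ∧ s.2 p = s.2 q + D

theorem Realized.mono {G : SimpleGraph V} {s t : St V} {D : ℕ} (h : Realized G s D)
    (hst : Ext s t) : Realized G t D := by
  obtain ⟨p, hp, q, hq, ha, he⟩ := h
  exact ⟨p, hst.1 hp, q, hst.1 hq, ha, by rw [hst.2 p hp, hst.2 q hq, he]⟩

/-- from a chain of valid states to a numbering -/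
theorem numbering_of_chain (G : SimpleGraph V) (k : ℕ) (s : ℕ → St V)
    (hE : ∀ m n, m ≤ n → Ext (s m) (s n)) (hval : ∀ n, Valid G k (s n))
    (hV : ∀ v, ∃ n, v ∈ (s n).1) (hR : ∀ D, k ≤ D → ∃ n, Realized G (s n) D) :
    ∃ F : V → ℕ, (∀ n v, v ∈ (s n).1 → F v = (s n).2 v) ∧ Function.Injective F ∧
      Set.BijOn (edgeLabel F) G.edgeSet {n | k ≤ n} := by
  obtain ⟨F, hF⟩ := limit s hE hV
  have two : ∀ u v : V, ∃ n, u ∈ (s n).1 ∧ v ∈ (s n).1 := by
    intro u v
    obtain ⟨a, ha⟩ := hV u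
    obtain ⟨b, hb⟩ := hV v
    exact ⟨max a b, (hE _ _ (le_max_left a b)).1 ha, (hE _ _ (le_max_right a b)).1 hb⟩
  have hinj : Function.Injective F := by
    intro u v huv
    obtain ⟨n, hu, hv⟩ := two u v
    exact (hval n).inj u hu v hv (by rw [← hF n u hu, ← hF n v hv, huv])
  -- oriented uniqueness
  have huni : ∀ u v u' v', G.Adj u v → G.Adj u' v' → ∀ D, 0 < D → F u = F v + D →
      F u' = F v' + D → u = u' ∧ v = v' := by
    intro u v u' v' h h' D hD e e'
    obtain ⟨n, hu, hv⟩ := two u v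
    obtain ⟨m, hu', hv'⟩ := two u' v'
    have i1 := (hE _ _ (le_max_left n m)).1
    have i2 := (hE _ _ (le_max_right n m)).1
    refine (hval (max n m)).uni u (i1 hu) v (i1 hv) u' (i2 hu') v' (i2 hv') h h' D hD ?_ ?_
    · rw [← hF _ u (i1 hu), ← hF _ v (i1 hv), e]
    · rw [← hF _ u' (i2 hu'), ← hF _ v' (i2 hv'), e']
  refine ⟨F, hF, hinj, ?_, ?_, ?_⟩
  · intro e he
    induction e using Sym2.ind with
    | _ u v =>
      rw [SimpleGraph.mem_edgeSet] at he
      have hne : F u ≠ F v := fun h => he.ne (hinj h)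
      obtain ⟨n, hu, hv⟩ := two u v
      have e1 := hF n u hu
      have e2 := hF n v hv
      show k ≤ ((F u : ℤ) - (F v : ℤ)).natAbs
      rcases lt_or_gt_of_ne hne with h | h
      · have := (hval n).big v hv u hu he.symm (F v - F u) (by omega) (by omega)
        omega
      · have := (hval n).big u hu v hv he (F u - F v) (by omega) (by omega)
        omega
  · intro e he e' he' hee
    induction e using Sym2.ind with
    | _ u v =>
    induction e' using Sym2.ind with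
    | _ u' v' =>
      rw [SimpleGraph.mem_edgeSet] at he he'
      have hne : F u ≠ F v := fun h => he.ne (hinj h)
      have hne' : F u' ≠ F v' := fun h => he'.ne (hinj h)
      have hee' : ((F u : ℤ) - (F v : ℤ)).natAbs = ((F u' : ℤ) - (F v' : ℤ)).natAbs := hee
      rcases lt_or_gt_of_ne hne with h | h <;> rcases lt_or_gt_of_ne hne' with h' | h'
      · obtain ⟨a, b⟩ := huni v u v' u' he.symm he'.symm (F v - F u) (by omega) (by omega)
          (by omega)
        rw [a, b]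
      · obtain ⟨a, b⟩ := huni v u u' v' he.symm he' (F v - F u) (by omega) (by omega)
          (by omega)
        rw [a, b]; exact Sym2.eq_swap
      · obtain ⟨a, b⟩ := huni u v v' u' he he'.symm (F u - F v) (by omega) (by omega)
          (by omega)
        rw [a, b]; exact Sym2.eq_swap
      · obtain ⟨a, b⟩ := huni u v u' v' he he' (F u - F v) (by omega) (by omega)
          (by omega)
        rw [a, b]
  · intro D hD
    obtain ⟨n, p, hp, q, hq, ha, he⟩ := hR D hD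
    refine ⟨s(p, q), ha, ?_⟩
    show ((F p : ℤ) - (F q : ℤ)).natAbs = D
    rw [hF n p hp, hF n q hq, he]
    omega

/-- bound for the values of a state -/
theorem exists_bound (s : St V) : ∃ B, ∀ p ∈ s.1, s.2 p ≤ B :=
  ⟨s.1.sup s.2, fun _ hp => Finset.le_sup (f := s.2) hp⟩


section ext

variable [DecidableEq V]

/-- place the vertex `v` at `N` -/
def put (s : St V) (v : V) (N : ℕ) : St V := (insert v s.1, Function.update s.2 v N)

theorem put_ext (s : St V) (v : V) (hv : v ∉ s.1) (N : ℕ) : Ext s (put s v N) := by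
  refine ⟨Finset.subset_insert _ _, fun w hw => ?_⟩
  have : w ≠ v := fun h => hv (h ▸ hw)
  simp [put, Function.update_of_ne this]

theorem put_self (s : St V) (v : V) (N : ℕ) : (put s v N).2 v = N := by simp [put]

theorem put_of_mem {s : St V} {v : V} (hv : v ∉ s.1) {N : ℕ} {w : V} (hw : w ∈ s.1) :
    (put s v N).2 w = s.2 w := (put_ext s v hv N).2 w hw

theorem mem_put {s : St V} {v w : V} {N : ℕ} : w ∈ (put s v N).1 ↔ w = v ∨ w ∈ s.1 := by
  simp [put]

theorem put_pair {s : St V} {v : V} (hv : v ∉ s.1) {N B : ℕ} (hB : ∀ p ∈ s.1, s.2 p ≤ B)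
    (hN : 2 * B < N) {p q : V} (hp : p ∈ (put s v N).1) (hq : q ∈ (put s v N).1) {D : ℕ}
    (hD : 0 < D) (h : (put s v N).2 p = (put s v N).2 q + D) :
    (p ∈ s.1 ∧ q ∈ s.1 ∧ s.2 p = s.2 q + D ∧ D ≤ B) ∨
      (p = v ∧ q ∈ s.1 ∧ N = s.2 q + D ∧ B < D) := by
  rw [mem_put] at hp hq
  rcases hp with rfl | hp <;> rcases hq with rfl | hq
  · omega
  · right
    rw [put_self, put_of_mem hv hq] at h
    have := hB q hq
    exact ⟨rfl, hq, h, by omega⟩
  · rw [put_self, put_of_mem hv hp] at h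
    have := hB p hp
    omega
  · left
    rw [put_of_mem hv hp, put_of_mem hv hq] at h
    have := hB p hp
    exact ⟨hp, hq, h, by omega⟩

theorem put_valid {G : SimpleGraph V} {k : ℕ} {s : St V} (hs : Valid G k s) {v : V}
    (hv : v ∉ s.1) {N B : ℕ} (hB : ∀ p ∈ s.1, s.2 p ≤ B) (hN : 2 * B + k < N) :
    Valid G k (put s v N) := by
  refine ⟨?_, ?_, ?_⟩
  · intro p hp q hq h
    rw [mem_put] at hp hq
    rcases hp with rfl | hp <;> rcases hq with rfl | hq
    · rfl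
    · rw [put_self, put_of_mem hv hq] at h
      have := hB q hq
      omega
    · rw [put_self, put_of_mem hv hp] at h
      have := hB p hp
      omega
    · rw [put_of_mem hv hp, put_of_mem hv hq] at h
      exact hs.inj p hp q hq h
  · intro p hp q hq ha D hD h
    rcases put_pair hv hB (by omega) hp hq hD h with ⟨hp, hq, h, -⟩ | ⟨rfl, hq, h, -⟩
    · exact hs.big p hp q hq ha D hD h
    · have := hB q hq
      omega
  · intro p hp q hq p' hp' q' hq' ha ha' D hD h h'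
    rcases put_pair hv hB (by omega) hp hq hD h with ⟨ip, iq, i, hDB⟩ | ⟨e1, iq, i, hDB⟩ <;>
    rcases put_pair hv hB (by omega) hp' hq' hD h' with
      ⟨ip', iq', i', hDB'⟩ | ⟨e1', iq', i', hDB'⟩
    · exact hs.uni p ip q iq p' ip' q' iq' ha ha' D hD i i'
    · omega
    · omega
    · exact ⟨e1.trans e1'.symm, hs.inj q iq q' iq' (by omega)⟩

/-- place a vertex without neighbours in the domain at a free place -/
theorem put_valid' {G : SimpleGraph V} {k : ℕ} {s : St V} (hs : Valid G k s) {v : V}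
    (hv : v ∉ s.1) {N : ℕ} (hN : ∀ p ∈ s.1, s.2 p ≠ N) (hvn : ∀ p ∈ s.1, ¬ G.Adj v p) :
    Valid G k (put s v N) := by
  have key : ∀ p ∈ (put s v N).1, ∀ q ∈ (put s v N).1, G.Adj p q → p ∈ s.1 ∧ q ∈ s.1 := by
    intro p hp q hq ha
    rw [mem_put] at hp hq
    rcases hp with rfl | hp <;> rcases hq with rfl | hq
    · exact absurd ha (G.loopless.irrefl _)
    · exact absurd ha (hvn q hq)
    · exact absurd ha.symm (hvn p hp)
    · exact ⟨hp, hq⟩
  refine ⟨?_, ?_, ?_⟩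
  · intro p hp q hq h
    rw [mem_put] at hp hq
    rcases hp with rfl | hp <;> rcases hq with rfl | hq
    · rfl
    · rw [put_self, put_of_mem hv hq] at h
      exact absurd h.symm (hN q hq)
    · rw [put_self, put_of_mem hv hp] at h
      exact absurd h (hN p hp)
    · rw [put_of_mem hv hp, put_of_mem hv hq] at h
      exact hs.inj p hp q hq h
  · intro p hp q hq ha D hD h
    obtain ⟨hp, hq⟩ := key p hp q hq ha
    rw [put_of_mem hv hp, put_of_mem hv hq] at h
    exact hs.big p hp q hq ha D hD h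
  · intro p hp q hq p' hp' q' hq' ha ha' D hD h h'
    obtain ⟨hp, hq⟩ := key p hp q hq ha
    obtain ⟨hp', hq'⟩ := key p' hp' q' hq' ha'
    rw [put_of_mem hv hp, put_of_mem hv hq] at h
    rw [put_of_mem hv hp', put_of_mem hv hq'] at h'
    exact hs.uni p hp q hq p' hp' q' hq' ha ha' D hD h h'

/-- place `yl` at `M` and `yh` at `M + D0` -/
def put2 (s : St V) (yh yl : V) (M D0 : ℕ) : St V := put (put s yl M) yh (M + D0)

variable {G : SimpleGraph V} {k : ℕ} {s : St V} {yh yl : V} {M D0 B : ℕ}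

theorem put2_ext (hh : yh ∉ s.1) (hl : yl ∉ s.1) (hne : yh ≠ yl) :
    Ext s (put2 s yh yl M D0) := by
  refine (put_ext s yl hl M).trans (put_ext _ yh ?_ _)
  rw [mem_put]; push Not; exact ⟨hne, hh⟩

theorem mem_put2 {w : V} : w ∈ (put2 s yh yl M D0).1 ↔ w = yh ∨ w = yl ∨ w ∈ s.1 := by
  rw [put2, mem_put, mem_put]

theorem put2_h : (put2 s yh yl M D0).2 yh = M + D0 := put_self _ _ _

theorem put2_l (hh : yh ∉ s.1) (hne : yh ≠ yl) : (put2 s yh yl M D0).2 yl = M := by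
  have h1 : yh ∉ (put s yl M).1 := by rw [mem_put]; push Not; exact ⟨hne, hh⟩
  rw [put2, put_of_mem h1 (mem_put.2 (Or.inl rfl)), put_self]

theorem put2_of_mem (hh : yh ∉ s.1) (hl : yl ∉ s.1) (hne : yh ≠ yl) {w : V} (hw : w ∈ s.1) :
    (put2 s yh yl M D0).2 w = s.2 w := (put2_ext hh hl hne).2 w hw

theorem put2_pair (hh : yh ∉ s.1) (hl : yl ∉ s.1) (hne : yh ≠ yl)
    (hB : ∀ p ∈ s.1, s.2 p ≤ B) (hM : 2 * B + D0 < M) {p q : V}
    (hp : p ∈ (put2 s yh yl M D0).1) (hq : q ∈ (put2 s yh yl M D0).1) {D : ℕ}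
    (hD : 0 < D) (h : (put2 s yh yl M D0).2 p = (put2 s yh yl M D0).2 q + D) :
    (p ∈ s.1 ∧ q ∈ s.1 ∧ s.2 p = s.2 q + D ∧ D ≤ B) ∨ (p = yh ∧ q = yl ∧ D = D0) ∨
      (p = yh ∧ q ∈ s.1 ∧ M + D0 = s.2 q + D ∧ B + D0 < D) ∨
      (p = yl ∧ q ∈ s.1 ∧ M = s.2 q + D ∧ B + D0 < D) := by
  rw [mem_put2] at hp hq
  rcases hp with rfl | rfl | hp <;> rcases hq with rfl | rfl | hq
  · omega
  · rw [put2_h, put2_l hh hne] at h
    exact Or.inr (Or.inl ⟨rfl, rfl, by omega⟩)
  · rw [put2_h, put2_of_mem hh hl hne hq] at h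
    have := hB q hq
    exact Or.inr (Or.inr (Or.inl ⟨rfl, hq, h, by omega⟩))
  · rw [put2_h, put2_l hh hne] at h
    omega
  · omega
  · rw [put2_l hh hne, put2_of_mem hh hl hne hq] at h
    have := hB q hq
    exact Or.inr (Or.inr (Or.inr ⟨rfl, hq, h, by omega⟩))
  · rw [put2_h, put2_of_mem hh hl hne hp] at h
    have := hB p hp
    omega
  · rw [put2_l hh hne, put2_of_mem hh hl hne hp] at h
    have := hB p hp
    omega
  · rw [put2_of_mem hh hl hne hp, put2_of_mem hh hl hne hq] at h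
    have := hB p hp
    exact Or.inl ⟨hp, hq, h, by omega⟩

theorem put2_valid (hs : Valid G k s) (hh : yh ∉ s.1) (hl : yl ∉ s.1) (ha : G.Adj yh yl)
    (hB : ∀ p ∈ s.1, s.2 p ≤ B) (hM : 2 * B + D0 + k < M) (hk : k ≤ D0) (hD0 : 0 < D0)
    (hnr : ¬ Realized G s D0)
    (nc : ∀ p ∈ s.1, ∀ q ∈ s.1, s.2 p = s.2 q + D0 → ¬ (G.Adj yh p ∧ G.Adj yl q)) :
    Valid G k (put2 s yh yl M D0) := by
  have hne : yh ≠ yl := ha.ne
  have hM' : 2 * B + D0 < M := by omega
  refine ⟨?_, ?_, ?_⟩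
  · intro p hp q hq h
    rw [mem_put2] at hp hq
    rcases hp with rfl | rfl | hp <;> rcases hq with rfl | rfl | hq
    · rfl
    · rw [put2_h, put2_l hh hne] at h
      omega
    · rw [put2_h, put2_of_mem hh hl hne hq] at h
      have := hB q hq
      omega
    · rw [put2_h, put2_l hh hne] at h
      omega
    · rfl
    · rw [put2_l hh hne, put2_of_mem hh hl hne hq] at h
      have := hB q hq
      omega
    · rw [put2_h, put2_of_mem hh hl hne hp] at h
      have := hB p hp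
      omega
    · rw [put2_l hh hne, put2_of_mem hh hl hne hp] at h
      have := hB p hp
      omega
    · rw [put2_of_mem hh hl hne hp, put2_of_mem hh hl hne hq] at h
      exact hs.inj p hp q hq h
  · intro p hp q hq ha D hD h
    rcases put2_pair hh hl hne hB hM' hp hq hD h with
      ⟨hp, hq, h, -⟩ | ⟨rfl, rfl, rfl⟩ | ⟨rfl, hq, h, h2⟩ | ⟨rfl, hq, h, h2⟩
    · exact hs.big p hp q hq ha D hD h
    · exact hk
    · omega
    · omega
  · intro p hp q hq p' hp' q' hq' ha1 ha2 D hD h h'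
    rcases put2_pair hh hl hne hB hM' hp hq hD h with
      ⟨ip, iq, i, h2⟩ | ⟨e1, e2, i⟩ | ⟨e1, iq, i, h2⟩ | ⟨e1, iq, i, h2⟩ <;>
    rcases put2_pair hh hl hne hB hM' hp' hq' hD h' with
      ⟨ip', iq', i', h2'⟩ | ⟨e1', e2', i'⟩ | ⟨e1', iq', i', h2'⟩ | ⟨e1', iq', i', h2'⟩
    · exact hs.uni p ip q iq p' ip' q' iq' ha1 ha2 D hD i i'
    · exact absurd ⟨p, ip, q, iq, ha1, by rw [i, i']⟩ hnr
    · omega
    · omega
    · exact absurd ⟨p', ip', q', iq', ha2, by rw [i', i]⟩ hnr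
    · exact ⟨e1.trans e1'.symm, e2.trans e2'.symm⟩
    · omega
    · omega
    · omega
    · omega
    · exact ⟨e1.trans e1'.symm, hs.inj q iq q' iq' (by omega)⟩
    · exact absurd ⟨e1 ▸ ha1, e1' ▸ ha2⟩ (nc q iq q' iq' (by omega))
    · omega
    · omega
    · exact absurd ⟨e1' ▸ ha2, e1 ▸ ha1⟩ (nc q' iq' q iq (by omega))
    · exact ⟨e1.trans e1'.symm, hs.inj q iq q' iq' (by omega)⟩


/-- not isolated -/
def NI (G : SimpleGraph V) (p : V) : Prop := ∃ w, G.Adj p w

def SS (a b : V → Prop) (s : St V) (D : ℕ) : Prop :=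
  ∀ p ∈ s.1, ∀ q ∈ s.1, s.2 p = s.2 q + D → ¬ (a p ∧ b q)

def UU (G : SimpleGraph V) (s : St V) (D : ℕ) : Prop :=
  ∀ p ∈ s.1, ∀ q ∈ s.1, ∀ p' ∈ s.1, ∀ q' ∈ s.1, s.2 p = s.2 q + D → s.2 p' = s.2 q' + D →
    NI G p → NI G q → NI G p' → NI G q' → p = p' ∧ q = q'

def Inv (G : SimpleGraph V) (a b : V → Prop) (s : St V) : Prop :=
  ∀ D, 0 < D → Realized G s D ∨ SS a b s D ∨ SS b a s D ∨ UU G s D

variable {a b : V → Prop}

theorem put_inv (hval : Valid G k s) (hs : Inv G a b s) {v : V} (hv : v ∉ s.1) {N : ℕ}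
    (hB : ∀ p ∈ s.1, s.2 p ≤ B) (hN : 2 * B < N) : Inv G a b (put s v N) := by
  intro D hD
  by_cases hDB : D ≤ B
  · rcases hs D hD with h | h | h | h
    · exact Or.inl (h.mono (put_ext s v hv N))
    · right; left
      intro p hp q hq e
      rcases put_pair hv hB hN hp hq hD e with ⟨ip, iq, i, _⟩ | ⟨_, _, _, i⟩
      · exact h p ip q iq i
      · omega
    · right; right; left
      intro p hp q hq e
      rcases put_pair hv hB hN hp hq hD e with ⟨ip, iq, i, _⟩ | ⟨_, _, _, i⟩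
      · exact h p ip q iq i
      · omega
    · right; right; right
      intro p hp q hq p' hp' q' hq' e e' n1 n2 n3 n4
      rcases put_pair hv hB hN hp hq hD e with ⟨ip, iq, i, _⟩ | ⟨_, _, _, i⟩
      · rcases put_pair hv hB hN hp' hq' hD e' with ⟨ip', iq', i', _⟩ | ⟨_, _, _, i'⟩
        · exact h p ip q iq p' ip' q' iq' i i' n1 n2 n3 n4
        · omega
      · omega
  · right; right; right
    intro p hp q hq p' hp' q' hq' e e' n1 n2 n3 n4
    rcases put_pair hv hB hN hp hq hD e with ⟨_, _, _, i⟩ | ⟨e1, iq, i, _⟩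
    · omega
    · rcases put_pair hv hB hN hp' hq' hD e' with ⟨_, _, _, i'⟩ | ⟨e1', iq', i', _⟩
      · omega
      · exact ⟨e1.trans e1'.symm, hval.inj q iq q' iq' (by omega)⟩

theorem put2_inv (hval : Valid G k s) (hs : Inv G a b s) (hh : yh ∉ s.1) (hl : yl ∉ s.1)
    (hadj : G.Adj yh yl) (hB : ∀ p ∈ s.1, s.2 p ≤ B) (hM : 2 * B + D0 + k < M)
    (hinv : ∀ p ∈ s.1, ∀ q ∈ s.1, s.2 p = s.2 q + D0 → ¬ G.Adj yh p → ¬ G.Adj yl q →
      (¬ (a yh ∧ b p) ∧ ¬ (a yl ∧ b q)) ∨ (¬ (b yh ∧ a p) ∧ ¬ (b yl ∧ a q)) ∨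
        ¬ NI G p ∨ ¬ NI G q) :
    Inv G a b (put2 s yh yl M D0) := by
  have hne : yh ≠ yl := hadj.ne
  have hM' : 2 * B + D0 < M := by omega
  intro D hD
  have hE : Ext s (put2 s yh yl M D0) := put2_ext hh hl hne
  have mh : yh ∈ (put2 s yh yl M D0).1 := mem_put2.2 (Or.inl rfl)
  have ml : yl ∈ (put2 s yh yl M D0).1 := mem_put2.2 (Or.inr (Or.inl rfl))
  by_cases hDD : D = D0
  · left
    exact ⟨yh, mh, yl, ml, hadj, by rw [put2_h, put2_l hh hne, hDD]⟩
  by_cases hDB : D ≤ B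
  · have old : ∀ p ∈ (put2 s yh yl M D0).1, ∀ q ∈ (put2 s yh yl M D0).1,
        (put2 s yh yl M D0).2 p = (put2 s yh yl M D0).2 q + D →
        p ∈ s.1 ∧ q ∈ s.1 ∧ s.2 p = s.2 q + D := by
      intro p hp q hq e
      rcases put2_pair hh hl hne hB hM' hp hq hD e with
        ⟨ip, iq, i, h2⟩ | ⟨e1, e2, i⟩ | ⟨e1, iq, i, h2⟩ | ⟨e1, iq, i, h2⟩
      · exact ⟨ip, iq, i⟩
      · exact absurd i hDD
      · omega
      · omega
    rcases hs D hD with h | h | h | h
    · exact Or.inl (h.mono hE)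
    · right; left
      intro p hp q hq e
      obtain ⟨ip, iq, i⟩ := old p hp q hq e
      exact h p ip q iq i
    · right; right; left
      intro p hp q hq e
      obtain ⟨ip, iq, i⟩ := old p hp q hq e
      exact h p ip q iq i
    · right; right; right
      intro p hp q hq p' hp' q' hq' e e' n1 n2 n3 n4
      obtain ⟨ip, iq, i⟩ := old p hp q hq e
      obtain ⟨ip', iq', i'⟩ := old p' hp' q' hq' e'
      exact h p ip q iq p' ip' q' iq' i i' n1 n2 n3 n4
  · have new : ∀ p ∈ (put2 s yh yl M D0).1, ∀ q ∈ (put2 s yh yl M D0).1,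
        (put2 s yh yl M D0).2 p = (put2 s yh yl M D0).2 q + D →
        (p = yh ∧ q ∈ s.1 ∧ M + D0 = s.2 q + D) ∨ (p = yl ∧ q ∈ s.1 ∧ M = s.2 q + D) := by
      intro p hp q hq e
      rcases put2_pair hh hl hne hB hM' hp hq hD e with
        ⟨ip, iq, i, h2⟩ | ⟨e1, e2, i⟩ | ⟨e1, iq, i, h2⟩ | ⟨e1, iq, i, h2⟩
      · omega
      · exact absurd i hDD
      · exact Or.inl ⟨e1, iq, i⟩
      · exact Or.inr ⟨e1, iq, i⟩
    by_cases h3 : ∃ p ∈ s.1, M + D0 = s.2 p + D ∧ NI G p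
    · obtain ⟨p, hp, ep, np⟩ := h3
      by_cases h4 : ∃ q ∈ s.1, M = s.2 q + D ∧ NI G q
      · obtain ⟨q, hq, eq, nq⟩ := h4
        have epq : s.2 p = s.2 q + D0 := by omega
        have up : ∀ p' ∈ s.1, M + D0 = s.2 p' + D → p' = p := fun p' hp' e =>
          hval.inj p' hp' p hp (by omega)
        have uq : ∀ q' ∈ s.1, M = s.2 q' + D → q' = q := fun q' hq' e =>
          hval.inj q' hq' q hq (by omega)
        by_cases hap : G.Adj yh p
        · left
          exact ⟨yh, mh, p, hE.1 hp, hap, by rw [put2_h, put2_of_mem hh hl hne hp]; omega⟩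
        by_cases haq : G.Adj yl q
        · left
          exact ⟨yl, ml, q, hE.1 hq, haq, by
            rw [put2_l hh hne, put2_of_mem hh hl hne hq]; omega⟩
        rcases hinv p hp q hq epq hap haq with ⟨i1, i2⟩ | ⟨i1, i2⟩ | i | i
        · right; left
          intro x hx y hy e hxy
          rcases new x hx y hy e with ⟨rfl, iy, e'⟩ | ⟨rfl, iy, e'⟩
          · rw [up y iy e'] at hxy; exact i1 hxy
          · rw [uq y iy e'] at hxy; exact i2 hxy
        · right; right; left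
          intro x hx y hy e hxy
          rcases new x hx y hy e with ⟨rfl, iy, e'⟩ | ⟨rfl, iy, e'⟩
          · rw [up y iy e'] at hxy; exact i1 hxy
          · rw [uq y iy e'] at hxy; exact i2 hxy
        · exact absurd np i
        · exact absurd nq i
      · right; right; right
        intro x hx y hy x' hx' y' hy' e e' n1 n2 n3 n4
        rcases new x hx y hy e with ⟨e1, iy, e2⟩ | ⟨e1, iy, e2⟩
        · rcases new x' hx' y' hy' e' with ⟨e1', iy', e2'⟩ | ⟨e1', iy', e2'⟩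
          · exact ⟨e1.trans e1'.symm, hval.inj y iy y' iy' (by omega)⟩
          · exact absurd ⟨y', iy', e2', n4⟩ h4
        · exact absurd ⟨y, iy, e2, n2⟩ h4
    · right; right; right
      intro x hx y hy x' hx' y' hy' e e' n1 n2 n3 n4
      rcases new x hx y hy e with ⟨e1, iy, e2⟩ | ⟨e1, iy, e2⟩
      · exact absurd ⟨y, iy, e2, n2⟩ h3
      · rcases new x' hx' y' hy' e' with ⟨e1', iy', e2'⟩ | ⟨e1', iy', e2'⟩
        · exact absurd ⟨y', iy', e2', n4⟩ h3
        · exact ⟨e1.trans e1'.symm, hval.inj y iy y' iy' (by omega)⟩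

end ext

/-- types -/
structure Typ (G : SimpleGraph V) (α β : Ultrafilter V) : Prop where
  edge : ∀ A ∈ α, ∀ B ∈ β, ∀ F : Finset V, ∃ u ∈ A, ∃ v ∈ B, u ∉ F ∧ v ∉ F ∧ G.Adj u v
  hh : α = β ∨ {u | G.neighborSet u ∉ α} ∈ α

theorem edges_outside {G : SimpleGraph V} (hG : InfiniteMatching G) (F : Finset V) :
    ∃ u v, u ∉ F ∧ v ∉ F ∧ G.Adj u v := by
  obtain ⟨M, hinf, hMG, hdis⟩ := hG
  have hfin : (⋃ v ∈ F, {e | e ∈ M ∧ v ∈ e}).Finite := by
    refine Set.Finite.biUnion F.finite_toSet fun v _ => Set.Subsingleton.finite ?_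
    intro e he e' he'
    by_contra hne
    exact hdis e he.1 e' he'.1 hne v he.2 he'.2
  obtain ⟨e, heM, he⟩ := (hinf.sdiff hfin).nonempty
  induction e using Sym2.ind with
  | _ u v =>
    refine ⟨u, v, fun hu => he ?_, fun hv => he ?_, hMG heM⟩
    · simp only [Set.mem_iUnion]
      exact ⟨u, hu, heM, Sym2.mem_mk_left u v⟩
    · simp only [Set.mem_iUnion]
      exact ⟨v, hv, heM, Sym2.mem_mk_right u v⟩

theorem exists_typ {G : SimpleGraph V} (hG : InfiniteMatching G) :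
    ∃ α β : Ultrafilter V, Typ G α β := by
  classical
  let E : Finset V → Set (V × V) := fun F => {w | w.1 ∉ F ∧ w.2 ∉ F ∧ G.Adj w.1 w.2}
  have hmono : ∀ F F' : Finset V, F ⊆ F' → E F' ⊆ E F := fun F F' h w hw =>
    ⟨fun h' => hw.1 (h h'), fun h' => hw.2.1 (h h'), hw.2.2⟩
  have : Nonempty V := by
    obtain ⟨u, v, h⟩ := edges_outside hG ∅
    exact ⟨u⟩
  have hne : (⨅ F : Finset V, 𝓟 (E F)).NeBot := by
    refine Filter.iInf_neBot_of_directed ?_ ?_
    · intro F F'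
      refine ⟨F ∪ F', ?_, ?_⟩
      · exact Filter.principal_mono.2 (hmono _ _ Finset.subset_union_left)
      · exact Filter.principal_mono.2 (hmono _ _ Finset.subset_union_right)
    · intro F
      rw [Filter.principal_neBot_iff]
      obtain ⟨u, v, h⟩ := edges_outside hG F
      exact ⟨(u, v), h⟩
  let W : Ultrafilter (V × V) := Ultrafilter.of (⨅ F : Finset V, 𝓟 (E F))
  have hW : ∀ F, E F ∈ W := fun F =>
    (Ultrafilter.of_le _) (Filter.mem_iInf_of_mem F (Filter.mem_principal_self _))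
  let α : Ultrafilter V := W.map Prod.fst
  let β : Ultrafilter V := W.map Prod.snd
  have hαF : ∀ F : Finset V, {u | u ∉ F} ∈ α := by
    intro F
    show Prod.fst ⁻¹' {u | u ∉ F} ∈ W
    exact Filter.mem_of_superset (hW F) fun w hw => hw.1
  by_cases hc : {u | G.neighborSet u ∉ α} ∈ α
  · refine ⟨α, β, ?_, Or.inr hc⟩
    intro A hA B hB F
    have h1 : Prod.fst ⁻¹' A ∈ W := hA
    have h2 : Prod.snd ⁻¹' B ∈ W := hB
    obtain ⟨w, ⟨hw1, hw2⟩, hw3⟩ := W.nonempty_of_mem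
      (Filter.inter_mem (Filter.inter_mem h1 h2) (hW F))
    exact ⟨w.1, hw1, w.2, hw2, hw3.1, hw3.2.1, hw3.2.2⟩
  · refine ⟨α, α, ?_, Or.inl rfl⟩
    have hc' : {u | G.neighborSet u ∈ α} ∈ α := by
      have := Ultrafilter.compl_mem_iff_notMem.2 hc
      convert this using 1
      ext u; simp
    intro A hA B hB F
    obtain ⟨u, ⟨hu1, hu2⟩, hu3⟩ := α.nonempty_of_mem
      (Filter.inter_mem (Filter.inter_mem hA hc') (hαF F))
    obtain ⟨v, ⟨hv1, hv2⟩, hv3⟩ := α.nonempty_of_mem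
      (Filter.inter_mem (Filter.inter_mem hB hu2) (hαF F))
    exact ⟨u, hu1, v, hv1, hu3, hv3, hv2⟩

theorem typical {G : SimpleGraph V} (α : Ultrafilter V) (P : Finset V) :
    {u | ∀ p ∈ P, (G.Adj u p ↔ G.neighborSet p ∈ α)} ∈ α := by
  classical
  have : {u | ∀ p ∈ P, (G.Adj u p ↔ G.neighborSet p ∈ α)} =
      ⋂ p ∈ P, {u | G.Adj u p ↔ G.neighborSet p ∈ α} := by
    ext u; simp
  rw [this]
  refine (Filter.biInter_finset_mem P).2 fun p _ => ?_
  by_cases h : G.neighborSet p ∈ α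
  · refine Filter.mem_of_superset h fun u hu => ?_
    exact ⟨fun _ => h, fun _ => (show G.Adj p u from hu).symm⟩
  · refine Filter.mem_of_superset (Ultrafilter.compl_mem_iff_notMem.2 h) fun u hu => ?_
    exact ⟨fun h' => absurd h'.symm hu, fun h' => absurd h' h⟩

theorem ni_of {G : SimpleGraph V} {α : Ultrafilter V} {p : V} (h : G.neighborSet p ∈ α) :
    NI G p := by
  obtain ⟨w, hw⟩ := α.nonempty_of_mem h
  exact ⟨w, hw⟩

/-- the star condition at a state -/
theorem realise [DecidableEq V] {G : SimpleGraph V} {α β : Ultrafilter V} (hT : Typ G α β)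
    (hstar : ∀ x y, AlmostDom G x → AlmostDom G y → x ≠ y → G.Adj x y)
    {k D0 : ℕ} (hk : k ≤ D0) (hD0 : 0 < D0) (s : St V) (hs : Valid G k s)
    (hi : Inv G (fun p => G.neighborSet p ∈ α) (fun p => G.neighborSet p ∈ β) s) :
    ∃ t, (Valid G k t ∧ Inv G (fun p => G.neighborSet p ∈ α)
      (fun p => G.neighborSet p ∈ β) t) ∧ Ext s t ∧ Realized G t D0 := by
  by_cases hnr : Realized G s D0
  · exact ⟨s, ⟨hs, hi⟩, Ext.refl s, hnr⟩
  obtain ⟨B, hB⟩ := exists_bound s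
  -- it is enough to find suitable yh, yl
  suffices H : ∃ yh yl, yh ∉ s.1 ∧ yl ∉ s.1 ∧ G.Adj yh yl ∧
      (∀ p ∈ s.1, ∀ q ∈ s.1, s.2 p = s.2 q + D0 → ¬ (G.Adj yh p ∧ G.Adj yl q)) ∧
      (∀ p ∈ s.1, ∀ q ∈ s.1, s.2 p = s.2 q + D0 → ¬ G.Adj yh p → ¬ G.Adj yl q →
        (¬ (G.neighborSet yh ∈ α ∧ G.neighborSet p ∈ β) ∧
          ¬ (G.neighborSet yl ∈ α ∧ G.neighborSet q ∈ β)) ∨
        (¬ (G.neighborSet yh ∈ β ∧ G.neighborSet p ∈ α) ∧
          ¬ (G.neighborSet yl ∈ β ∧ G.neighborSet q ∈ α)) ∨ ¬ NI G p ∨ ¬ NI G q) by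
    obtain ⟨yh, yl, hh, hl, ha, nc, hinv⟩ := H
    have hM : 2 * B + D0 + k < 2 * B + D0 + k + 1 := Nat.lt_succ_self _
    refine ⟨put2 s yh yl (2 * B + D0 + k + 1) D0, ⟨?_, ?_⟩, put2_ext hh hl ha.ne, ?_⟩
    · exact put2_valid hs hh hl ha hB hM hk hD0 hnr nc
    · exact put2_inv hs hi hh hl ha hB hM hinv
    · exact ⟨yh, mem_put2.2 (Or.inl rfl), yl, mem_put2.2 (Or.inr (Or.inl rfl)), ha, by
        rw [put2_h, put2_l hh ha.ne]⟩
  have tα := typical (G := G) α s.1
  have tβ := typical (G := G) β s.1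
  by_cases h1 : SS (fun p => G.neighborSet p ∈ α) (fun p => G.neighborSet p ∈ β) s D0
  · rcases hT.hh with hαβ | hhh
    · subst hαβ
      obtain ⟨u, hu, v, hv, huF, hvF, huv⟩ := hT.edge _ tα _ tα s.1
      refine ⟨u, v, huF, hvF, huv, ?_, ?_⟩
      · intro p hp q hq e hpq
        exact h1 p hp q hq e ⟨(hu p hp).1 hpq.1, (hv q hq).1 hpq.2⟩
      · intro p hp q hq e n1 n2
        left
        exact ⟨fun h => n1 ((hu p hp).2 h.2), fun h => n2 ((hv q hq).2 h.2)⟩
    · obtain ⟨u, hu, v, hv, huF, hvF, huv⟩ := hT.edge _ (Filter.inter_mem tα hhh) _ tβ s.1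
      refine ⟨u, v, huF, hvF, huv, ?_, ?_⟩
      · intro p hp q hq e hpq
        exact h1 p hp q hq e ⟨(hu.1 p hp).1 hpq.1, (hv q hq).1 hpq.2⟩
      · intro p hp q hq e n1 n2
        left
        exact ⟨fun h => hu.2 h.1, fun h => n2 ((hv q hq).2 h.2)⟩
  by_cases h2 : SS (fun p => G.neighborSet p ∈ β) (fun p => G.neighborSet p ∈ α) s D0
  · rcases hT.hh with hαβ | hhh
    · subst hαβ
      exact absurd h2 h1
    · obtain ⟨u, hu, v, hv, huF, hvF, huv⟩ := hT.edge _ (Filter.inter_mem tα hhh) _ tβ s.1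
      refine ⟨v, u, hvF, huF, huv.symm, ?_, ?_⟩
      · intro p hp q hq e hpq
        exact h2 p hp q hq e ⟨(hv p hp).1 hpq.1, (hu.1 q hq).1 hpq.2⟩
      · intro p hp q hq e n1 n2
        left
        exact ⟨fun h => n1 ((hv p hp).2 h.2), fun h => hu.2 h.1⟩
  have h3 : UU G s D0 := by
    rcases hi D0 hD0 with h | h | h | h
    · exact absurd h hnr
    · exact absurd h h1
    · exact absurd h h2
    · exact h
  -- the unique pair
  unfold SS at h1 h2
  push Not at h1 h2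
  obtain ⟨x, hx, q, hq, exq, hax, hbq⟩ := h1
  obtain ⟨x', hx', q', hq', exq', hbx, haq⟩ := h2
  have hNx : NI G x := ni_of hax
  have hNq : NI G q := ni_of hbq
  obtain ⟨rfl, rfl⟩ := h3 x hx q hq x' hx' q' hq' exq exq' hNx hNq (ni_of hbx) (ni_of haq)
  have uniq : ∀ p ∈ s.1, ∀ r ∈ s.1, s.2 p = s.2 r + D0 → (p = x ∧ r = q) ∨ ¬ NI G p ∨
      ¬ NI G r := by
    intro p hp r hr e
    by_cases hp1 : NI G p
    · by_cases hr1 : NI G r
      · left
        exact h3 p hp r hr x hx q hq e exq hp1 hr1 hNx hNq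
      · exact Or.inr (Or.inr hr1)
    · exact Or.inr (Or.inl hp1)
  have hxq : ¬ G.Adj x q := fun h => hnr ⟨x, hx, q, hq, h, exq⟩
  have hxq' : x ≠ q := by
    rintro rfl; omega
  -- a typical neighbour of a vertex
  have typnb : ∀ y, (G.neighborSet y ∈ α ∨ G.neighborSet y ∈ β) →
      ∃ w, w ∉ s.1 ∧ G.Adj y w ∧ G.Adj w x ∧ G.Adj w q := by
    rintro y (hy | hy)
    · obtain ⟨u, ⟨⟨hu1, hu2⟩, hu3⟩, v, -, huF, -, -⟩ := hT.edge _
        (Filter.inter_mem (Filter.inter_mem hy hax) haq) Set.univ Filter.univ_mem s.1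
      exact ⟨u, huF, hu1, (show G.Adj x u from hu2).symm, (show G.Adj q u from hu3).symm⟩
    · obtain ⟨u, -, v, ⟨⟨hu1, hu2⟩, hu3⟩, -, huF, -⟩ := hT.edge Set.univ Filter.univ_mem _
        (Filter.inter_mem (Filter.inter_mem hy hbx) hbq) s.1
      exact ⟨v, huF, hu1, (show G.Adj x v from hu2).symm, (show G.Adj q v from hu3).symm⟩
  by_cases c1 : ∃ y, y ∉ s.1 ∧ ¬ G.Adj y x ∧ (G.neighborSet y ∈ α ∨ G.neighborSet y ∈ β)
  · obtain ⟨y, hyF, hyx, hy⟩ := c1
    obtain ⟨w, hwF, hyw, hwx, hwq⟩ := typnb y hy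
    refine ⟨y, w, hyF, hwF, hyw, ?_, ?_⟩
    · intro p hp r hr e hpr
      rcases uniq p hp r hr e with ⟨rfl, rfl⟩ | h | h
      · exact hyx hpr.1
      · exact h ⟨y, hpr.1.symm⟩
      · exact h ⟨w, hpr.2.symm⟩
    · intro p hp r hr e n1 n2
      rcases uniq p hp r hr e with ⟨rfl, rfl⟩ | h | h
      · exact absurd hwq n2
      · exact Or.inr (Or.inr (Or.inl h))
      · exact Or.inr (Or.inr (Or.inr h))
  by_cases c2 : ∃ y, y ∉ s.1 ∧ ¬ G.Adj y q ∧ (G.neighborSet y ∈ α ∨ G.neighborSet y ∈ β)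
  · obtain ⟨y, hyF, hyq, hy⟩ := c2
    obtain ⟨w, hwF, hyw, hwx, hwq⟩ := typnb y hy
    refine ⟨w, y, hwF, hyF, hyw.symm, ?_, ?_⟩
    · intro p hp r hr e hpr
      rcases uniq p hp r hr e with ⟨rfl, rfl⟩ | h | h
      · exact hyq hpr.2
      · exact h ⟨w, hpr.1.symm⟩
      · exact h ⟨y, hpr.2.symm⟩
    · intro p hp r hr e n1 n2
      rcases uniq p hp r hr e with ⟨rfl, rfl⟩ | h | h
      · exact absurd hwx n1
      · exact Or.inr (Or.inr (Or.inl h))
      · exact Or.inr (Or.inr (Or.inr h))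
  push Not at c1 c2
  -- an edge outside the state, one end of which is not adjacent to x or to q
  have key : ∃ y y', y ∉ s.1 ∧ y' ∉ s.1 ∧ G.Adj y y' ∧ (¬ G.Adj y x ∨ ¬ G.Adj y q) := by
    by_contra hcon
    push Not at hcon
    exact hxq (hstar x q ⟨s.1, fun u v hu hv huv => (hcon u v hu hv huv).1.symm⟩
      ⟨s.1, fun u v hu hv huv => (hcon u v hu hv huv).2.symm⟩ hxq')
  have tail : ∀ yh yl, yh ∉ s.1 → yl ∉ s.1 → ∀ p ∈ s.1, ∀ r ∈ s.1, s.2 p = s.2 r + D0 →
      ¬ G.Adj yh p → ¬ G.Adj yl r →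
        (¬ (G.neighborSet yh ∈ α ∧ G.neighborSet p ∈ β) ∧
          ¬ (G.neighborSet yl ∈ α ∧ G.neighborSet r ∈ β)) ∨
        (¬ (G.neighborSet yh ∈ β ∧ G.neighborSet p ∈ α) ∧
          ¬ (G.neighborSet yl ∈ β ∧ G.neighborSet r ∈ α)) ∨ ¬ NI G p ∨ ¬ NI G r := by
    intro yh yl hh hl p hp r hr e n1 n2
    rcases uniq p hp r hr e with ⟨rfl, rfl⟩ | h | h
    · left
      exact ⟨fun h => (c1 yh hh n1).1 h.1, fun h => (c2 yl hl n2).1 h.1⟩
    · exact Or.inr (Or.inr (Or.inl h))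
    · exact Or.inr (Or.inr (Or.inr h))
  obtain ⟨y, y', hyF, hyF', hyy, hor⟩ := key
  rcases hor with hor | hor
  · refine ⟨y, y', hyF, hyF', hyy, ?_, tail y y' hyF hyF'⟩
    intro p hp r hr e hpr
    rcases uniq p hp r hr e with ⟨rfl, rfl⟩ | h | h
    · exact hor hpr.1
    · exact h ⟨y, hpr.1.symm⟩
    · exact h ⟨y', hpr.2.symm⟩
  · refine ⟨y', y, hyF', hyF, hyy.symm, ?_, tail y' y hyF' hyF⟩
    intro p hp r hr e hpr
    rcases uniq p hp r hr e with ⟨rfl, rfl⟩ | h | h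
    · exact hor hpr.2
    · exact h ⟨y', hpr.1.symm⟩
    · exact h ⟨y, hpr.2.symm⟩


/-- the empty state -/
def st0 : St V := (∅, fun _ => 0)

theorem valid0 (G : SimpleGraph V) (k : ℕ) : Valid G k (st0 : St V) :=
  ⟨fun p hp => absurd hp (Finset.notMem_empty p), fun p hp => absurd hp (Finset.notMem_empty p),
    fun p hp => absurd hp (Finset.notMem_empty p)⟩

theorem inv0 (G : SimpleGraph V) (a b : V → Prop) : Inv G a b (st0 : St V) :=
  fun _ _ => Or.inr (Or.inl fun p hp => absurd hp (Finset.notMem_empty p))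

theorem kgraceful_of_star [Countable V] {G : SimpleGraph V} (hG : InfiniteMatching G)
    (hstar : ∀ x y, AlmostDom G x → AlmostDom G y → x ≠ y → G.Adj x y) {k : ℕ} (hk : 1 ≤ k) :
    KGraceful G k := by
  classical
  obtain ⟨α, β, hT⟩ := exists_typ hG
  obtain ⟨s, hgood, hE, hR⟩ := chain (ι := V ⊕ ℕ)
    (fun t => Valid G k t ∧ Inv G (fun p => G.neighborSet p ∈ α)
      (fun p => G.neighborSet p ∈ β) t)
    (fun i t => match i with
      | Sum.inl v => v ∈ t.1
      | Sum.inr D => k ≤ D → Realized G t D) st0 ⟨valid0 G k, inv0 G _ _⟩ (by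
    rintro s ⟨hs, hi⟩ (v | D)
    · by_cases hv : v ∈ s.1
      · exact ⟨s, ⟨hs, hi⟩, Ext.refl s, hv⟩
      · obtain ⟨B, hB⟩ := exists_bound s
        exact ⟨put s v (2 * B + k + 1), ⟨put_valid hs hv hB (by omega),
          put_inv hs hi hv hB (by omega)⟩, put_ext s v hv _, mem_put.2 (Or.inl rfl)⟩
    · by_cases hD : k ≤ D
      · obtain ⟨t, ht, hx, hr⟩ := realise hT hstar hD (by omega) s hs hi
        exact ⟨t, ht, hx, fun _ => hr⟩
      · exact ⟨s, ⟨hs, hi⟩, Ext.refl s, fun h => absurd h hD⟩)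
  obtain ⟨F, -, hinj, hbij⟩ := numbering_of_chain G k s hE (fun n => (hgood n).1)
    (fun v => hR (Sum.inl v)) (fun D hD => by
      obtain ⟨n, hn⟩ := hR (Sum.inr D)
      exact ⟨n, hn hD⟩)
  exact ⟨F, hinj, hbij⟩

/-- generic bijective version -/
theorem bij_of_steps [Countable V] {G : SimpleGraph V} {k : ℕ} (Good : St V → Prop)
    (h0 : Good st0) (hval : ∀ s, Good s → Valid G k s)
    (h1 : ∀ s, Good s → ∀ v, ∃ t, Good t ∧ Ext s t ∧ v ∈ t.1)
    (h2 : ∀ s, Good s → ∀ D, k ≤ D → ∃ t, Good t ∧ Ext s t ∧ Realized G t D)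
    (h3 : ∀ s, Good s → ∀ n, ∃ t, Good t ∧ Ext s t ∧ ∃ p ∈ t.1, t.2 p = n) :
    BijKGraceful G k := by
  obtain ⟨s, hgood, hE, hR⟩ := chain (ι := V ⊕ (ℕ ⊕ ℕ)) Good
    (fun i t => match i with
      | Sum.inl v => v ∈ t.1
      | Sum.inr (Sum.inl D) => k ≤ D → Realized G t D
      | Sum.inr (Sum.inr n) => ∃ p ∈ t.1, t.2 p = n) st0 h0 (by
    rintro s hs (v | D | n)
    · exact h1 s hs v
    · by_cases hD : k ≤ D
      · obtain ⟨t, ht, hx, hr⟩ := h2 s hs D hD
        exact ⟨t, ht, hx, fun _ => hr⟩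
      · exact ⟨s, hs, Ext.refl s, fun h => absurd h hD⟩
    · exact h3 s hs n)
  obtain ⟨F, hF, hinj, hbij⟩ := numbering_of_chain G k s hE (fun n => hval _ (hgood n))
    (fun v => hR (Sum.inl v)) (fun D hD => by
      obtain ⟨n, hn⟩ := hR (Sum.inr (Sum.inl D))
      exact ⟨n, hn hD⟩)
  refine ⟨F, ⟨hinj, fun n => ?_⟩, hbij⟩
  obtain ⟨m, p, hp, hpn⟩ := hR (Sum.inr (Sum.inr n))
  exact ⟨p, by rw [hF m p hp, hpn]⟩

theorem bij_of_far [Countable V] {G : SimpleGraph V}
    (hfar : ∀ P : Finset V, ∃ z, z ∉ P ∧ (∃ w, G.Adj z w) ∧ ∀ p ∈ P, ¬ G.Adj z p)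
    {k : ℕ} (hk : 1 ≤ k) : BijKGraceful G k := by
  classical
  refine bij_of_steps (Valid G k) (valid0 G k) (fun s hs => hs) ?_ ?_ ?_
  · intro s hs v
    by_cases hv : v ∈ s.1
    · exact ⟨s, hs, Ext.refl s, hv⟩
    · obtain ⟨B, hB⟩ := exists_bound s
      exact ⟨put s v (2 * B + k + 1), put_valid hs hv hB (by omega), put_ext s v hv _,
        mem_put.2 (Or.inl rfl)⟩
  · intro s hs D hD
    by_cases hnr : Realized G s D
    · exact ⟨s, hs, Ext.refl s, hnr⟩
    obtain ⟨B, hB⟩ := exists_bound s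
    obtain ⟨z, hz, ⟨w, hzw⟩, hzP⟩ := hfar s.1
    have hw : w ∉ s.1 := fun h => hzP w h hzw
    have hM : 2 * B + D + k < 2 * B + D + k + 1 := Nat.lt_succ_self _
    refine ⟨put2 s z w (2 * B + D + k + 1) D, ?_, put2_ext hz hw hzw.ne, ?_⟩
    · exact put2_valid hs hz hw hzw hB hM hD (by omega) hnr
        (fun p hp q hq _ h => hzP p hp h.1)
    · exact ⟨z, mem_put2.2 (Or.inl rfl), w, mem_put2.2 (Or.inr (Or.inl rfl)), hzw, by
        rw [put2_h, put2_l hz hzw.ne]⟩
  · intro s hs n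
    by_cases hn : ∃ p ∈ s.1, s.2 p = n
    · exact ⟨s, hs, Ext.refl s, hn⟩
    push Not at hn
    obtain ⟨z, hz, -, hzP⟩ := hfar s.1
    exact ⟨put s z n, put_valid' hs hz hn hzP, put_ext s z hz _, z, mem_put.2 (Or.inl rfl),
      put_self s z n⟩

/-- finitely many vertices dominating all the others exclude bijective numberings -/
theorem not_bij_of_dom {G : SimpleGraph V} (hG : InfiniteMatching G) (hdom : FinDom G)
    {k : ℕ} (hk : 1 ≤ k) : ¬ BijKGraceful G k := by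
  classical
  rintro ⟨f, hf, hbij⟩
  obtain ⟨P, hP⟩ := hdom
  -- edges avoiding P
  obtain ⟨M, hinf, hMG, hdis⟩ := hG
  have hfin : (⋃ v ∈ P, {e | e ∈ M ∧ v ∈ e}).Finite := by
    refine Set.Finite.biUnion P.finite_toSet fun v _ => Set.Subsingleton.finite ?_
    intro e he e' he'
    by_contra hne
    exact hdis e he.1 e' he'.1 hne v he.2 he'.2
  obtain ⟨E, hEM, hEc⟩ := (hinf.sdiff hfin).exists_subset_card_eq P.card
  have hEP : ∀ e ∈ E, ∀ v ∈ P, v ∉ e := by
    intro e he v hv hve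
    refine (hEM he).2 ?_
    simp only [Set.mem_iUnion]
    exact ⟨v, hv, (hEM he).1, hve⟩
  -- a large n
  set n := P.sup f + E.sup (edgeLabel f) with hn
  have hPn : ∀ p ∈ P, f p ≤ n := fun p hp => (Finset.le_sup (f := f) hp).trans (by omega)
  have hEn : ∀ e ∈ E, edgeLabel f e ≤ n := fun e he =>
    (Finset.le_sup (f := edgeLabel f) he).trans (by omega)
  let g : ℕ → V := Function.surjInv hf.2
  have hg : ∀ m, f (g m) = m := Function.surjInv_eq hf.2
  let T : Finset V := (Finset.range (n + 1)).image g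
  have hT : ∀ z ∈ T, f z ≤ n := by
    intro z hz
    obtain ⟨m, hm, rfl⟩ := Finset.mem_image.1 hz
    rw [hg]; have := Finset.mem_range.1 hm; omega
  have hTc : T.card = n + 1 := by
    rw [Finset.card_image_of_injective _ (fun a c h => by
      have := congrArg f h; rwa [hg, hg] at this), Finset.card_range]
  choose! c hcP hcA using hP
  let S : Finset V := T \ P
  have hSc : n + 1 - P.card ≤ S.card := by
    have := Finset.le_card_sdiff P T
    rw [hTc] at this
    exact this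
  let E1 : Finset (Sym2 V) := S.image fun z => s(z, c z)
  have hE1c : E1.card = S.card := by
    refine Finset.card_image_of_injOn ?_
    intro z hz z' hz' h
    have hz := (Finset.mem_sdiff.1 (Finset.mem_coe.1 hz)).2
    have hz' := (Finset.mem_sdiff.1 (Finset.mem_coe.1 hz')).2
    rcases Sym2.eq_iff.1 h with ⟨h1, _⟩ | ⟨h1, _⟩
    · exact h1
    · exact absurd (h1 ▸ hcP z' hz') hz
  have hdisj : Disjoint E1 E := by
    rw [Finset.disjoint_left]
    intro e he he'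
    obtain ⟨z, hz, rfl⟩ := Finset.mem_image.1 he
    exact hEP _ he' (c z) (hcP z (Finset.mem_sdiff.1 hz).2) (Sym2.mem_mk_right _ _)
  have hsub : ((E1 ∪ E : Finset (Sym2 V)) : Set (Sym2 V)) ⊆ G.edgeSet := by
    intro e he
    rcases Finset.mem_union.1 (Finset.mem_coe.1 he) with he | he
    · obtain ⟨z, hz, rfl⟩ := Finset.mem_image.1 he
      exact hcA z (Finset.mem_sdiff.1 hz).2
    · exact hMG (hEM he).1
  have himg : ∀ e ∈ E1 ∪ E, edgeLabel f e ∈ Finset.Icc k n := by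
    intro e he
    rw [Finset.mem_Icc]
    refine ⟨hbij.mapsTo (hsub he), ?_⟩
    rcases Finset.mem_union.1 he with he | he
    · obtain ⟨z, hz, rfl⟩ := Finset.mem_image.1 he
      have h1 := hT z (Finset.mem_sdiff.1 hz).1
      have h2 := hPn (c z) (hcP z (Finset.mem_sdiff.1 hz).2)
      show ((f z : ℤ) - (f (c z) : ℤ)).natAbs ≤ n
      omega
    · exact hEn e he
  have hcard := Finset.card_le_card_of_injOn (edgeLabel f) himg
    (fun e he e' he' h => hbij.injOn (hsub he) (hsub he') h)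
  rw [Finset.card_union_of_disjoint hdisj, hE1c, hEc, Nat.card_Icc] at hcard
  omega

/-- if no finite set dominates, gracefulness gives a bijective numbering -/
theorem bij_of_kgraceful [Countable V] {G : SimpleGraph V} (hdom : ¬ FinDom G)
    {k : ℕ} (hk : 1 ≤ k) (h : KGraceful G k) : BijKGraceful G k := by
  classical
  by_cases hfar : ∀ P : Finset V, ∃ z, z ∉ P ∧ (∃ w, G.Adj z w) ∧ ∀ p ∈ P, ¬ G.Adj z p
  · exact bij_of_far hfar hk
  push Not at hfar
  obtain ⟨P0, hP0⟩ := hfar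
  -- infinitely many isolated vertices
  have hinf : {v : V | ¬ NI G v}.Infinite := by
    intro hfin
    refine hdom ⟨P0 ∪ hfin.toFinset, fun z hz => ?_⟩
    rw [Finset.mem_union, not_or, Set.Finite.mem_toFinset] at hz
    have hz2 : NI G z := not_not.1 hz.2
    obtain ⟨p, hp, hzp⟩ := hP0 z hz.1 hz2
    exact ⟨p, Finset.mem_union_left _ hp, hzp⟩
  obtain ⟨f, hf, hbij⟩ := h
  have hJ : ((f '' {v : V | NI G v})ᶜ).Infinite := by
    refine (hinf.image hf.injOn).mono ?_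
    rintro _ ⟨v, hv, rfl⟩ ⟨w, hw, hwv⟩
    exact hv (hf hwv ▸ hw)
  have i1 : Infinite {v : V // ¬ NI G v} := hinf.to_subtype
  have i2 : Infinite ((f '' {v : V | NI G v})ᶜ : Set ℕ) := hJ.to_subtype
  obtain ⟨e⟩ := nonempty_equiv_of_countable (α := {v : V // ¬ NI G v})
    (β := ((f '' {v : V | NI G v})ᶜ : Set ℕ))
  let F : V → ℕ := fun v => if h : NI G v then f v else (e ⟨v, h⟩ : ℕ)
  have F1 : ∀ v, NI G v → F v = f v := fun v h => dif_pos h
  have F2 : ∀ v (h : ¬ NI G v), F v = (e ⟨v, h⟩ : ℕ) := fun v h => dif_neg h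
  have hlab : ∀ x ∈ G.edgeSet, edgeLabel F x = edgeLabel f x := by
    intro x hx
    induction x using Sym2.ind with
    | _ u v =>
      show ((F u : ℤ) - (F v : ℤ)).natAbs = ((f u : ℤ) - (f v : ℤ)).natAbs
      rw [F1 u ⟨v, hx⟩, F1 v ⟨u, (show G.Adj u v from hx).symm⟩]
  refine ⟨F, ⟨?_, ?_⟩, hbij.congr fun x hx => (hlab x hx).symm⟩
  · intro u v huv
    by_cases hu : NI G u <;> by_cases hv : NI G v
    · rw [F1 u hu, F1 v hv] at huv
      exact hf huv
    · rw [F1 u hu, F2 v hv] at huv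
      exact absurd ⟨u, hu, huv⟩ (e ⟨v, hv⟩).2
    · rw [F2 u hu, F1 v hv] at huv
      exact absurd ⟨v, hv, huv.symm⟩ (e ⟨u, hu⟩).2
    · rw [F2 u hu, F2 v hv] at huv
      exact congrArg Subtype.val (e.injective (Subtype.ext huv))
  · intro n
    by_cases hn : n ∈ f '' {v : V | NI G v}
    · obtain ⟨v, hv, rfl⟩ := hn
      exact ⟨v, F1 v hv⟩
    · obtain ⟨⟨v, hv⟩, h⟩ := e.surjective ⟨n, hn⟩
      exact ⟨v, by rw [F2 v hv, h]⟩

/-- sanity check: in a triangle-free graph with an infinite matching no vertex is almost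
dominating, so the theorem applies -/
theorem no_almostDom_of_triangleFree {G : SimpleGraph V} (hG : InfiniteMatching G)
    (htf : ∀ x y z, G.Adj x y → G.Adj y z → ¬ G.Adj x z) (x : V) : ¬ AlmostDom G x := by
  rintro ⟨F, hF⟩
  obtain ⟨u, v, hu, hv, huv⟩ := edges_outside hG F
  exact htf x u v (hF u v hu hv huv) huv (hF v u hv hu huv.symm)

/-- Let `G` be a countable graph with infinitely many pairwise disjoint edges and `k ≥ 1`.
(1) `G` is bijectively-`k`-graceful iff it is `k`-graceful and no finite vertex set dominates all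
other vertices. (2) If any two distinct almost dominating vertices of `G` are adjacent, then `G`
is `k`-graceful. -/
theorem result {V : Type*} [Countable V] (G : SimpleGraph V) (hG : InfiniteMatching G)
    (k : ℕ) (hk : 1 ≤ k) :
    (BijKGraceful G k ↔ KGraceful G k ∧ ¬ FinDom G) ∧
    ((∀ x y, AlmostDom G x → AlmostDom G y → x ≠ y → G.Adj x y) → KGraceful G k) := by
  refine ⟨⟨fun h => ⟨?_, fun hd => not_bij_of_dom hG hd hk h⟩,
    fun h => bij_of_kgraceful h.2 hk h.1⟩, fun h => kgraceful_of_star hG h hk⟩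
  obtain ⟨f, hf, hb⟩ := h
  exact ⟨f, hf.1, hb⟩

end Pool.Agent.Results.MP_7616b3_co.InfMatching
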